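import Pool.Agent.Lib_helper26.RE.Lower

/-!
# MP_df1a54_co: the lower bound for `n - k = 2`
-/

open Finset

set_option linter.unusedSectionVars false

namespace Pool.Agent.RE26

variable {V : Type} [Fintype V] [DecidableEq V]

/-- an ordering in which `H`-edges join positions `2 i` and `2 i + 1` -/
theorem exists_order {H : SimpleGraph V} (hdeg : ∀ a b b', H.Adj a b → H.Adj a b' → b = b') :
    ∀ S : Finset V, (∀ a ∈ S, ∀ b, H.Adj a b → b ∈ S) → ∃ f : V → ℕ, Set.InjOn f (S : Set V) ∧
      (∀ v ∈ S, f v < S.card) ∧ ∀ a ∈ S, ∀ b ∈ S, H.Adj a b → f a / 2 = f b / 2 := by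
  classical
  intro S
  induction S using Finset.strongInduction with
  | H S ih =>
    intro hcl
    by_cases h : ∃ a ∈ S, ∃ b, H.Adj a b
    · obtain ⟨a, ha, b, hab⟩ := h
      have hb := hcl a ha b hab
      have hne : a ≠ b := hab.ne
      set S' := (S.erase a).erase b with hS'
      have hbS : b ∈ S.erase a := Finset.mem_erase.2 ⟨hne.symm, hb⟩
      have c1 := Finset.card_erase_add_one ha
      have c2 := Finset.card_erase_add_one hbS
      rw [← hS'] at c2
      have hss : S' ⊂ S := by
        refine Finset.ssubset_iff_subset_ne.2 ⟨(Finset.erase_subset _ _).trans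
          (Finset.erase_subset _ _), fun heq => ?_⟩
        have := congrArg Finset.card heq
        omega
      have hmem : ∀ v, v ∈ S' ↔ v ≠ b ∧ v ≠ a ∧ v ∈ S := by
        intro v
        rw [hS', Finset.mem_erase, Finset.mem_erase]
      obtain ⟨f, hinj, hlt, hadj⟩ := ih S' hss (by
        intro v hv z hvz
        rw [hmem] at hv ⊢
        refine ⟨?_, ?_, hcl v hv.2.2 z hvz⟩
        · rintro rfl
          exact hv.2.1 (hdeg z v a hvz.symm hab.symm)
        · rintro rfl
          exact hv.1 (hdeg z v b hvz.symm hab))
      refine ⟨fun v => if v = a then 0 else if v = b then 1 else f v + 2, ?_, ?_, ?_⟩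
      · intro u hu v hv huv
        simp only at huv
        by_cases h1 : u = a
        · by_cases h2 : v = a
          · exact h1.trans h2.symm
          · rw [if_pos h1, if_neg h2] at huv
            split_ifs at huv
        · by_cases h2 : v = a
          · rw [if_neg h1, if_pos h2] at huv
            split_ifs at huv
          · rw [if_neg h1, if_neg h2] at huv
            by_cases h3 : u = b
            · by_cases h4 : v = b
              · exact h3.trans h4.symm
              · rw [if_pos h3, if_neg h4] at huv
                omega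
            · by_cases h4 : v = b
              · rw [if_neg h3, if_pos h4] at huv
                omega
              · rw [if_neg h3, if_neg h4] at huv
                exact hinj ((hmem u).2 ⟨h3, h1, hu⟩) ((hmem v).2 ⟨h4, h2, hv⟩) (by omega)
      · intro v hv
        change (if v = a then 0 else if v = b then 1 else f v + 2) < S.card
        by_cases h1 : v = a
        · rw [if_pos h1]; omega
        · by_cases h2 : v = b
          · rw [if_neg h1, if_pos h2]; omega
          · rw [if_neg h1, if_neg h2]
            have := hlt v ((hmem v).2 ⟨h2, h1, hv⟩)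
            omega
      · intro u hu v hv huv
        change (if u = a then 0 else if u = b then 1 else f u + 2) / 2
          = (if v = a then 0 else if v = b then 1 else f v + 2) / 2
        by_cases h1 : u = a
        · subst h1
          have : v = b := hdeg u v b huv hab
          subst this
          rw [if_pos rfl, if_neg hne.symm, if_pos rfl]
        · by_cases h2 : u = b
          · subst h2
            have : v = a := hdeg u v a huv hab.symm
            subst this
            rw [if_neg h1, if_pos rfl, if_pos rfl]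
          · have hva : v ≠ a := by
              rintro rfl
              exact h2 (hdeg v u b huv.symm hab)
            have hvb : v ≠ b := by
              rintro rfl
              exact h1 (hdeg v u a huv.symm hab.symm)
            rw [if_neg h1, if_neg h2, if_neg hva, if_neg hvb]
            have := hadj u ((hmem u).2 ⟨h2, h1, hu⟩) v ((hmem v).2 ⟨hvb, hva, hv⟩) huv
            omega
    · push Not at h
      obtain ⟨e⟩ : Nonempty (S ≃ Fin S.card) := ⟨S.equivFin⟩
      refine ⟨fun v => if hv : v ∈ S then (e ⟨v, hv⟩).val else 0, ?_, ?_, ?_⟩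
      · intro u hu v hv huv
        have hu' : u ∈ S := hu
        have hv' : v ∈ S := hv
        simp only [dif_pos hu', dif_pos hv'] at huv
        have := e.injective (Fin.ext huv)
        exact congrArg Subtype.val this
      · intro v hv
        simp only [dif_pos hv]
        exact (e ⟨v, hv⟩).2
      · intro u hu v hv huv
        exact absurd huv (h u hu v)

/-- cyclically consecutive positions -/
def Cy (n i j : ℕ) : Prop := j = i + 1 ∨ i = j + 1 ∨ (i = 0 ∧ j + 1 = n) ∨ (j = 0 ∧ i + 1 = n)

theorem lowerC2 {H : SimpleGraph V} (hK : Bic H 2) (h8 : 16 ≤ Fintype.card V) :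
    ∃ F : Finset (Sym2 V), Good H 2 F ∧ (Fintype.card V + 1) / 2 ≤ F.card := by
  classical
  have hdeg : ∀ a b b', H.Adj a b → H.Adj a b' → b = b' := by
    intro a b b' h h'
    by_contra hne
    have := deg_le H 2 (by norm_num) hK a
    have hsub : ({b, b'} : Finset V) ⊆ cn H {a} := by
      intro z hz
      rw [mem_cn]
      intro j hj
      rw [Finset.mem_singleton.1 hj]
      rcases Finset.mem_insert.1 hz with rfl | hz
      · exact h
      · rw [Finset.mem_singleton.1 hz]; exact h'
    have h2 := Finset.card_le_card hsub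
    rw [Finset.card_pair hne] at h2
    omega
  obtain ⟨f, hinj, hlt, hadj⟩ := exists_order hdeg univ (fun _ _ b _ => Finset.mem_univ b)
  rw [Finset.card_univ] at hlt
  set n := Fintype.card V with hn
  have hinj' : Function.Injective f := fun a b hab =>
    hinj (Finset.mem_coe.2 (Finset.mem_univ a)) (Finset.mem_coe.2 (Finset.mem_univ b)) hab
  -- inverse
  have himg : (univ : Finset V).image f = Finset.range n := by
    refine Finset.eq_of_subset_of_card_le ?_ ?_
    · intro i hi
      obtain ⟨v, -, rfl⟩ := Finset.mem_image.1 hi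
      exact Finset.mem_range.2 (hlt v (Finset.mem_univ _))
    · rw [Finset.card_image_of_injective _ hinj', Finset.card_univ, Finset.card_range]
  have hsurj : ∀ i < n, ∃ v, f v = i := by
    intro i hi
    have : i ∈ (univ : Finset V).image f := by rw [himg]; exact Finset.mem_range.2 hi
    obtain ⟨v, -, hv⟩ := Finset.mem_image.1 this
    exact ⟨v, hv⟩
  have hex : ∀ i, ∃ v, i < n → f v = i := by
    intro i
    by_cases hi : i < n
    · obtain ⟨v, hv⟩ := hsurj i hi
      exact ⟨v, fun _ => hv⟩
    · obtain ⟨v, -⟩ := hsurj 0 (by omega)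
      exact ⟨v, fun h => absurd h hi⟩
  choose g hg using hex
  set m := (n + 1) / 2 with hm
  -- the new edges: positions `a i`, `b i`
  set pa : ℕ → ℕ := fun i => if 2 * i + 1 < n then 2 * i + 1 else n - 1 with hpa
  set pb : ℕ → ℕ := fun i => if 2 * i + 2 < n then 2 * i + 2 else 0 with hpb
  have hpa' : ∀ i < m, pa i < n ∧ pb i < n ∧ Cy n (pa i) (pb i) ∧ pa i / 2 ≠ pb i / 2 := by
    intro i hi
    rw [hpa, hpb]
    simp only
    unfold Cy
    split_ifs <;> omega
  set F : Finset (Sym2 V) := (Finset.range m).image (fun i => s(g (pa i), g (pb i))) with hF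
  have hFmem : ∀ x y, s(x, y) ∈ F → Cy n (f x) (f y) ∧ f x / 2 ≠ f y / 2 := by
    intro x y hxy
    obtain ⟨i, hi, heq⟩ := Finset.mem_image.1 hxy
    obtain ⟨h1, h2, h3, h4⟩ := hpa' i (Finset.mem_range.1 hi)
    rcases Sym2.eq_iff.1 heq with ⟨rfl, rfl⟩ | ⟨rfl, rfl⟩
    · rw [hg _ h1, hg _ h2]
      exact ⟨h3, h4⟩
    · rw [hg _ h1, hg _ h2]
      refine ⟨?_, h4.symm⟩
      unfold Cy at h3 ⊢
      tauto
  have hCy : ∀ x y, H.Adj x y ∨ s(x, y) ∈ F → Cy n (f x) (f y) := by
    intro x y hxy
    rcases hxy with h | h
    · have h1 := hadj x (Finset.mem_univ _) y (Finset.mem_univ _) h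
      have h2 : f x ≠ f y := fun h' => h.ne (hinj' h')
      unfold Cy
      omega
    · exact (hFmem x y h).1
  refine ⟨F, ⟨?_, ?_⟩, ?_⟩
  · intro e he
    induction e using Sym2.ind with
    | _ x y =>
      have h1 := (hFmem x y he).2
      refine ⟨fun h => h1 (by rw [Sym2.mk_isDiag_iff.1 h]), ?_⟩
      rw [SimpleGraph.mem_edgeSet]
      intro h
      exact h1 (hadj x (Finset.mem_univ _) y (Finset.mem_univ _) h)
  · intro A B hA hB hdisj hAB
    have hle2 : ∀ A B : Finset V, A.Nonempty → (∀ a ∈ A, ∀ b ∈ B, Cy n (f a) (f b)) →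
        B.card ≤ 2 := by
      intro A B hA hAB
      obtain ⟨a, ha⟩ := hA
      by_contra hcon
      obtain ⟨x, y, z, hx, hy, hz, hxy, hxz, hyz⟩ := Finset.two_lt_card_iff.1 (show 2 < B.card by omega)
      have h1 := hAB a ha x hx
      have h2 := hAB a ha y hy
      have h3 := hAB a ha z hz
      have h4 : f x ≠ f y := fun h => hxy (hinj' h)
      have h5 : f x ≠ f z := fun h => hxz (hinj' h)
      have h6 : f y ≠ f z := fun h => hyz (hinj' h)
      have h7 := hlt a (Finset.mem_univ _)
      have h8 := hlt x (Finset.mem_univ _)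
      have h9 := hlt y (Finset.mem_univ _)
      have h10 := hlt z (Finset.mem_univ _)
      unfold Cy at h1 h2 h3
      omega
    have hAB' : ∀ a ∈ A, ∀ b ∈ B, Cy n (f a) (f b) := fun a ha b hb => hCy a b (hAB a ha b hb)
    have h1 := hle2 A B hA hAB'
    have h2 := hle2 B A hB (fun b hb a ha => by
      have := hAB' a ha b hb
      unfold Cy at this ⊢
      tauto)
    by_contra hcon
    have hA2 : A.card = 2 := by omega
    have hB2 : B.card = 2 := by omega
    obtain ⟨a, a', haa', rfl⟩ := Finset.card_eq_two.1 hA2
    obtain ⟨b, b', hbb', rfl⟩ := Finset.card_eq_two.1 hB2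
    have e1 := hAB' a (by simp) b (by simp)
    have e2 := hAB' a (by simp) b' (by simp)
    have e3 := hAB' a' (by simp) b (by simp)
    have e4 := hAB' a' (by simp) b' (by simp)
    have e5 : f a ≠ f a' := fun h => haa' (hinj' h)
    have e6 : f b ≠ f b' := fun h => hbb' (hinj' h)
    have e7 := hlt a (Finset.mem_univ _)
    have e8 := hlt a' (Finset.mem_univ _)
    have e9 := hlt b (Finset.mem_univ _)
    have e10 := hlt b' (Finset.mem_univ _)
    unfold Cy at e1 e2 e3 e4
    omega
  · rw [hF, Finset.card_image_of_injOn, Finset.card_range]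
    intro i hi j hj heq
    simp only [Finset.coe_range, Set.mem_Iio] at hi hj
    obtain ⟨h1, h2, -, -⟩ := hpa' i hi
    obtain ⟨h3, h4, -, -⟩ := hpa' j hj
    have hcases : (pa i = pa j ∧ pb i = pb j) ∨ (pa i = pb j ∧ pb i = pa j) := by
      rcases Sym2.eq_iff.1 heq with ⟨e1, e2⟩ | ⟨e1, e2⟩
      · left
        constructor
        · rw [← hg _ h1, e1, hg _ h3]
        · rw [← hg _ h2, e2, hg _ h4]
      · right
        constructor
        · rw [← hg _ h1, e1, hg _ h4]
        · rw [← hg _ h2, e2, hg _ h3]
    have hpv : ∀ i, (pa i = 2 * i + 1 ∧ 2 * i + 1 < n) ∨ (pa i = n - 1 ∧ n ≤ 2 * i + 1) := by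
      intro i
      rw [hpa]
      simp only
      split_ifs <;> omega
    have hpw : ∀ i, (pb i = 2 * i + 2 ∧ 2 * i + 2 < n) ∨ (pb i = 0 ∧ n ≤ 2 * i + 2) := by
      intro i
      rw [hpb]
      simp only
      split_ifs <;> omega
    have v1 := hpv i
    have v2 := hpv j
    have v3 := hpw i
    have v4 := hpw j
    omega

end Pool.Agent.RE26
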