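import Pool.Agent.Lib_helper26.RE.Lower

/-!
# MP_df1a54_co: the lower bound when `k n` is odd
-/

open Finset

set_option linter.unusedSectionVars false

namespace Pool.Agent.RE26

variable {V : Type} [Fintype V] [DecidableEq V]

/-- the conditions that make `x` a bad partner of the special vertex `v0` -/
structure Bd (H : SimpleGraph V) (c : ℕ) (v0 x : V) (A B : Finset V) : Prop where
  vA : v0 ∈ A
  xv : ¬ H.Adj x v0
  two : 2 ≤ A.card
  half : 2 * A.card ≤ c
  size : c + 2 ≤ A.card + B.card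
  adj : ∀ a ∈ A, a ≠ v0 → H.Adj x a
  one : ∀ a ∈ A, a ≠ v0 → ∀ y ∈ B, ∀ y' ∈ B, ¬ H.Adj a y → ¬ H.Adj a y' → y = y'
  miss : ∀ S ⊆ B, (∀ z ∈ S, ¬ H.Adj v0 z) → S.card ≤ 2

theorem Bd.cd_ge {H : SimpleGraph V} {c : ℕ} {v0 x : V} {A B : Finset V} (h : Bd H c v0 x A B)
    {u : V} (hu : u ∈ A) (hne : u ≠ v0) : B.card ≤ cd H v0 u + 3 := by
  classical
  have h1 : (B.filter (fun z => ¬ H.Adj v0 z)).card ≤ 2 :=
    h.miss _ (Finset.filter_subset _ _) (fun z hz => (Finset.mem_filter.1 hz).2)
  have h2 : (B.filter (fun z => ¬ H.Adj u z)).card ≤ 1 := by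
    rw [Finset.card_le_one]
    intro z hz z' hz'
    exact h.one u hu hne z (Finset.mem_filter.1 hz).1 z' (Finset.mem_filter.1 hz').1
      (Finset.mem_filter.1 hz).2 (Finset.mem_filter.1 hz').2
  have h3 : B ⊆ (B.filter (fun z => ¬ H.Adj v0 z)) ∪ ((B.filter (fun z => ¬ H.Adj u z)) ∪
      univ.filter (fun z => H.Adj z v0 ∧ H.Adj z u)) := by
    intro z hz
    by_cases a1 : H.Adj v0 z
    · by_cases a2 : H.Adj u z
      · exact Finset.mem_union_right _ (Finset.mem_union_right _
          (Finset.mem_filter.2 ⟨Finset.mem_univ _, a1.symm, a2.symm⟩))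
      · exact Finset.mem_union_right _ (Finset.mem_union_left _ (Finset.mem_filter.2 ⟨hz, a2⟩))
    · exact Finset.mem_union_left _ (Finset.mem_filter.2 ⟨hz, a1⟩)
  have h4 := (Finset.card_le_card h3).trans (Finset.card_union_le _ _)
  have h5 := Finset.card_union_le (B.filter (fun z => ¬ H.Adj u z))
    (univ.filter (fun z => H.Adj z v0 ∧ H.Adj z u))
  have h6 : (univ.filter (fun z => H.Adj z v0 ∧ H.Adj z u)).card = cd H v0 u := by
    unfold cd
    congr 1
  omega

theorem bad_card {H : SimpleGraph V} {c : ℕ} (hc : 4 ≤ c) (hK : Bic H c) (v0 : V) (X : Finset V)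
    (A B : V → Finset V) (h : ∀ x ∈ X, Bd H c v0 x (A x) (B x)) :
    X.card * (c / 2 - 1) ≤ 2 * ∑ y ∈ univ.erase v0, cd H v0 y := by
  classical
  set Q : Finset V := (univ.erase v0).filter (fun u => c / 2 - 1 ≤ cd H v0 u) with hQ
  have hXQ : X.card ≤ 2 * Q.card := by
    have key : ∀ u ∈ univ.erase v0, ∑ x ∈ X, (if u ∈ A x then (1 : ℚ) / (((A x).card : ℚ) - 1)
        else 0) ≤ (if u ∈ Q then 2 else 0) := by
      intro u hu
      have hne : u ≠ v0 := Finset.ne_of_mem_erase hu
      rw [← Finset.sum_filter]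
      set Y := X.filter (fun x => u ∈ A x) with hY
      by_cases hY0 : Y = ∅
      · rw [hY0, Finset.sum_empty]
        split_ifs <;> norm_num
      have hYpos : 0 < Y.card := Finset.card_pos.2 (Finset.nonempty_iff_ne_empty.2 hY0)
      have hYc : Y.card + cd H v0 u + 1 ≤ c := by
        refine cd_add (by omega) hK v0 u Y ?_
        intro x hx
        obtain ⟨hxX, hxA⟩ := Finset.mem_filter.1 hx
        exact ⟨(h x hxX).adj u hxA hne, (h x hxX).xv⟩
      have hYa : ∀ x ∈ Y, Y.card ≤ (A x).card ∧ 2 ≤ (A x).card := by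
        intro x hx
        obtain ⟨hxX, hxA⟩ := Finset.mem_filter.1 hx
        have h1 := (h x hxX).cd_ge hxA hne
        have h2 := (h x hxX).size
        exact ⟨by omega, (h x hxX).two⟩
      have huQ : u ∈ Q := by
        obtain ⟨x, hx⟩ := Finset.card_pos.1 hYpos
        obtain ⟨hxX, hxA⟩ := Finset.mem_filter.1 hx
        have h1 := (h x hxX).cd_ge hxA hne
        have h2 := (h x hxX).size
        have h3 := (h x hxX).half
        exact Finset.mem_filter.2 ⟨hu, by omega⟩
      rw [if_pos huQ]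
      have hYpos' : (0 : ℚ) < Y.card := by exact_mod_cast hYpos
      calc ∑ x ∈ Y, (1 : ℚ) / (((A x).card : ℚ) - 1) ≤ ∑ _x ∈ Y, (2 : ℚ) / Y.card := by
            refine Finset.sum_le_sum fun x hx => ?_
            obtain ⟨h1, h2⟩ := hYa x hx
            have h1' : (Y.card : ℚ) ≤ (A x).card := by exact_mod_cast h1
            have h2' : (2 : ℚ) ≤ (A x).card := by exact_mod_cast h2
            rw [div_le_div_iff₀ (by linarith) hYpos']
            linarith
        _ = 2 := by
            rw [Finset.sum_const, nsmul_eq_mul]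
            field_simp
    have hexp : ∀ x ∈ X, (1 : ℚ) = ∑ u ∈ univ.erase v0, (if u ∈ A x then
        (1 : ℚ) / (((A x).card : ℚ) - 1) else 0) := by
      intro x hx
      have hs := h x hx
      rw [← Finset.sum_filter, Finset.sum_const, nsmul_eq_mul]
      have heq : (univ.erase v0).filter (fun u => u ∈ A x) = (A x).erase v0 := by
        ext z
        simp only [Finset.mem_filter, Finset.mem_erase, Finset.mem_univ, and_true, ne_eq]
      rw [heq]
      have h1 := Finset.card_erase_add_one hs.vA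
      have h1' : (((A x).erase v0).card : ℚ) = (A x).card - 1 := by
        have : (((A x).erase v0).card : ℚ) + 1 = (A x).card := by exact_mod_cast h1
        linarith
      rw [h1']
      have h2' : (2 : ℚ) ≤ (A x).card := by exact_mod_cast hs.two
      have hne : ((A x).card : ℚ) - 1 ≠ 0 := by linarith
      field_simp
    have h1 : (X.card : ℚ) ≤ 2 * Q.card := by
      calc (X.card : ℚ) = ∑ _x ∈ X, (1 : ℚ) := by simp
        _ = ∑ x ∈ X, ∑ u ∈ univ.erase v0, (if u ∈ A x then
              (1 : ℚ) / (((A x).card : ℚ) - 1) else 0) := Finset.sum_congr rfl hexp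
        _ = ∑ u ∈ univ.erase v0, ∑ x ∈ X, (if u ∈ A x then
              (1 : ℚ) / (((A x).card : ℚ) - 1) else 0) := Finset.sum_comm
        _ ≤ ∑ u ∈ univ.erase v0, (if u ∈ Q then (2 : ℚ) else 0) := Finset.sum_le_sum key
        _ = 2 * Q.card := by
            rw [← Finset.sum_filter, Finset.sum_const, nsmul_eq_mul]
            have : (univ.erase v0).filter (fun u => u ∈ Q) = Q := by
              ext z
              rw [Finset.mem_filter]
              exact ⟨fun h => h.2, fun h => ⟨(Finset.mem_filter.1 h).1, h⟩⟩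
            rw [this]
            ring
    exact_mod_cast h1
  have hQs : Q.card * (c / 2 - 1) ≤ ∑ y ∈ univ.erase v0, cd H v0 y := by
    calc Q.card * (c / 2 - 1) = ∑ _u ∈ Q, (c / 2 - 1) := by rw [Finset.sum_const, smul_eq_mul]
      _ ≤ ∑ u ∈ Q, cd H v0 u := Finset.sum_le_sum fun u hu => (Finset.mem_filter.1 hu).2
      _ ≤ ∑ y ∈ univ.erase v0, cd H v0 y :=
          Finset.sum_le_sum_of_subset (Finset.filter_subset _ _)
  calc X.card * (c / 2 - 1) ≤ (2 * Q.card) * (c / 2 - 1) := Nat.mul_le_mul_right _ hXQ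
    _ = 2 * (Q.card * (c / 2 - 1)) := by ring
    _ ≤ _ := Nat.mul_le_mul_left _ hQs

/-- a vertex of smaller degree exists when `n` and `c - 1` are odd -/
theorem exists_small {H : SimpleGraph V} {c : ℕ} (hc : 1 ≤ c) (hK : Bic H c) (hce : Even c)
    (hn : Odd (Fintype.card V)) : ∃ v0, (cn H {v0}).card + 2 ≤ c := by
  classical
  by_contra hcon
  push Not at hcon
  have hdeg : ∀ v, H.degree v = c - 1 := by
    intro v
    have h1 := deg_le H c hc hK v
    have h2 := hcon v
    have h3 : H.degree v = (cn H {v}).card := by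
      rw [← SimpleGraph.card_neighborFinset_eq_degree]
      congr 1
      ext z
      rw [SimpleGraph.mem_neighborFinset, mem_cn]
      simp
    omega
  have h1 := H.sum_degrees_eq_twice_card_edges
  rw [Finset.sum_congr rfl (fun v _ => hdeg v), Finset.sum_const, Finset.card_univ,
    smul_eq_mul] at h1
  have hodd : Odd (Fintype.card V * (c - 1)) := by
    refine hn.mul ?_
    obtain ⟨e, he⟩ := hce
    exact ⟨e - 1, by omega⟩
  rw [h1] at hodd
  exact (Nat.not_odd_iff_even.2 (even_two_mul _)) hodd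

/-- the lower bound when `n` is odd and `c` is even -/
theorem lower2 {H : SimpleGraph V} {c : ℕ} (hc : 4 ≤ c) (hce : Even c) (hK : Bic H c)
    (hn : Odd (Fintype.card V)) (h8 : 8 * c ≤ Fintype.card V) :
    ∃ F : Finset (Sym2 V), Good H c F ∧ (Fintype.card V + 1) / 2 ≤ F.card := by
  classical
  have hc1 : 1 ≤ c := by omega
  have hc2 : c ≠ 2 := by omega
  obtain ⟨e, he⟩ := hce
  obtain ⟨v0, hv0⟩ := exists_small hc1 hK ⟨e, he⟩ hn
  have hhalf : c / 2 = e := by omega
  -- the bad set for `x`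
  set XB : Finset V := univ.filter (fun x => ∃ A B, Bd H c v0 x A B) with hXB
  have hXBmem : ∀ x, x ∈ XB ↔ ∃ A B, Bd H c v0 x A B := by intro x; rw [hXB]; simp
  have hXBc : XB.card ≤ 8 * (e - 1) := by
    have hch : ∀ x, ∃ A B : Finset V, x ∈ XB → Bd H c v0 x A B := by
      intro x
      by_cases hx : x ∈ XB
      · obtain ⟨A, B, hAB⟩ := (hXBmem x).1 hx
        exact ⟨A, B, fun _ => hAB⟩
      · exact ⟨∅, ∅, fun h => absurd h hx⟩
    choose A B hAB using hch
    have h1 := bad_card hc hK v0 XB A B (fun x hx => hAB x hx)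
    have h2 := sum_cd_le hc1 hK v0
    have h3 : (cn H {v0}).card * (c - 2) ≤ (c - 2) * (c - 2) := Nat.mul_le_mul_right _ (by omega)
    have h4 : XB.card * (e - 1) ≤ 8 * (e - 1) * (e - 1) := by
      have h5 : c - 2 = 2 * (e - 1) := by omega
      rw [hhalf] at h1
      rw [h5] at h2 h3
      calc XB.card * (e - 1) ≤ 2 * ∑ y ∈ univ.erase v0, cd H v0 y := h1
        _ ≤ 2 * (2 * (e - 1) * (2 * (e - 1))) := Nat.mul_le_mul_left _ (h2.trans h3)
        _ = 8 * (e - 1) * (e - 1) := by ring
    exact Nat.le_of_mul_le_mul_right h4 (by omega)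
  have hXXv := XX_card hc1 hc2 hK v0
  -- choose `x`
  obtain ⟨x, hx⟩ : ∃ x, x ∉ insert v0 (cn H {v0} ∪ (XX H c v0 ∪ XB)) := by
    by_contra hcon
    push Not at hcon
    have h1 : (insert v0 (cn H {v0} ∪ (XX H c v0 ∪ XB))) = univ := Finset.eq_univ_iff_forall.2 hcon
    have h2 := Finset.card_insert_le v0 (cn H {v0} ∪ (XX H c v0 ∪ XB))
    have h3 := Finset.card_union_le (cn H {v0}) (XX H c v0 ∪ XB)
    have h4 := Finset.card_union_le (XX H c v0) XB
    rw [h1, Finset.card_univ] at h2
    omega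
  simp only [Finset.mem_insert, Finset.mem_union, not_or] at hx
  obtain ⟨hxv, hxcn, hxXX, hxXB⟩ := hx
  -- the bad set for `y`
  set YB : Finset V := (univ.erase x).filter (fun y => e ≤ cd H x y) with hYB
  have hYBc : YB.card ≤ 4 * e := by
    have h1 : YB.card * e ≤ ∑ y ∈ univ.erase x, cd H x y := by
      calc YB.card * e = ∑ _u ∈ YB, e := by rw [Finset.sum_const, smul_eq_mul]
        _ ≤ ∑ u ∈ YB, cd H x u := Finset.sum_le_sum fun u hu => (Finset.mem_filter.1 hu).2
        _ ≤ ∑ y ∈ univ.erase x, cd H x y :=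
            Finset.sum_le_sum_of_subset (Finset.filter_subset _ _)
    have h2 := sum_cd_le hc1 hK x
    have h3 : (cn H {x}).card * (c - 2) ≤ (2 * e) * (2 * e) := by
      have := deg_le H c hc1 hK x
      exact Nat.mul_le_mul (by omega) (by omega)
    have h4 : YB.card * e ≤ (4 * e) * e := by
      calc YB.card * e ≤ (2 * e) * (2 * e) := h1.trans (h2.trans h3)
        _ = (4 * e) * e := by ring
    exact Nat.le_of_mul_le_mul_right h4 (by omega)
  obtain ⟨y, hy⟩ : ∃ y, y ∉ insert v0 (insert x (cn H {v0} ∪ (XX H c v0 ∪ YB))) := by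
    by_contra hcon
    push Not at hcon
    have h1 : (insert v0 (insert x (cn H {v0} ∪ (XX H c v0 ∪ YB)))) = univ :=
      Finset.eq_univ_iff_forall.2 hcon
    have h2 := Finset.card_insert_le v0 (insert x (cn H {v0} ∪ (XX H c v0 ∪ YB)))
    have h2' := Finset.card_insert_le x (cn H {v0} ∪ (XX H c v0 ∪ YB))
    have h3 := Finset.card_union_le (cn H {v0}) (XX H c v0 ∪ YB)
    have h4 := Finset.card_union_le (XX H c v0) YB
    rw [h1, Finset.card_univ] at h2
    omega
  simp only [Finset.mem_insert, Finset.mem_union, not_or] at hy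
  obtain ⟨hyv, hyx, hycn, hyXX, hyYB⟩ := hy
  have hcdxy : cd H x y < e := by
    by_contra hcon
    exact hyYB (Finset.mem_filter.2 ⟨Finset.mem_erase.2 ⟨hyx, Finset.mem_univ _⟩, by omega⟩)
  have hnvx : ¬ H.Adj v0 x := by
    intro h
    exact hxcn ((mem_cn H {v0} x).2 (by simpa using h))
  have hnvy : ¬ H.Adj v0 y := by
    intro h
    exact hycn ((mem_cn H {v0} y).2 (by simpa using h))
  -- the matching on the rest
  set W : Finset V := univ \ {v0, x, y} with hW
  have hWmem : ∀ z, z ∈ W ↔ z ≠ v0 ∧ z ≠ x ∧ z ≠ y := by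
    intro z; rw [hW]; simp
  have hWcard : W.card = Fintype.card V - 3 := by
    rw [hW, Finset.card_sdiff_of_subset (Finset.subset_univ _), Finset.card_univ]
    congr 1
    rw [Finset.card_insert_of_notMem, Finset.card_insert_of_notMem, Finset.card_singleton]
    · simp [Ne.symm hyx]
    · simp [Ne.symm hxv, Ne.symm hyv]
  obtain ⟨M, hM, hMR, hMcard⟩ := exists_matching (V := V) W
    (fun a b => ¬ H.Adj a b ∧ b ∉ XX H c a) (Fintype.card V - 4 * c) (al H c W) (by
      intro v _
      constructor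
      · have := card_al hc1 hc2 hK W v
        rw [hWcard] at this
        omega
      · intro u hu
        rw [mem_al] at hu
        exact ⟨hu.1.1, hu.2.1, hu.1.2, hu.2.2⟩)
  rw [hWcard] at hMcard
  have hMW : ∀ p ∈ M, (p.1 ≠ v0 ∧ p.1 ≠ x ∧ p.1 ≠ y) ∧ (p.2 ≠ v0 ∧ p.2 ≠ x ∧ p.2 ≠ y) :=
    fun p hp => ⟨(hWmem _).1 (hMR p hp).1, (hWmem _).1 (hMR p hp).2.1⟩
  set F : Finset (Sym2 V) := insert s(v0, x) (insert s(v0, y) (M.image (fun p => s(p.1, p.2))))
    with hF
  have hmemF : ∀ a b, s(a, b) ∈ F ↔ s(a, b) = s(v0, x) ∨ s(a, b) = s(v0, y) ∨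
      ((a, b) ∈ M ∨ (b, a) ∈ M) := by
    intro a b
    rw [hF, Finset.mem_insert, Finset.mem_insert, mem_image_sym]
  -- partners
  have hEsymm : ∀ a b, s(a, b) ∈ F → s(b, a) ∈ F := by
    intro a b h
    rwa [Sym2.eq_swap]
  have hEv : ∀ b, s(v0, b) ∈ F → b = x ∨ b = y := by
    intro b hb
    rcases (hmemF v0 b).1 hb with h | h | h | h
    · rcases Sym2.eq_iff.1 h with ⟨-, h'⟩ | ⟨h', -⟩
      · exact Or.inl h'
      · exact absurd h'.symm hxv
    · rcases Sym2.eq_iff.1 h with ⟨-, h'⟩ | ⟨h', -⟩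
      · exact Or.inr h'
      · exact absurd h'.symm hyv
    · exact absurd rfl (hMW _ h).1.1
    · exact absurd rfl (hMW _ h).2.1
  have hEx : ∀ b, s(x, b) ∈ F → b = v0 := by
    intro b hb
    rcases (hmemF x b).1 hb with h | h | h | h
    · rcases Sym2.eq_iff.1 h with ⟨h', -⟩ | ⟨-, h'⟩
      · exact absurd h' hxv
      · exact h'
    · rcases Sym2.eq_iff.1 h with ⟨h', -⟩ | ⟨h', -⟩
      · exact absurd h' hxv
      · exact absurd h'.symm hyx
    · exact absurd rfl (hMW _ h).1.2.1
    · exact absurd rfl (hMW _ h).2.2.1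
  have hEy : ∀ b, s(y, b) ∈ F → b = v0 := by
    intro b hb
    rcases (hmemF y b).1 hb with h | h | h | h
    · rcases Sym2.eq_iff.1 h with ⟨h', -⟩ | ⟨h', -⟩
      · exact absurd h' hyv
      · exact absurd h' hyx
    · rcases Sym2.eq_iff.1 h with ⟨h', -⟩ | ⟨-, h'⟩
      · exact absurd h' hyv
      · exact h'
    · exact absurd rfl (hMW _ h).1.2.2
    · exact absurd rfl (hMW _ h).2.2.2
  have hEM : ∀ a b, s(a, b) ∈ F → a ≠ v0 → b ≠ v0 → (a, b) ∈ M ∨ (b, a) ∈ M := by
    intro a b hab ha hb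
    rcases (hmemF a b).1 hab with h | h | h
    · rcases Sym2.eq_iff.1 h with ⟨h', -⟩ | ⟨-, h'⟩
      · exact absurd h' ha
      · exact absurd h' hb
    · rcases Sym2.eq_iff.1 h with ⟨h', -⟩ | ⟨-, h'⟩
      · exact absurd h' ha
      · exact absurd h' hb
    · exact h
  have hEu : ∀ a b b', a ≠ v0 → s(a, b) ∈ F → s(a, b') ∈ F → b = b' := by
    intro a b b' ha hb hb'
    by_cases h1 : b = v0
    · subst h1
      rcases hEv a (hEsymm _ _ hb) with rfl | rfl
      · exact (hEx b' hb').symm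
      · exact (hEy b' hb').symm
    · by_cases h2 : b' = v0
      · subst h2
        rcases hEv a (hEsymm _ _ hb') with rfl | rfl
        · exact hEx b hb
        · exact hEy b hb
      · exact isM_sym hM (hEM a b hb ha h1) (hEM a b' hb' ha h2)
  have hEX : ∀ a b, s(a, b) ∈ F → a ≠ b ∧ ¬ H.Adj a b ∧ a ∉ XX H c b := by
    intro a b hab
    rcases (hmemF a b).1 hab with h | h | h | h
    · rcases Sym2.eq_iff.1 h with ⟨rfl, rfl⟩ | ⟨rfl, rfl⟩
      · exact ⟨Ne.symm hxv, hnvx, fun h => hxXX (XX_symm h)⟩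
      · exact ⟨hxv, fun h => hnvx h.symm, hxXX⟩
    · rcases Sym2.eq_iff.1 h with ⟨rfl, rfl⟩ | ⟨rfl, rfl⟩
      · exact ⟨Ne.symm hyv, hnvy, fun h => hyXX (XX_symm h)⟩
      · exact ⟨hyv, fun h => hnvy h.symm, hyXX⟩
    · exact ⟨hM.1 _ h, (hMR _ h).2.2.1, fun hX => (hMR _ h).2.2.2 (XX_symm hX)⟩
    · exact ⟨(hM.1 _ h).symm, fun hadj => (hMR _ h).2.2.1 hadj.symm, (hMR _ h).2.2.2⟩
  refine ⟨F, ⟨?_, ?_⟩, ?_⟩
  · intro e' he'
    induction e' using Sym2.ind with
    | _ a b =>
      have := hEX a b he'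
      exact ⟨fun h => this.1 (Sym2.mk_isDiag_iff.1 h), by
        rw [SimpleGraph.mem_edgeSet]; exact this.2.1⟩
  · -- the core case
    have core : ∀ A B : Finset V, Disjoint A B → (∀ a ∈ A, ∀ b ∈ B, H.Adj a b ∨ s(a, b) ∈ F) →
        v0 ∈ A → x ∈ B → y ∈ B → A.card + B.card ≤ c + 1 := by
      intro A B hdisj hAB hvA hxB hyB
      by_contra hlt
      push Not at hlt
      have hmiss : ∀ a ∈ A, ∀ b ∈ B, ¬ H.Adj a b → s(a, b) ∈ F := by
        intro a ha b hb hab
        rcases hAB a ha b hb with h | h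
        · exact absurd h hab
        · exact h
      have hax : ∀ a ∈ A, a ≠ v0 → H.Adj x a := by
        intro a ha hav
        by_contra hcon
        exact hav (hEx a (hEsymm _ _ (hmiss a ha x hxB (fun h => hcon h.symm))))
      have hay : ∀ a ∈ A, a ≠ v0 → H.Adj y a := by
        intro a ha hav
        by_contra hcon
        exact hav (hEy a (hEsymm _ _ (hmiss a ha y hyB (fun h => hcon h.symm))))
      have hmiss2 : ∀ S ⊆ B, (∀ z ∈ S, ¬ H.Adj v0 z) → S.card ≤ 2 := by
        intro S hS hSn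
        have : S ⊆ {x, y} := by
          intro z hz
          rcases hEv z (hmiss v0 hvA z (hS hz) (hSn z hz)) with rfl | rfl <;> simp
        exact (Finset.card_le_card this).trans Finset.card_le_two
      have htwo : 2 ≤ A.card := by
        by_contra hcon
        have h1 := hmiss2 (B.filter (fun z => ¬ H.Adj v0 z)) (Finset.filter_subset _ _)
          (fun z hz => (Finset.mem_filter.1 hz).2)
        have h2 := Finset.card_filter_add_card_filter_not (s := B) (fun z => H.Adj v0 z)
        have h3 : (B.filter (fun z => H.Adj v0 z)).card ≤ (cn H {v0}).card := by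
          refine Finset.card_le_card ?_
          intro z hz
          rw [mem_cn]
          intro j hj
          rw [Finset.mem_singleton.1 hj]
          exact (Finset.mem_filter.1 hz).2
        omega
      have hhalfA : 2 * A.card ≤ c := by
        have h1 : (A.erase v0).card ≤ cd H x y := by
          unfold cd
          refine Finset.card_le_card ?_
          intro z hz
          obtain ⟨hzv, hzA⟩ := Finset.mem_erase.1 hz
          exact Finset.mem_filter.2 ⟨Finset.mem_univ _, (hax z hzA hzv).symm, (hay z hzA hzv).symm⟩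
        have h2 := Finset.card_erase_add_one hvA
        omega
      exact hxXB ((hXBmem x).2 ⟨A, B, hvA, fun h => hnvx h.symm, htwo, hhalfA, by omega, hax,
        fun a ha hav z hz z' hz' h1 h2 => hEu a z z' hav (hmiss a ha z hz h1) (hmiss a ha z' hz' h2),
        hmiss2⟩)
    intro A B hA hB hdisj hAB
    by_cases h1 : v0 ∈ A ∧ x ∈ B ∧ y ∈ B
    · exact core A B hdisj hAB h1.1 h1.2.1 h1.2.2
    by_cases h2 : v0 ∈ B ∧ x ∈ A ∧ y ∈ A
    · have := core B A hdisj.symm (fun b hb a ha => by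
        rcases hAB a ha b hb with h | h
        · exact Or.inl h.symm
        · exact Or.inr (hEsymm _ _ h)) h2.1 h2.2.1 h2.2.2
      omega
    have hE : ∀ p ∈ nb H A B, s(p.1, p.2) ∈ F := by
      intro p hp
      rw [mem_nb] at hp
      rcases hAB p.1 hp.1.1 p.2 hp.1.2 with h | h
      · exact absurd h hp.2
      · exact h
    refine safe hc1 hK A B hA hB hdisj ?_ (fun p hp => (hEX _ _ (hE p hp)).2.2)
    intro p hp q hq
    have e1 := hE p hp
    have e2 := hE q hq
    rw [mem_nb] at hp hq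
    constructor
    · intro heq
      rw [← heq] at e2
      by_cases hpv : p.1 = v0
      · rw [hpv] at e1 e2
        by_contra hne
        refine h1 ⟨hpv ▸ hp.1.1, ?_⟩
        rcases hEv _ e1 with h3 | h3 <;> rcases hEv _ e2 with h4 | h4
        · exact absurd (h3.trans h4.symm) hne
        · exact ⟨h3 ▸ hp.1.2, h4 ▸ hq.1.2⟩
        · exact ⟨h4 ▸ hq.1.2, h3 ▸ hp.1.2⟩
        · exact absurd (h3.trans h4.symm) hne
      · exact hEu _ _ _ hpv e1 e2
    · intro heq
      rw [← heq] at e2
      have e1' := hEsymm _ _ e1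
      have e2' := hEsymm _ _ e2
      by_cases hpv : p.2 = v0
      · rw [hpv] at e1' e2'
        by_contra hne
        refine h2 ⟨hpv ▸ hp.1.2, ?_⟩
        rcases hEv _ e1' with h3 | h3 <;> rcases hEv _ e2' with h4 | h4
        · exact absurd (h3.trans h4.symm) hne
        · exact ⟨h3 ▸ hp.1.1, h4 ▸ hq.1.1⟩
        · exact ⟨h4 ▸ hq.1.1, h3 ▸ hp.1.1⟩
        · exact absurd (h3.trans h4.symm) hne
      · exact hEu _ _ _ hpv e1' e2'
  · have hx1 : s(v0, y) ∉ M.image (fun p => s(p.1, p.2)) := by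
      rw [mem_image_sym]
      rintro (h | h)
      · exact (hMW _ h).1.1 rfl
      · exact (hMW _ h).2.1 rfl
    have hx2 : s(v0, x) ∉ insert s(v0, y) (M.image (fun p => s(p.1, p.2))) := by
      rw [Finset.mem_insert, mem_image_sym]
      rintro (h | h | h)
      · rcases Sym2.eq_iff.1 h with ⟨-, h'⟩ | ⟨h', -⟩
        · exact hyx h'.symm
        · exact hyv h'.symm
      · exact (hMW _ h).1.1 rfl
      · exact (hMW _ h).2.1 rfl
    rw [hF, Finset.card_insert_of_notMem hx2, Finset.card_insert_of_notMem hx1, isM_card_image hM]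
    obtain ⟨j, hj⟩ := hn
    omega

end Pool.Agent.RE26
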