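import Pool.Agent.Lib_helper26.RE.Upper
import Pool.Agent.Lib_helper26.RE.Lower2
import Pool.Agent.Lib_helper26.RE.C2

/-!
# MP_df1a54_co: the exact value in the dense range
-/

open Finset

set_option linter.unusedSectionVars false

namespace Pool.Agent.RE26

/-! ### transport -/

theorem transport {V : Type} [Fintype V] [DecidableEq V] (H : SimpleGraph V) (c n : ℕ)
    (hn : Fintype.card V = n) (hB : Bic H c) : ∃ H' : SimpleGraph (Fin n), Bic H' c ∧
      ∑ v, (cn H' {v}).card = ∑ v, (cn H {v}).card := by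
  classical
  obtain ⟨e⟩ : Nonempty (V ≃ Fin n) := ⟨Fintype.equivFinOfCardEq hn⟩
  refine ⟨H.comap e.symm, ?_, ?_⟩
  · intro X Y hX hY h
    have := hB (X.map e.symm.toEmbedding) (Y.map e.symm.toEmbedding) (hX.map) (hY.map) (by
      intro x hx y hy
      obtain ⟨x', hx', rfl⟩ := Finset.mem_map.1 hx
      obtain ⟨y', hy', rfl⟩ := Finset.mem_map.1 hy
      exact h x' hx' y' hy')
    rwa [Finset.card_map, Finset.card_map] at this
  · rw [← Equiv.sum_comp e.symm (fun v => (cn H {v}).card)]
    refine Finset.sum_congr rfl fun v _ => ?_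
    have : (cn (H.comap e.symm) {v}).map e.symm.toEmbedding = cn H {e.symm v} := by
      ext z
      rw [Finset.mem_map, mem_cn]
      constructor
      · rintro ⟨w, hw, rfl⟩
        rw [mem_cn] at hw
        intro j hj
        rw [Finset.mem_singleton.1 hj]
        exact hw v (Finset.mem_singleton_self v)
      · intro h
        refine ⟨e z, ?_, by simp⟩
        rw [mem_cn]
        intro j hj
        rw [Finset.mem_singleton.1 hj]
        have := h (e.symm v) (Finset.mem_singleton_self _)
        change H.Adj (e.symm v) (e.symm (e z))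
        rwa [Equiv.symm_apply_apply]
    rw [← this, Finset.card_map]

theorem exists_regular (n c : ℕ) (hc : 1 ≤ c) (hcn : 2 * c ≤ n) :
    ∃ H : SimpleGraph (Fin n), Bic H c ∧
      n * (c - 1) ≤ ∑ v, (cn H {v}).card + (if Odd n ∧ Even c then 1 else 0) := by
  classical
  rcases Nat.even_or_odd n with hn | hn
  · obtain ⟨s, hs⟩ := hn
    have : NeZero s := ⟨by omega⟩
    have hcard : Fintype.card (ZMod s × Bool) = n := by
      rw [Fintype.card_prod, ZMod.card, Fintype.card_bool]; omega
    obtain ⟨H, hH, hsum⟩ := transport (HE s c) c n hcard (HE_bic c hc (by omega))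
    refine ⟨H, hH, ?_⟩
    rw [hsum]
    have h1 : ∑ _v : ZMod s × Bool, (c - 1) ≤ ∑ v : ZMod s × Bool, (cn (HE s c) {v}).card :=
      Finset.sum_le_sum fun v _ => HE_deg c (by omega) v
    rw [Finset.sum_const, Finset.card_univ, hcard, smul_eq_mul] at h1
    omega
  · obtain ⟨s, hs⟩ := hn
    have : NeZero s := ⟨by omega⟩
    have hcard : Fintype.card (Option (ZMod s × Bool)) = n := by
      rw [Fintype.card_option, Fintype.card_prod, ZMod.card, Fintype.card_bool]; omega
    obtain ⟨T, -, hT⟩ := Finset.exists_subset_card_eq (s := (Finset.univ : Finset (ZMod s)))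
      (n := (c - 1) / 2) (by rw [Finset.card_univ, ZMod.card]; omega)
    obtain ⟨H, hH, hsum⟩ := transport (HO s c T) c n hcard (HO_bic c hc (by omega) T (by omega))
    refine ⟨H, hH, ?_⟩
    rw [hsum, Fintype.sum_option]
    have h1 : ∑ _v : ZMod s × Bool, (c - 1)
        ≤ ∑ v : ZMod s × Bool, (cn (HO s c T) {some v}).card :=
      Finset.sum_le_sum fun v _ => HO_deg_some c (by omega) T v
    rw [Finset.sum_const, Finset.card_univ, Fintype.card_prod, ZMod.card, Fintype.card_bool,
      smul_eq_mul] at h1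
    have h2 := HO_deg_none c T
    rw [hT] at h2
    have h3 : n * (c - 1) = s * 2 * (c - 1) + (c - 1) := by rw [hs]; ring
    rw [h3]
    by_cases hce : Even c
    · rw [if_pos ⟨⟨s, hs⟩, hce⟩]
      obtain ⟨e, he⟩ := hce
      omega
    · rw [if_neg (fun h => hce h.2)]
      rw [Nat.not_even_iff_odd] at hce
      obtain ⟨e, he⟩ := hce
      omega

/-! ### degree sums -/

theorem sum_cn {V : Type} [Fintype V] [DecidableEq V] (H : SimpleGraph V) [DecidableRel H.Adj] :
    ∑ v, (cn H {v}).card = 2 * H.edgeFinset.card := by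
  classical
  rw [← H.sum_degrees_eq_twice_card_edges]
  refine Finset.sum_congr rfl fun v _ => ?_
  rw [← SimpleGraph.card_neighborFinset_eq_degree]
  congr 1
  ext z
  rw [SimpleGraph.mem_neighborFinset, mem_cn]
  simp

theorem upper_bound {V : Type} [Fintype V] [DecidableEq V] (H : SimpleGraph V) (k c ε : ℕ)
    (hk : 1 ≤ k) (hkn : Fintype.card V = k + c) (hc : 1 ≤ c)
    (hsum : Fintype.card V * (c - 1) ≤ ∑ v, (cn H {v}).card + ε) (F : Finset (Sym2 V))
    (hF : (F : Set (Sym2 V)) ⊆ Hᶜ.edgeSet) (hconn : KConn (Hᶜ.deleteEdges (F : Set (Sym2 V))) (k - 1)) :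
    2 * F.card ≤ Fintype.card V + ε := by
  classical
  set H' := (Hᶜ.deleteEdges (F : Set (Sym2 V)))ᶜ with hH'
  have hB := bic_of_kconn _ _ hconn
  have hc' : Fintype.card V - (k - 1) = c + 1 := by omega
  rw [hc', ← hH'] at hB
  have hdeg : ∑ v, (cn H' {v}).card ≤ Fintype.card V * c := by
    calc ∑ v, (cn H' {v}).card ≤ ∑ _v : V, c := Finset.sum_le_sum fun v _ => by
          have := deg_le H' (c + 1) (by omega) hB v
          omega
      _ = Fintype.card V * c := by rw [Finset.sum_const, Finset.card_univ, smul_eq_mul]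
  rw [sum_cn] at hdeg hsum
  have hsub : H.edgeFinset ∪ F ⊆ H'.edgeFinset := by
    intro e he
    rw [SimpleGraph.mem_edgeFinset]
    induction e using Sym2.ind with
    | _ a b =>
      rw [SimpleGraph.mem_edgeSet, hH', SimpleGraph.compl_adj, SimpleGraph.deleteEdges_adj]
      rcases Finset.mem_union.1 he with h | h
      · rw [SimpleGraph.mem_edgeFinset, SimpleGraph.mem_edgeSet] at h
        refine ⟨h.ne, ?_⟩
        rintro ⟨h1, -⟩
        rw [SimpleGraph.compl_adj] at h1
        exact h1.2 h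
      · have h1 := hF (Finset.mem_coe.2 h)
        rw [SimpleGraph.mem_edgeSet] at h1
        exact ⟨h1.ne, fun h2 => h2.2 (Finset.mem_coe.2 h)⟩
  have hdisj : Disjoint H.edgeFinset F := by
    rw [Finset.disjoint_left]
    intro e he heF
    induction e using Sym2.ind with
    | _ a b =>
      rw [SimpleGraph.mem_edgeFinset, SimpleGraph.mem_edgeSet] at he
      have h1 := hF (Finset.mem_coe.2 heF)
      rw [SimpleGraph.mem_edgeSet, SimpleGraph.compl_adj] at h1
      exact h1.2 he
  have h1 := Finset.card_le_card hsub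
  rw [Finset.card_union_of_disjoint hdisj] at h1
  have h2 : Fintype.card V * c = Fintype.card V * (c - 1) + Fintype.card V := by
    obtain ⟨c', rfl⟩ : ∃ c', c = c' + 1 := ⟨c - 1, by omega⟩
    rw [Nat.add_sub_cancel]
    ring
  omega

/-- a good set gives a `(k - 1)`-connected graph -/
theorem good_conn {V : Type} [Fintype V] [DecidableEq V] (G : SimpleGraph V) (k c : ℕ)
    (hk : 1 ≤ k) (hkn : Fintype.card V = k + c) (F : Finset (Sym2 V)) (hF : Good Gᶜ c F) :
    (F : Set (Sym2 V)) ⊆ G.edgeSet ∧ KConn (G.deleteEdges (F : Set (Sym2 V))) (k - 1) := by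
  classical
  constructor
  · intro e he
    have h := hF.1 e he
    induction e using Sym2.ind with
    | _ a b =>
      have h1 : a ≠ b := fun hab => h.1 (Sym2.mk_isDiag_iff.2 hab)
      have h2 := h.2
      rw [SimpleGraph.mem_edgeSet, SimpleGraph.compl_adj] at h2
      rw [SimpleGraph.mem_edgeSet]
      by_contra hcon
      exact h2 ⟨h1, hcon⟩
  · refine kconn_of_bic _ _ (by omega) ?_
    have hc' : Fintype.card V - (k - 1) = c + 1 := by omega
    rw [hc']
    intro X Y hX hY h
    refine hF.2 X Y hX hY ?_ ?_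
    · rw [Finset.disjoint_left]
      intro a ha hb
      exact (h a ha a hb).ne rfl
    · intro a ha b hb
      have h1 := h a ha b hb
      rw [SimpleGraph.compl_adj, SimpleGraph.deleteEdges_adj] at h1
      rw [SimpleGraph.compl_adj]
      by_cases h2 : G.Adj a b
      · right
        by_contra hcon
        exact h1.2 ⟨h2, fun h3 => hcon (Finset.mem_coe.1 h3)⟩
      · exact Or.inl ⟨h1.1, h2⟩

/-- arithmetic of the value -/
theorem val_eq (n k c : ℕ) (hk : 1 ≤ k) (hn : n = k + c) :
    (k * n + 1) / 2 - ((k - 1) * n + 1) / 2 = (n + (if Odd n ∧ Even c then 1 else 0)) / 2 := by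
  obtain ⟨j, rfl⟩ : ∃ j, k = j + 1 := ⟨k - 1, by omega⟩
  rw [Nat.add_sub_cancel]
  have h1 : (j + 1) * n = j * n + n := by ring
  rw [h1]
  rcases Nat.even_or_odd n with he | ho
  · rw [if_neg (fun h => (Nat.not_odd_iff_even.2 he) h.1)]
    obtain ⟨m, hm⟩ := he
    have h2 : j * n = 2 * (j * m) := by rw [hm]; ring
    rw [h2]
    omega
  · obtain ⟨m, hm⟩ := ho
    rcases Nat.even_or_odd j with hj | hj
    · obtain ⟨i, hi⟩ := hj
      have hce : Even c := ⟨m - i, by omega⟩
      rw [if_pos ⟨⟨m, hm⟩, hce⟩]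
      have h2 : j * n = 2 * (i * n) := by rw [hi]; ring
      rw [h2]
      omega
    · obtain ⟨i, hi⟩ := hj
      have hce : ¬ Even c := by
        rintro ⟨q, hq⟩
        omega
      rw [if_neg (fun h => hce h.2)]
      have h2 : j * n = 2 * (i * n) + n := by rw [hi]; ring
      rw [h2]
      omega

theorem lower_all {V : Type} [Fintype V] [DecidableEq V] (H : SimpleGraph V) (c : ℕ) (hc : 1 ≤ c)
    (hK : Bic H c) (h8 : 8 * c ≤ Fintype.card V) : ∃ F : Finset (Sym2 V), Good H c F ∧
      (Fintype.card V + (if Odd (Fintype.card V) ∧ Even c then 1 else 0)) / 2 ≤ F.card := by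
  by_cases h2 : c = 2
  · subst h2
    obtain ⟨F, hF, hcard⟩ := lowerC2 hK (by omega)
    refine ⟨F, hF, le_trans ?_ hcard⟩
    split_ifs <;> omega
  · by_cases hoe : Odd (Fintype.card V) ∧ Even c
    · obtain ⟨e, he⟩ := hoe.2
      obtain ⟨F, hF, hcard⟩ := lower2 (by omega) ⟨e, he⟩ hK hoe.1 h8
      refine ⟨F, hF, ?_⟩
      rw [if_pos hoe]
      exact hcard
    · obtain ⟨F, hF, hcard⟩ := lower1 hc h2 hK
      refine ⟨F, hF, ?_⟩
      rw [if_neg hoe]
      refine le_trans ?_ hcard
      rw [add_zero]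
      exact le_min (by omega) le_rfl

theorem bddAbove_rem {n : ℕ} (G : SimpleGraph (Fin n)) (k : ℕ) :
    BddAbove {m | ∃ F : Finset (Sym2 (Fin n)), (F : Set (Sym2 (Fin n))) ⊆ G.edgeSet ∧ F.card = m ∧
      KConn (G.deleteEdges (F : Set (Sym2 (Fin n)))) (k - 1)} := by
  refine ⟨Fintype.card (Sym2 (Fin n)), ?_⟩
  rintro m ⟨F, -, rfl, -⟩
  exact Finset.card_le_univ F

/-- The exact value of `f(n, k)` when `8 (n - k) ≤ n`. -/
theorem fnk_eq (n k : ℕ) (hkn : k < n) (h8 : 8 * (n - k) ≤ n) :
    fnk n k = (k * n + 1) / 2 - ((k - 1) * n + 1) / 2 := by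
  classical
  set c := n - k with hc
  have hc1 : 1 ≤ c := by omega
  have hk1 : 1 ≤ k := by omega
  have hn : n = k + c := by omega
  have hcard : Fintype.card (Fin n) = k + c := by rw [Fintype.card_fin]; exact hn
  rw [val_eq n k c hk1 hn]
  set v := (n + (if Odd n ∧ Even c then 1 else 0)) / 2 with hv
  -- lower bound for every graph
  have hlow : ∀ G : SimpleGraph (Fin n), KConn G k → v ≤ rem G k := by
    intro G hG
    have hB := bic_of_kconn G k hG
    rw [Fintype.card_fin, ← hc] at hB
    obtain ⟨F, hF, hFc⟩ := lower_all Gᶜ c hc1 hB (by rw [Fintype.card_fin]; exact h8)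
    rw [Fintype.card_fin, ← hv] at hFc
    obtain ⟨h1, h2⟩ := good_conn G k c hk1 hcard F hF
    exact hFc.trans (le_csSup (bddAbove_rem G k) ⟨F, h1, rfl, h2⟩)
  -- the extremal graph
  obtain ⟨H, hH, hsum⟩ := exists_regular n c hc1 (by omega)
  have hG : KConn Hᶜ k := by
    refine kconn_of_bic _ _ (by rw [Fintype.card_fin]; exact hkn) ?_
    rw [Fintype.card_fin, ← hc, compl_compl]
    exact hH
  have hup : rem Hᶜ k ≤ v := by
    refine csSup_le' ?_
    rintro m ⟨F, hF, rfl, hconn⟩
    have := upper_bound H k c (if Odd n ∧ Even c then 1 else 0) hk1 hcard hc1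
      (by rw [Fintype.card_fin]; exact hsum) F hF hconn
    rw [Fintype.card_fin] at this
    omega
  refine le_antisymm ?_ ?_
  · have hmem : rem Hᶜ k ∈ {m | ∃ G : SimpleGraph (Fin n), KConn G k ∧ rem G k = m} :=
      ⟨Hᶜ, hG, rfl⟩
    exact (Nat.sInf_le hmem).trans hup
  · have hne : {m | ∃ G : SimpleGraph (Fin n), KConn G k ∧ rem G k = m}.Nonempty :=
      ⟨rem Hᶜ k, Hᶜ, hG, rfl⟩
    refine le_csInf hne ?_
    rintro m ⟨G, hGk, rfl⟩
    exact hlow G hGk

end Pool.Agent.RE26
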