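import Pool.Agent.Lib_helper26.RE.MinD

/-!
# Sets with small difference sets in `ZMod s`
-/

open Finset

set_option linter.unusedSectionVars false

namespace Pool.Agent.RE26

variable {s : ℕ} [NeZero s]

/-- `X + [0, t]` -/
def grow (X : Finset (ZMod s)) (t : ℕ) : Finset (ZMod s) :=
  X.biUnion (fun x => (Finset.range (t + 1)).image (fun j : ℕ => x + (j : ZMod s)))

theorem mem_grow (X : Finset (ZMod s)) (t : ℕ) (z : ZMod s) :
    z ∈ grow X t ↔ ∃ x ∈ X, ∃ j : ℕ, j ≤ t ∧ z = x + (j : ZMod s) := by
  unfold grow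
  rw [Finset.mem_biUnion]
  constructor
  · rintro ⟨x, hx, h⟩
    obtain ⟨j, hj, rfl⟩ := Finset.mem_image.1 h
    exact ⟨x, hx, j, by rw [Finset.mem_range] at hj; omega, rfl⟩
  · rintro ⟨x, hx, j, hj, rfl⟩
    exact ⟨x, hx, Finset.mem_image.2 ⟨j, Finset.mem_range.2 (by omega), rfl⟩⟩

/-- a nonempty subset of `ZMod s` closed under `+1` is everything -/
theorem closed_univ (W : Finset (ZMod s)) (hW : W.Nonempty) (hcl : ∀ x ∈ W, x + 1 ∈ W) :
    W = Finset.univ := by
  obtain ⟨x, hx⟩ := hW
  have h : ∀ j : ℕ, x + (j : ZMod s) ∈ W := by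
    intro j
    induction j with
    | zero => simpa using hx
    | succ j ih =>
      have := hcl _ ih
      rw [Nat.cast_succ, ← add_assoc]
      exact this
  rw [Finset.eq_univ_iff_forall]
  intro z
  have h1 := h (z - x).val
  rwa [ZMod.natCast_zmod_val, add_sub_cancel] at h1

theorem card_grow (X : Finset (ZMod s)) (hX : X.Nonempty) (t : ℕ) :
    min s (X.card + t) ≤ (grow X t).card := by
  induction t with
  | zero =>
    refine (min_le_right _ _).trans (Finset.card_le_card ?_)
    intro x hx
    exact (mem_grow X 0 x).2 ⟨x, hx, 0, le_rfl, by simp⟩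
  | succ t ih =>
    have hsub : grow X t ⊆ grow X (t + 1) := by
      intro z hz
      obtain ⟨x, hx, j, hj, rfl⟩ := (mem_grow X t z).1 hz
      exact (mem_grow X (t + 1) _).2 ⟨x, hx, j, by omega, rfl⟩
    by_cases hfull : grow X t = Finset.univ
    · have h1 : (Finset.univ : Finset (ZMod s)) ⊆ grow X (t + 1) := by rw [← hfull]; exact hsub
      have h2 := Finset.card_le_card h1
      rw [Finset.card_univ, ZMod.card] at h2
      exact (min_le_left _ _).trans h2
    · have hne : (grow X t).Nonempty := by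
        obtain ⟨x, hx⟩ := hX
        exact ⟨x, (mem_grow X t x).2 ⟨x, hx, 0, by omega, by simp⟩⟩
      have : ∃ z ∈ grow X t, z + 1 ∉ grow X t := by
        by_contra hcon
        push Not at hcon
        exact hfull (closed_univ _ hne hcon)
      obtain ⟨z, hz, hz1⟩ := this
      have hz1' : z + 1 ∈ grow X (t + 1) := by
        obtain ⟨x, hx, j, hj, rfl⟩ := (mem_grow X t z).1 hz
        refine (mem_grow X (t + 1) _).2 ⟨x, hx, j + 1, by omega, ?_⟩
        rw [Nat.cast_succ, add_assoc]
      have h1 : insert (z + 1) (grow X t) ⊆ grow X (t + 1) :=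
        Finset.insert_subset_iff.2 ⟨hz1', hsub⟩
      have h2 := Finset.card_le_card h1
      rw [Finset.card_insert_of_notMem hz1] at h2
      omega

/-- if all differences `l - i` lie in an arc of width `w < s`, then `|X| + |L| ≤ w + 1` -/
theorem arc (X L : Finset (ZMod s)) (hX : X.Nonempty) (hL : L.Nonempty) (a w : ℕ) (hw : w < s)
    (h : ∀ i ∈ X, ∀ l ∈ L, ∃ j : ℕ, j < w ∧ l = i + (a : ZMod s) + (j : ZMod s)) :
    X.card + L.card ≤ w + 1 := by
  set X' := X.image (fun x => x + ((a + w : ℕ) : ZMod s)) with hX'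
  have hcX : X'.card = X.card := Finset.card_image_of_injective _ (add_left_injective _)
  have hX'ne : X'.Nonempty := hX.image _
  have hg := card_grow X' hX'ne (s - w - 1)
  have hdisj : Disjoint L (grow X' (s - w - 1)) := by
    rw [Finset.disjoint_left]
    intro l hl hl'
    obtain ⟨x', hx', j, hj, heq⟩ := (mem_grow X' _ l).1 hl'
    obtain ⟨i, hi, rfl⟩ := Finset.mem_image.1 hx'
    obtain ⟨j', hj', heq'⟩ := h i hi l hl
    rw [heq'] at heq
    have h1 : ((j' : ℕ) : ZMod s) = ((w + j : ℕ) : ZMod s) := by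
      have h2 : i + (a : ZMod s) + (j' : ZMod s) = i + (a : ZMod s) + ((w + j : ℕ) : ZMod s) := by
        rw [heq]
        push_cast
        ring
      exact add_left_cancel h2
    have h3 := (ZMod.natCast_eq_natCast_iff _ _ _).1 h1
    have h4 := Nat.ModEq.eq_of_lt_of_lt h3 (by omega) (by omega)
    omega
  have hu := Finset.card_le_card (Finset.subset_univ (L ∪ grow X' (s - w - 1)))
  rw [Finset.card_union_of_disjoint hdisj, Finset.card_univ, ZMod.card] at hu
  have hLpos := Finset.card_pos.2 hL
  omega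

end Pool.Agent.RE26
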