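import Mathlib

/-!
# MP_df1a54_co: `k`-connected graphs, `r(G)` and `f(n, k)`
-/

namespace Pool.Agent.RE26

/-- `G` is `k`-connected: it has at least `k + 1` vertices, and deleting fewer than `k` vertices
leaves a connected graph. -/
def KConn {V : Type} [Fintype V] (G : SimpleGraph V) (k : ℕ) : Prop :=
  k + 1 ≤ Fintype.card V ∧ ∀ S : Finset V, S.card < k → (G.induce {v | v ∉ S}).Connected

/-- `r(G)` (with respect to `k`): the largest size of a set `F` of edges of `G` such that `G - F` is
`(k - 1)`-connected. -/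
noncomputable def rem {n : ℕ} (G : SimpleGraph (Fin n)) (k : ℕ) : ℕ :=
  sSup {m | ∃ F : Finset (Sym2 (Fin n)), (F : Set (Sym2 (Fin n))) ⊆ G.edgeSet ∧ F.card = m ∧
    KConn (G.deleteEdges (F : Set (Sym2 (Fin n)))) (k - 1)}

/-- `f(n, k)`: the minimum of `r(G)` over the `k`-connected graphs `G` of order `n` -/
noncomputable def fnk (n k : ℕ) : ℕ :=
  sInf {m | ∃ G : SimpleGraph (Fin n), KConn G k ∧ rem G k = m}

end Pool.Agent.RE26
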