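import Pool.Agent.Lib_helper26.RE.MinD

/-!
# MP_df1a54_co: a vertex lies in few pairs of minimal dangerous sets
-/

open Finset

set_option linter.unusedSectionVars false

namespace Pool.Agent.RE26

variable {V : Type} [Fintype V] [DecidableEq V]

/-- The key counting lemma. -/
theorem leg_count {H : SimpleGraph V} {c : ℕ} (hK : Bic H c) (w y : V) (hyw : y ≠ w)
    (P T : V → Finset V) : ∀ I : Finset V, (∀ u ∈ I, Leg H c w u (P u) (T u)) →
      (∀ u ∈ I, y ∈ cn H (P u)) → I.card ≤ (I.biUnion P).card := by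
  classical
  intro I
  induction I using Finset.strongInduction with
  | H I ih =>
    intro hleg hy
    by_cases hI : I = ∅
    · subst hI; simp
    obtain ⟨u0, hu0⟩ := Finset.nonempty_iff_ne_empty.2 hI
    set G : Finset (Finset V) := I.powerset.filter
      (fun I' => I'.Nonempty ∧ c + 1 ≤ 2 * (I'.biUnion P).card + (cn H (I'.biUnion P)).card) with hG
    have hGmem : ∀ I', I' ∈ G ↔ I' ⊆ I ∧ I'.Nonempty ∧
        c + 1 ≤ 2 * (I'.biUnion P).card + (cn H (I'.biUnion P)).card := by
      intro I'
      rw [hG, Finset.mem_filter, Finset.mem_powerset]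
    have hG0 : G.Nonempty := by
      refine ⟨{u0}, (hGmem _).2 ⟨Finset.singleton_subset_iff.2 hu0, Finset.singleton_nonempty _, ?_⟩⟩
      rw [Finset.singleton_biUnion]
      have h1 := (hleg u0 hu0).size
      have h2 := Finset.card_le_card (hleg u0 hu0).TP
      omega
    obtain ⟨I', hI'G, hmax⟩ := Finset.exists_max_image G Finset.card hG0
    obtain ⟨hI'I, hI'ne, hI'g⟩ := (hGmem _).1 hI'G
    set Q := I'.biUnion P with hQ
    have hQw : ∀ x ∈ Q, H.Adj x w := by
      intro x hx
      rw [hQ, Finset.mem_biUnion] at hx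
      obtain ⟨u, hu, hxu⟩ := hx
      exact (hleg u (hI'I hu)).Pw x hxu
    have hwQ : w ∈ cn H Q := (mem_cn H Q w).2 hQw
    have hyQ : y ∈ cn H Q := by
      rw [mem_cn]
      intro x hx
      rw [hQ, Finset.mem_biUnion] at hx
      obtain ⟨u, hu, hxu⟩ := hx
      exact (mem_cn H _ y).1 (hy u (hI'I hu)) x hxu
    have hQI : Disjoint Q I' := by
      rw [Finset.disjoint_left]
      intro x hx hx'
      exact (hleg x (hI'I hx')).uw (hQw x hx)
    -- the biclique bound
    have hcard : I'.card ≤ Q.card := by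
      have hb := hK (Q ∪ I') ((cn H Q).erase w)
        (hI'ne.mono Finset.subset_union_right)
        ⟨y, Finset.mem_erase.2 ⟨hyw, hyQ⟩⟩ (by
          intro x hx z hz
          obtain ⟨hzw, hz⟩ := Finset.mem_erase.1 hz
          rcases Finset.mem_union.1 hx with hx | hx
          · exact (mem_cn H Q z).1 hz x hx
          · refine (hleg x (hI'I hx)).cnu z ?_ hzw
            exact cn_mono H (Finset.subset_biUnion_of_mem P hx) hz)
      rw [Finset.card_union_of_disjoint hQI] at hb
      have := Finset.card_erase_add_one hwQ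
      omega
    -- maximality
    have hdisj : ∀ u ∈ I \ I', Disjoint (P u) Q := by
      intro u hu
      obtain ⟨huI, huI'⟩ := Finset.mem_sdiff.1 hu
      by_contra hcon
      rw [Finset.not_disjoint_iff] at hcon
      obtain ⟨x, hxP, hxQ⟩ := hcon
      have hL := hleg u huI
      have hJ := hL.sub (Q ∩ P u) Finset.inter_subset_right ⟨x, Finset.mem_inter.2 ⟨hxQ, hxP⟩⟩
      have hsup := cn_super H Q (P u)
      have hui := Finset.card_union_add_card_inter Q (P u)
      -- `T u \ Q ⊆ P u \ Q`
      have hT : (T u).card ≤ (Q ∩ P u ∩ T u).card + ((P u) \ Q).card := by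
        have hsub : T u ⊆ (Q ∩ P u ∩ T u) ∪ ((P u) \ Q) := by
          intro z hz
          have hzP := hL.TP hz
          by_cases hzQ : z ∈ Q
          · exact Finset.mem_union_left _ (Finset.mem_inter.2 ⟨Finset.mem_inter.2 ⟨hzQ, hzP⟩, hz⟩)
          · exact Finset.mem_union_right _ (Finset.mem_sdiff.2 ⟨hzP, hzQ⟩)
        exact (Finset.card_le_card hsub).trans (Finset.card_union_le _ _)
      have hPQ : ((P u) \ Q).card + (Q ∩ P u).card = (P u).card := by
        rw [Finset.inter_comm]
        exact Finset.card_sdiff_add_card_inter (P u) Q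
      have hsz := hL.size
      have hin : insert u I' ∈ G := by
        refine (hGmem _).2 ⟨Finset.insert_subset_iff.2 ⟨huI, hI'I⟩, Finset.insert_nonempty _ _, ?_⟩
        rw [Finset.biUnion_insert, Finset.union_comm, ← hQ]
        omega
      have := hmax _ hin
      rw [Finset.card_insert_of_notMem huI'] at this
      omega
    have hss : I \ I' ⊂ I := by
      refine Finset.ssubset_iff_subset_ne.2 ⟨Finset.sdiff_subset, fun heq => ?_⟩
      obtain ⟨z, hz⟩ := hI'ne
      have : z ∈ I \ I' := by rw [heq]; exact hI'I hz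
      exact (Finset.mem_sdiff.1 this).2 hz
    have hrec := ih (I \ I') hss (fun u hu => hleg u (Finset.mem_sdiff.1 hu).1)
      (fun u hu => hy u (Finset.mem_sdiff.1 hu).1)
    have hd2 : Disjoint Q ((I \ I').biUnion P) := by
      rw [Finset.disjoint_biUnion_right]
      intro u hu
      exact (hdisj u hu).symm
    have hI2 : I.biUnion P = Q ∪ (I \ I').biUnion P := by
      rw [hQ]
      ext x
      rw [Finset.mem_union, Finset.mem_biUnion, Finset.mem_biUnion, Finset.mem_biUnion]
      constructor
      · rintro ⟨u, hu, hx⟩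
        by_cases huI : u ∈ I'
        · exact Or.inl ⟨u, huI, hx⟩
        · exact Or.inr ⟨u, Finset.mem_sdiff.2 ⟨hu, huI⟩, hx⟩
      · rintro (⟨u, hu, hx⟩ | ⟨u, hu, hx⟩)
        · exact ⟨u, hI'I hu, hx⟩
        · exact ⟨u, (Finset.mem_sdiff.1 hu).1, hx⟩
    rw [hI2, Finset.card_union_of_disjoint hd2]
    have := Finset.card_sdiff_add_card_eq_card hI'I
    omega

open Classical in
/-- number of common neighbours of `w` and `y` -/
noncomputable def cd (H : SimpleGraph V) (w y : V) : ℕ :=
  (univ.filter (fun x => H.Adj x w ∧ H.Adj x y)).card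

theorem sum_cd_le {H : SimpleGraph V} {c : ℕ} (hc : 1 ≤ c) (hK : Bic H c) (w : V) :
    ∑ y ∈ univ.erase w, cd H w y ≤ (cn H {w}).card * (c - 2) := by
  classical
  have h1 : ∑ y ∈ univ.erase w, cd H w y
      = ∑ x ∈ cn H {w}, ((univ.erase w).filter (fun y => H.Adj x y)).card := by
    have := Finset.sum_card_bipartiteAbove_eq_sum_card_bipartiteBelow
      (s := cn H {w}) (t := (univ.erase w : Finset V)) (fun x y => H.Adj x y)
    unfold Finset.bipartiteAbove Finset.bipartiteBelow at this
    rw [this]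
    refine Finset.sum_congr rfl fun y _ => ?_
    unfold cd
    congr 1
    ext x
    simp only [Finset.mem_filter, Finset.mem_univ, true_and, mem_cn, Finset.mem_singleton,
      forall_eq]
    constructor
    · rintro ⟨ha, hb⟩; exact ⟨ha.symm, hb⟩
    · rintro ⟨ha, hb⟩; exact ⟨ha.symm, hb⟩
  rw [h1]
  calc ∑ x ∈ cn H {w}, ((univ.erase w).filter (fun y => H.Adj x y)).card
      ≤ ∑ _x ∈ cn H {w}, (c - 2) := by
        refine Finset.sum_le_sum fun x hx => ?_
        have hxw : H.Adj w x := (mem_cn H {w} x).1 hx w (Finset.mem_singleton_self w)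
        have heq : (univ.erase w).filter (fun y => H.Adj x y) = (cn H {x}).erase w := by
          ext y
          simp only [Finset.mem_filter, Finset.mem_erase, Finset.mem_univ, and_true, mem_cn,
            Finset.mem_singleton, forall_eq, ne_eq]
        rw [heq]
        have hmem : w ∈ cn H {x} := by
          rw [mem_cn]
          intro j hj
          rw [Finset.mem_singleton.1 hj]
          exact hxw.symm
        have h2 := Finset.card_erase_add_one hmem
        have h3 := deg_le H c hc hK x
        omega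
    _ = (cn H {w}).card * (c - 2) := by rw [Finset.sum_const, smul_eq_mul]

theorem sum1 {H : SimpleGraph V} {c : ℕ} (hK : Bic H c) (w : V) (X : Finset V)
    (A B T : V → Finset V) (d : V → ℕ) (hX : ∀ u ∈ X, Str H c w u (A u) (B u) (d u) (T u)) :
    ∑ u ∈ X, (cn H (A u)).card ≤ ∑ y ∈ univ.erase w, cd H w y := by
  classical
  have h1 : ∑ u ∈ X, (cn H (A u)).card
      = ∑ y ∈ univ.erase w, (X.filter (fun u => y ∈ cn H ((A u).erase u))).card := by
    have := Finset.sum_card_bipartiteAbove_eq_sum_card_bipartiteBelow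
      (s := X) (t := (univ.erase w : Finset V)) (fun u y => y ∈ cn H ((A u).erase u))
    unfold Finset.bipartiteAbove Finset.bipartiteBelow at this
    rw [← this]
    refine Finset.sum_congr rfl fun u hu => ?_
    have hs := hX u hu
    congr 1
    ext y
    rw [Finset.mem_filter]
    change y ∈ cn H (A u) ↔ y ∈ univ.erase w ∧ y ∈ cn H ((A u).erase u)
    rw [hs.cnA, Finset.mem_insert, Finset.mem_erase]
    constructor
    · intro hy
      exact ⟨⟨fun heq => hs.wcn (heq ▸ hy), Finset.mem_univ _⟩, Or.inr hy⟩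
    · rintro ⟨⟨h1, -⟩, h2 | h2⟩
      · exact absurd h2 h1
      · exact h2
  rw [h1]
  refine Finset.sum_le_sum fun y hy => ?_
  have hyw : y ≠ w := Finset.ne_of_mem_erase hy
  refine (leg_count hK w y hyw (fun u => (A u).erase u) T _ ?_ ?_).trans ?_
  · intro u hu
    exact (hX u (Finset.mem_filter.1 hu).1).leg
  · intro u hu
    exact (Finset.mem_filter.1 hu).2
  · unfold cd
    refine Finset.card_le_card ?_
    intro x hx
    rw [Finset.mem_biUnion] at hx
    obtain ⟨u, hu, hxu⟩ := hx
    obtain ⟨huX, hyu⟩ := Finset.mem_filter.1 hu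
    rw [Finset.mem_filter]
    exact ⟨Finset.mem_univ _, (hX u huX).leg.Pw x hxu, (mem_cn H _ y).1 hyu x hxu⟩

/-- splitting the neighbourhood of `w'` -/
theorem cd_add {H : SimpleGraph V} {c : ℕ} (hc : 1 ≤ c) (hK : Bic H c) (w w' : V) (Y : Finset V)
    (hY : ∀ u ∈ Y, H.Adj u w' ∧ ¬ H.Adj u w) : Y.card + cd H w w' + 1 ≤ c := by
  classical
  have h := deg_le H c hc hK w'
  have hsub : Y ∪ univ.filter (fun x => H.Adj x w ∧ H.Adj x w') ⊆ cn H {w'} := by
    intro x hx
    rw [mem_cn]
    intro j hj
    rw [Finset.mem_singleton.1 hj]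
    rcases Finset.mem_union.1 hx with hx | hx
    · exact (hY x hx).1.symm
    · exact (Finset.mem_filter.1 hx).2.2.symm
  have hdisj : Disjoint Y (univ.filter (fun x => H.Adj x w ∧ H.Adj x w')) := by
    rw [Finset.disjoint_left]
    intro x hx hx'
    exact (hY x hx).2 (Finset.mem_filter.1 hx').2.1
  have := Finset.card_le_card hsub
  rw [Finset.card_union_of_disjoint hdisj] at this
  unfold cd
  omega

theorem sum2 {H : SimpleGraph V} {c : ℕ} (hc : 1 ≤ c) (hK : Bic H c) (w : V) (X : Finset V)
    (A B T : V → Finset V) (d : V → ℕ) (hX : ∀ u ∈ X, Str H c w u (A u) (B u) (d u) (T u)) :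
    ∑ u ∈ X, ((A u).card - 2) ≤ ∑ y ∈ univ.erase w, cd H w y := by
  classical
  -- facts
  have hcd : ∀ u ∈ X, ∀ w' ∈ B u, w' ≠ w → (A u).card ≤ cd H w w' + 2 := by
    intro u hu w' hw' hne
    have hs := hX u hu
    have hone := (hs.adj_of w' hw' hne).1
    -- at most one vertex of `A u` is not adjacent to `w'`
    have h1 : ((A u).filter (fun x => ¬ H.Adj x w')).card ≤ 1 := by
      rw [Finset.card_le_one]
      intro x hx x' hx'
      exact hone x (Finset.mem_filter.1 hx).1 x' (Finset.mem_filter.1 hx').1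
        (Finset.mem_filter.1 hx).2 (Finset.mem_filter.1 hx').2
    have h2 := Finset.card_filter_add_card_filter_not (s := A u) (fun x => H.Adj x w')
    have h3 : (((A u).filter (fun x => H.Adj x w')).erase u).card ≤ cd H w w' := by
      unfold cd
      refine Finset.card_le_card ?_
      intro x hx
      obtain ⟨hxu, hx⟩ := Finset.mem_erase.1 hx
      obtain ⟨hxA, hxw'⟩ := Finset.mem_filter.1 hx
      exact Finset.mem_filter.2 ⟨Finset.mem_univ _, (hs.adj_A x hxA hxu).2, hxw'⟩
    have h4 := Finset.pred_card_le_card_erase (s := (A u).filter (fun x => H.Adj x w')) (a := u)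
    omega
  have key : ∀ w' ∈ univ.erase w, ∑ u ∈ X, (if w' ∈ B u then
      (((A u).card : ℚ) - 2) / ((B u).card - 1) else 0) ≤ (cd H w w' : ℚ) := by
    intro w' hw'
    have hne : w' ≠ w := Finset.ne_of_mem_erase hw'
    rw [← Finset.sum_filter]
    set Y := X.filter (fun u => w' ∈ B u) with hY
    by_cases hY0 : Y = ∅
    · rw [hY0, Finset.sum_empty]
      exact Nat.cast_nonneg _
    have hYpos : 0 < Y.card := Finset.card_pos.2 (Finset.nonempty_iff_ne_empty.2 hY0)
    have hYc : Y.card + cd H w w' + 1 ≤ c := by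
      refine cd_add hc hK w w' Y ?_
      intro u hu
      obtain ⟨huX, huB⟩ := Finset.mem_filter.1 hu
      exact ⟨((hX u huX).adj_of w' huB hne).2, (hX u huX).leg.uw⟩
    set q := cd H w w' with hq
    have hden : (0 : ℚ) < (c : ℚ) - 1 - q := by
      have : (Y.card : ℚ) + q + 1 ≤ c := by exact_mod_cast hYc
      have h0 : (0 : ℚ) < Y.card := by exact_mod_cast hYpos
      linarith
    calc ∑ u ∈ Y, (((A u).card : ℚ) - 2) / ((B u).card - 1)
        ≤ ∑ _u ∈ Y, (q : ℚ) / ((c : ℚ) - 1 - q) := by
          refine Finset.sum_le_sum fun u hu => ?_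
          obtain ⟨huX, huB⟩ := Finset.mem_filter.1 hu
          have hs := hX u huX
          have ha := hcd u huX w' huB hne
          rw [← hq] at ha
          have hab := hs.cardAB
          have hab' : ((A u).card : ℚ) + (B u).card = c + 2 := by exact_mod_cast hab
          have ha' : ((A u).card : ℚ) ≤ q + 2 := by exact_mod_cast ha
          have hb2 : 2 ≤ (B u).card := hs.two.trans hs.dB
          have hb2' : (2 : ℚ) ≤ (B u).card := by exact_mod_cast hb2
          have hcpos : (1 : ℚ) ≤ c := by exact_mod_cast hc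
          rw [div_le_div_iff₀ (by linarith) hden]
          have hBeq : ((B u).card : ℚ) = c + 2 - (A u).card := by linarith
          rw [hBeq]
          nlinarith
      _ = Y.card * ((q : ℚ) / ((c : ℚ) - 1 - q)) := by rw [Finset.sum_const, nsmul_eq_mul]
      _ ≤ q := by
          rw [← mul_div_assoc, div_le_iff₀ hden]
          have h1 : (Y.card : ℚ) ≤ (c : ℚ) - 1 - q := by
            have : (Y.card : ℚ) + q + 1 ≤ c := by exact_mod_cast hYc
            linarith
          have hq0 : (0 : ℚ) ≤ q := Nat.cast_nonneg _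
          nlinarith
  have hexp : ∀ u ∈ X, (((A u).card : ℚ) - 2) = ∑ w' ∈ univ.erase w, (if w' ∈ B u then
      (((A u).card : ℚ) - 2) / ((B u).card - 1) else 0) := by
    intro u hu
    have hs := hX u hu
    rw [← Finset.sum_filter, Finset.sum_const, nsmul_eq_mul]
    have heq : (univ.erase w).filter (fun w' => w' ∈ B u) = (B u).erase w := by
      ext z
      simp only [Finset.mem_filter, Finset.mem_erase, Finset.mem_univ, and_true, ne_eq]
    rw [heq]
    have h1 := Finset.card_erase_add_one hs.wB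
    have h1' : (((B u).erase w).card : ℚ) = (B u).card - 1 := by
      have : (((B u).erase w).card : ℚ) + 1 = (B u).card := by exact_mod_cast h1
      linarith
    rw [h1']
    have hb2 : 2 ≤ (B u).card := hs.two.trans hs.dB
    have hb2' : (2 : ℚ) ≤ (B u).card := by exact_mod_cast hb2
    have hne : ((B u).card : ℚ) - 1 ≠ 0 := by linarith
    field_simp
  have hfin : (∑ u ∈ X, (((A u).card : ℚ) - 2)) ≤ ∑ y ∈ univ.erase w, (cd H w y : ℚ) := by
    rw [Finset.sum_congr rfl hexp, Finset.sum_comm]
    exact Finset.sum_le_sum key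
  have hcast : ((∑ u ∈ X, ((A u).card - 2) : ℕ) : ℚ) = ∑ u ∈ X, (((A u).card : ℚ) - 2) := by
    rw [Nat.cast_sum]
    refine Finset.sum_congr rfl fun u hu => ?_
    have hs := hX u hu
    have ha2 : 2 ≤ (A u).card := hs.two.trans hs.dA
    rw [Nat.cast_sub ha2]
    norm_num
  have : ((∑ u ∈ X, ((A u).card - 2) : ℕ) : ℚ) ≤ ((∑ y ∈ univ.erase w, cd H w y : ℕ) : ℚ) := by
    rw [hcast, Nat.cast_sum]
    exact hfin
  exact_mod_cast this

open Classical in
/-- vertices paired with `w` in some minimal dangerous set -/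
noncomputable def XX (H : SimpleGraph V) (c : ℕ) (w : V) : Finset V :=
  univ.filter (fun u => ∃ D, MinD H c D ∧ (u, w) ∈ D)

theorem mem_XX (H : SimpleGraph V) (c : ℕ) (w u : V) :
    u ∈ XX H c w ↔ ∃ D, MinD H c D ∧ (u, w) ∈ D := by
  classical
  unfold XX
  simp

theorem XX_str {H : SimpleGraph V} {c : ℕ} (hc : 1 ≤ c) (hK : Bic H c) (w : V) :
    ∃ (A B T : V → Finset V) (d : V → ℕ), ∀ u ∈ XX H c w, Str H c w u (A u) (B u) (d u) (T u) := by
  classical
  have h : ∀ u, ∃ (A B T : Finset V) (d : ℕ), u ∈ XX H c w → Str H c w u A B d T := by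
    intro u
    by_cases hu : u ∈ XX H c w
    · obtain ⟨D, hD, huw⟩ := (mem_XX H c w u).1 hu
      obtain ⟨A, B, hW⟩ := hD.1
      obtain ⟨T, hT⟩ := hD.str hc hK hW huw
      exact ⟨A, B, T, _, fun _ => hT⟩
    · exact ⟨∅, ∅, ∅, 0, fun h => absurd h hu⟩
  choose A B T d h using h
  exact ⟨A, B, T, d, fun u hu => h u hu⟩

theorem XX_card {H : SimpleGraph V} {c : ℕ} (hc : 1 ≤ c) (hc2 : c ≠ 2) (hK : Bic H c) (w : V) :
    (XX H c w).card ≤ 3 * (c - 1) := by
  classical
  obtain ⟨A, B, T, d, hX⟩ := XX_str hc hK w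
  by_cases hc3 : 3 ≤ c
  · have h1 := sum1 hK w _ A B T d hX
    have h2 := sum2 hc hK w _ A B T d hX
    have h3 := sum_cd_le hc hK w
    have h4 : (cn H {w}).card * (c - 2) ≤ (c - 1) * (c - 2) := by
      refine Nat.mul_le_mul_right _ ?_
      have := deg_le H c hc hK w
      omega
    have h5 : (XX H c w).card * (c - 2)
        ≤ ∑ u ∈ XX H c w, (2 * ((A u).card - 2) + (cn H (A u)).card) := by
      rw [← smul_eq_mul, ← Finset.sum_const]
      refine Finset.sum_le_sum fun u hu => ?_
      have hs := hX u hu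
      have e1 := hs.cardAB
      have e2 := hs.cardB
      have e3 := hs.dA
      have e4 := hs.two
      omega
    rw [Finset.sum_add_distrib, ← Finset.mul_sum] at h5
    have h6 : (XX H c w).card * (c - 2) ≤ (3 * (c - 1)) * (c - 2) := by
      have : (3 * (c - 1)) * (c - 2) = 3 * ((c - 1) * (c - 2)) := by ring
      omega
    exact Nat.le_of_mul_le_mul_right h6 (by omega)
  · have hc1 : c = 1 := by omega
    subst hc1
    rw [Nat.sub_self, mul_zero, Nat.le_zero, Finset.card_eq_zero]
    by_contra hne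
    obtain ⟨u, hu⟩ := Finset.nonempty_iff_ne_empty.2 hne
    have hs := hX u hu
    have e1 := hs.cardAB
    have e2 := hs.dA
    have e3 := hs.dB
    have e4 := hs.two
    omega

end Pool.Agent.RE26
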