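import Pool.Agent.Lib_helper26.RE.Conn

/-!
# MP_df1a54_co: the complement form of `k`-connectedness

`KConn G k`: `G` is `k`-connected.  `Bic H c`: every complete bipartite pair of `H` has at most `c`
vertices.  For `G` of order `n > k`: `KConn G k ↔ Bic Gᶜ (n - k)`.
-/

open Finset

namespace Pool.Agent.RE26

/-- every pair `X, Y` of nonempty sets which is completely joined in `H` has at most `c` vertices -/
def Bic {V : Type} (H : SimpleGraph V) (c : ℕ) : Prop :=
  ∀ X Y : Finset V, X.Nonempty → Y.Nonempty → (∀ x ∈ X, ∀ y ∈ Y, H.Adj x y) → X.card + Y.card ≤ c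

variable {V : Type}

theorem reach_closed {W : Type} (G : SimpleGraph W) (P : W → Prop)
    (hP : ∀ a b, G.Adj a b → P a → P b) {u v : W} (h : G.Reachable u v) (hu : P u) : P v := by
  obtain ⟨w⟩ := h
  induction w with
  | nil => exact hu
  | cons hadj _ ih => exact ih (hP _ _ hadj hu)

theorem bic_of_kconn [Fintype V] (G : SimpleGraph V) (k : ℕ) (h : KConn G k) :
    Bic Gᶜ (Fintype.card V - k) := by
  classical
  intro X Y hX hY hXY
  by_contra hlt
  push Not at hlt
  have hdisj : Disjoint X Y := by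
    rw [Finset.disjoint_left]
    intro a ha hb
    exact (hXY a ha a hb).ne rfl
  set S : Finset V := (X ∪ Y)ᶜ with hS
  have hcard : S.card = Fintype.card V - (X.card + Y.card) := by
    rw [hS, Finset.card_compl, Finset.card_union_of_disjoint hdisj]
  have hle : (X ∪ Y).card ≤ Fintype.card V := Finset.card_le_univ _
  rw [Finset.card_union_of_disjoint hdisj] at hle
  have hk := h.1
  have hconn := h.2 S (by omega)
  obtain ⟨x, hx⟩ := hX
  obtain ⟨y, hy⟩ := hY
  have hxS : x ∉ S := by simp [hS, hx]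
  have hyS : y ∉ S := by simp [hS, hy]
  have hr := hconn.preconnected ⟨x, hxS⟩ ⟨y, hyS⟩
  have hyX := reach_closed (G.induce {v | v ∉ S}) (fun v => v.1 ∈ X) (by
    rintro ⟨a, ha⟩ ⟨b, hb⟩ hadj haX
    have hab : G.Adj a b := hadj
    have hb' : b ∈ X ∪ Y := by
      by_contra hcon
      exact hb (by rw [hS, Finset.mem_compl]; exact hcon)
    rcases Finset.mem_union.1 hb' with h' | h'
    · exact h'
    · have := hXY a haX b h'
      rw [SimpleGraph.compl_adj] at this
      exact absurd hab this.2) hr hx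
  exact (Finset.disjoint_left.1 hdisj hyX) hy

theorem kconn_of_bic [Fintype V] (G : SimpleGraph V) (k : ℕ) (hk : k < Fintype.card V)
    (h : Bic Gᶜ (Fintype.card V - k)) : KConn G k := by
  classical
  refine ⟨hk, ?_⟩
  intro S hS
  have hne : ∃ v, v ∉ S := by
    by_contra hcon
    push Not at hcon
    have : S = Finset.univ := Finset.eq_univ_iff_forall.2 hcon
    rw [this, Finset.card_univ] at hS
    omega
  obtain ⟨v0, hv0⟩ := hne
  have : Nonempty ({v | v ∉ S} : Set V) := ⟨⟨v0, hv0⟩⟩
  refine SimpleGraph.Connected.mk ?_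
  by_contra hcon
  unfold SimpleGraph.Preconnected at hcon
  push Not at hcon
  obtain ⟨u, w, huw⟩ := hcon
  set X : Finset V := Finset.univ.filter
    (fun v => ∃ hv : v ∉ S, (G.induce {v | v ∉ S}).Reachable u ⟨v, hv⟩) with hX
  set Y : Finset V := Finset.univ.filter
    (fun v => ∃ hv : v ∉ S, ¬ (G.induce {v | v ∉ S}).Reachable u ⟨v, hv⟩) with hY
  have hXne : X.Nonempty := ⟨u.1, by
    rw [hX, Finset.mem_filter]
    exact ⟨Finset.mem_univ _, u.2, SimpleGraph.Reachable.refl _⟩⟩
  have hYne : Y.Nonempty := ⟨w.1, by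
    rw [hY, Finset.mem_filter]
    exact ⟨Finset.mem_univ _, w.2, huw⟩⟩
  have hXY : ∀ x ∈ X, ∀ y ∈ Y, Gᶜ.Adj x y := by
    intro x hx y hy
    rw [hX, Finset.mem_filter] at hx
    rw [hY, Finset.mem_filter] at hy
    obtain ⟨-, hxS, hxr⟩ := hx
    obtain ⟨-, hyS, hyr⟩ := hy
    rw [SimpleGraph.compl_adj]
    constructor
    · rintro rfl
      exact hyr hxr
    · intro hadj
      apply hyr
      refine hxr.trans (SimpleGraph.Adj.reachable ?_)
      exact hadj
  have hle := h X Y hXne hYne hXY
  have hcover : X ∪ Y = Sᶜ := by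
    ext v
    rw [Finset.mem_union, Finset.mem_compl, hX, hY, Finset.mem_filter, Finset.mem_filter]
    constructor
    · rintro (⟨-, hv, -⟩ | ⟨-, hv, -⟩) <;> exact hv
    · intro hv
      by_cases hr : (G.induce {v | v ∉ S}).Reachable u ⟨v, hv⟩
      · exact Or.inl ⟨Finset.mem_univ _, hv, hr⟩
      · exact Or.inr ⟨Finset.mem_univ _, hv, hr⟩
  have h1 : (X ∪ Y).card = Fintype.card V - S.card := by rw [hcover, Finset.card_compl]
  have h2 := Finset.card_union_le X Y
  have h3 : S.card ≤ Fintype.card V := Finset.card_le_univ S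
  omega

theorem kconn_iff [Fintype V] (G : SimpleGraph V) (k : ℕ) (hk : k < Fintype.card V) :
    KConn G k ↔ Bic Gᶜ (Fintype.card V - k) :=
  ⟨bic_of_kconn G k, kconn_of_bic G k hk⟩

end Pool.Agent.RE26
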