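import Mathlib

/-!
# Matchings in graphs of large minimum degree (Dirac type)
-/

open Finset

set_option linter.unusedSectionVars false

namespace Pool.Agent.RE26

variable {V : Type} [DecidableEq V]

/-- a matching, as a set of ordered pairs with pairwise disjoint underlying sets -/
def IsM (M : Finset (V × V)) : Prop :=
  (∀ p ∈ M, p.1 ≠ p.2) ∧
    ∀ p ∈ M, ∀ q ∈ M, (p.1 = q.1 ∨ p.1 = q.2 ∨ p.2 = q.1 ∨ p.2 = q.2) → p = q

theorem IsM.mono {M M' : Finset (V × V)} (h : IsM M) (hs : M' ⊆ M) : IsM M' :=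
  ⟨fun p hp => h.1 p (hs hp), fun p hp q hq => h.2 p (hs hp) q (hs hq)⟩

theorem IsM.insert {M : Finset (V × V)} (h : IsM M) {a b : V} (hab : a ≠ b)
    (hfree : ∀ q ∈ M, q.1 ≠ a ∧ q.2 ≠ a ∧ q.1 ≠ b ∧ q.2 ≠ b) : IsM (insert (a, b) M) := by
  constructor
  · intro p hp
    rcases Finset.mem_insert.1 hp with rfl | hp
    · exact hab
    · exact h.1 p hp
  · intro p hp q hq hpq
    rcases Finset.mem_insert.1 hp with rfl | hp
    · rcases Finset.mem_insert.1 hq with rfl | hq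
      · rfl
      · obtain ⟨h1, h2, h3, h4⟩ := hfree q hq
        rcases hpq with h' | h' | h' | h'
        · exact absurd h'.symm h1
        · exact absurd h'.symm h2
        · exact absurd h'.symm h3
        · exact absurd h'.symm h4
    · rcases Finset.mem_insert.1 hq with rfl | hq
      · obtain ⟨h1, h2, h3, h4⟩ := hfree p hp
        rcases hpq with h' | h' | h' | h'
        · exact absurd h' h1
        · exact absurd h' h3
        · exact absurd h' h2
        · exact absurd h' h4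
      · exact h.2 p hp q hq hpq

theorem notMem_of_free {M : Finset (V × V)} {a b : V} (hfree : ∀ q ∈ M, q.1 ≠ a ∧ q.2 ≠ a) :
    (a, b) ∉ M := fun h => (hfree _ h).1 rfl

/-- the augmentation step -/
theorem IsM.augment {M : Finset (V × V)} (h : IsM M) {p : V × V} (hp : p ∈ M) {s t u v : V}
    (hst : (s = p.1 ∧ t = p.2) ∨ (s = p.2 ∧ t = p.1)) (huv : u ≠ v)
    (hu : ∀ q ∈ M, q.1 ≠ u ∧ q.2 ≠ u) (hv : ∀ q ∈ M, q.1 ≠ v ∧ q.2 ≠ v) :
    IsM (Insert.insert (u, s) (Insert.insert (v, t) (M.erase p))) ∧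
      (Insert.insert (u, s) (Insert.insert (v, t) (M.erase p))).card = M.card + 1 := by
  have hne := h.1 p hp
  have hMe : IsM (M.erase p) := h.mono (Finset.erase_subset _ _)
  have hfree : ∀ q ∈ M.erase p, q.1 ≠ p.1 ∧ q.2 ≠ p.1 ∧ q.1 ≠ p.2 ∧ q.2 ≠ p.2 := by
    intro q hq
    obtain ⟨hqp, hqM⟩ := Finset.mem_erase.1 hq
    refine ⟨?_, ?_, ?_, ?_⟩
    · intro h'; exact hqp (h.2 q hqM p hp (Or.inl h'))
    · intro h'; exact hqp (h.2 q hqM p hp (Or.inr (Or.inr (Or.inl h'))))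
    · intro h'; exact hqp (h.2 q hqM p hp (Or.inr (Or.inl h')))
    · intro h'; exact hqp (h.2 q hqM p hp (Or.inr (Or.inr (Or.inr h'))))
  have hpu := hu p hp
  have hpv := hv p hp
  have hs : (∀ q ∈ M.erase p, q.1 ≠ s ∧ q.2 ≠ s) ∧ s ≠ u ∧ s ≠ v := by
    rcases hst with ⟨rfl, -⟩ | ⟨rfl, -⟩
    · exact ⟨fun q hq => ⟨(hfree q hq).1, (hfree q hq).2.1⟩, hpu.1, hpv.1⟩
    · exact ⟨fun q hq => ⟨(hfree q hq).2.2.1, (hfree q hq).2.2.2⟩, hpu.2, hpv.2⟩
  have ht : (∀ q ∈ M.erase p, q.1 ≠ t ∧ q.2 ≠ t) ∧ t ≠ u ∧ t ≠ v := by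
    rcases hst with ⟨-, rfl⟩ | ⟨-, rfl⟩
    · exact ⟨fun q hq => ⟨(hfree q hq).2.2.1, (hfree q hq).2.2.2⟩, hpu.2, hpv.2⟩
    · exact ⟨fun q hq => ⟨(hfree q hq).1, (hfree q hq).2.1⟩, hpu.1, hpv.1⟩
  have hst' : s ≠ t := by
    rcases hst with ⟨rfl, rfl⟩ | ⟨rfl, rfl⟩
    · exact hne
    · exact hne.symm
  have h1 : IsM (Insert.insert (v, t) (M.erase p)) := by
    refine hMe.insert ht.2.2.symm ?_
    intro q hq
    have := hv q (Finset.mem_of_mem_erase hq)
    exact ⟨this.1, this.2, (ht.1 q hq).1, (ht.1 q hq).2⟩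
  have hfree2 : ∀ q ∈ Insert.insert (v, t) (M.erase p), q.1 ≠ u ∧ q.2 ≠ u ∧ q.1 ≠ s ∧ q.2 ≠ s := by
    intro q hq
    rcases Finset.mem_insert.1 hq with rfl | hq
    · exact ⟨huv.symm, ht.2.1, hs.2.2.symm, hst'.symm⟩
    · have := hu q (Finset.mem_of_mem_erase hq)
      exact ⟨this.1, this.2, (hs.1 q hq).1, (hs.1 q hq).2⟩
  refine ⟨h1.insert hs.2.1.symm hfree2, ?_⟩
  rw [Finset.card_insert_of_notMem, Finset.card_insert_of_notMem, Finset.card_erase_add_one hp]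
  · exact notMem_of_free (fun q hq => hv q (Finset.mem_of_mem_erase hq))
  · exact notMem_of_free (fun q hq => ⟨(hfree2 q hq).1, (hfree2 q hq).2.1⟩)

/-- covered vertices -/
def cov (M : Finset (V × V)) : Finset V := M.image Prod.fst ∪ M.image Prod.snd

theorem mem_cov (M : Finset (V × V)) (v : V) : v ∈ cov M ↔ ∃ q ∈ M, q.1 = v ∨ q.2 = v := by
  unfold cov
  rw [Finset.mem_union, Finset.mem_image, Finset.mem_image]
  constructor
  · rintro (⟨q, hq, rfl⟩ | ⟨q, hq, rfl⟩)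
    · exact ⟨q, hq, Or.inl rfl⟩
    · exact ⟨q, hq, Or.inr rfl⟩
  · rintro ⟨q, hq, rfl | rfl⟩
    · exact Or.inl ⟨q, hq, rfl⟩
    · exact Or.inr ⟨q, hq, rfl⟩

theorem card_cov_le (M : Finset (V × V)) : (cov M).card ≤ 2 * M.card := by
  unfold cov
  refine (Finset.card_union_le _ _).trans ?_
  have h1 : (M.image Prod.fst).card ≤ M.card := Finset.card_image_le
  have h2 : (M.image Prod.snd).card ≤ M.card := Finset.card_image_le
  omega

theorem exists_matching (W : Finset V) (R : V → V → Prop) (δ : ℕ)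
    (N : V → Finset V) (hN : ∀ v ∈ W, δ ≤ (N v).card ∧ ∀ u ∈ N v, u ∈ W ∧ u ≠ v ∧ R v u) :
    ∃ M : Finset (V × V), IsM M ∧ (∀ p ∈ M, p.1 ∈ W ∧ p.2 ∈ W ∧ R p.1 p.2) ∧
      min δ (W.card / 2) ≤ M.card := by
  classical
  set G : Finset (Finset (V × V)) := (W ×ˢ W).powerset.filter
    (fun M => IsM M ∧ ∀ p ∈ M, R p.1 p.2) with hG
  have hGmem : ∀ M, M ∈ G ↔ M ⊆ W ×ˢ W ∧ IsM M ∧ ∀ p ∈ M, R p.1 p.2 := by
    intro M
    rw [hG, Finset.mem_filter, Finset.mem_powerset]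
  have hG0 : G.Nonempty := by
    refine ⟨∅, (hGmem _).2 ⟨Finset.empty_subset _, ⟨?_, ?_⟩, ?_⟩⟩ <;> intro p hp <;> simp at hp
  obtain ⟨M, hMG, hmax⟩ := Finset.exists_max_image G Finset.card hG0
  obtain ⟨hMW, hM, hMR⟩ := (hGmem _).1 hMG
  have hMW' : ∀ p ∈ M, p.1 ∈ W ∧ p.2 ∈ W := fun p hp => Finset.mem_product.1 (hMW hp)
  refine ⟨M, hM, fun p hp => ⟨(hMW' p hp).1, (hMW' p hp).2, hMR p hp⟩, ?_⟩
  by_contra hlt
  push Not at hlt
  have hδ : M.card < δ := lt_of_lt_of_le hlt (min_le_left _ _)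
  have hW2 : M.card < W.card / 2 := lt_of_lt_of_le hlt (min_le_right _ _)
  -- two uncovered vertices
  have hunc : 2 ≤ (W \ cov M).card := by
    have h1 := Finset.le_card_sdiff (cov M) W
    have h2 := card_cov_le M
    omega
  obtain ⟨u, hu, v, hv, huv⟩ := Finset.one_lt_card.1 (lt_of_lt_of_le one_lt_two hunc)
  rw [Finset.mem_sdiff] at hu hv
  have hfree : ∀ x, x ∉ cov M → ∀ q ∈ M, q.1 ≠ x ∧ q.2 ≠ x := by
    intro x hx q hq
    rw [mem_cov] at hx
    push Not at hx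
    exact hx q hq
  have hNcov : ∀ x ∈ W, x ∉ cov M → N x ⊆ cov M := by
    intro x hx hxc y hy
    by_contra hyc
    obtain ⟨hyW, hyx, hRxy⟩ := (hN x hx).2 y hy
    have hin : insert (x, y) M ∈ G := by
      refine (hGmem _).2 ⟨?_, ?_, ?_⟩
      · intro p hp
        rcases Finset.mem_insert.1 hp with rfl | hp
        · exact Finset.mem_product.2 ⟨hx, hyW⟩
        · exact hMW hp
      · refine hM.insert hyx.symm ?_
        intro q hq
        have h1 := hfree x hxc q hq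
        have h2 := hfree y hyc q hq
        exact ⟨h1.1, h1.2, h2.1, h2.2⟩
      · intro p hp
        rcases Finset.mem_insert.1 hp with rfl | hp
        · exact hRxy
        · exact hMR p hp
    have := hmax _ hin
    rw [Finset.card_insert_of_notMem (notMem_of_free (hfree x hxc))] at this
    omega
  have hNu := hNcov u hu.1 hu.2
  have hNv := hNcov v hv.1 hv.2
  -- counting
  set f : V → V × V → ℕ := fun x p => (if p.1 ∈ N x then 1 else 0) + (if p.2 ∈ N x then 1 else 0)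
    with hf
  have hcount : ∀ x, N x ⊆ cov M → (N x).card ≤ ∑ p ∈ M, f x p := by
    intro x hx
    have h1 : N x ⊆ M.biUnion (fun p => ({p.1, p.2} : Finset V).filter (fun z => z ∈ N x)) := by
      intro y hy
      obtain ⟨q, hq, hqy⟩ := (mem_cov M y).1 (hx hy)
      rw [Finset.mem_biUnion]
      refine ⟨q, hq, Finset.mem_filter.2 ⟨?_, hy⟩⟩
      rcases hqy with rfl | rfl <;> simp
    refine (Finset.card_le_card h1).trans (Finset.card_biUnion_le.trans ?_)
    refine Finset.sum_le_sum fun p hp => ?_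
    have hpne := hM.1 p hp
    rw [Finset.filter_insert, Finset.filter_singleton, hf]
    by_cases h1 : p.1 ∈ N x <;> by_cases h2 : p.2 ∈ N x <;> simp [h1, h2, hpne]
  have hsum : 2 * M.card < ∑ p ∈ M, (f u p + f v p) := by
    rw [Finset.sum_add_distrib]
    have h1 := hcount u hNu
    have h2 := hcount v hNv
    have h3 := (hN u hu.1).1
    have h4 := (hN v hv.1).1
    omega
  obtain ⟨p, hp, hp3⟩ : ∃ p ∈ M, 2 < f u p + f v p := by
    by_contra hcon
    push Not at hcon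
    have : ∑ p ∈ M, (f u p + f v p) ≤ ∑ _p ∈ M, 2 := Finset.sum_le_sum hcon
    rw [Finset.sum_const, smul_eq_mul] at this
    omega
  have hcase : (p.1 ∈ N u ∧ p.2 ∈ N v) ∨ (p.2 ∈ N u ∧ p.1 ∈ N v) := by
    rw [hf] at hp3
    simp only at hp3
    by_cases a1 : p.1 ∈ N u <;> by_cases a2 : p.2 ∈ N u <;> by_cases a3 : p.1 ∈ N v <;>
      by_cases a4 : p.2 ∈ N v <;> simp [a1, a2, a3, a4] at hp3 ⊢
  obtain ⟨s, t, hst, hsu, htv⟩ : ∃ s t, ((s = p.1 ∧ t = p.2) ∨ (s = p.2 ∧ t = p.1)) ∧ s ∈ N u ∧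
      t ∈ N v := by
    rcases hcase with ⟨h1, h2⟩ | ⟨h1, h2⟩
    · exact ⟨p.1, p.2, Or.inl ⟨rfl, rfl⟩, h1, h2⟩
    · exact ⟨p.2, p.1, Or.inr ⟨rfl, rfl⟩, h1, h2⟩
  obtain ⟨hM', hcard'⟩ := hM.augment hp hst huv (hfree u hu.2) (hfree v hv.2)
  have hin : insert (u, s) (insert (v, t) (M.erase p)) ∈ G := by
    refine (hGmem _).2 ⟨?_, hM', ?_⟩
    · intro q hq
      rcases Finset.mem_insert.1 hq with rfl | hq
      · exact Finset.mem_product.2 ⟨hu.1, ((hN u hu.1).2 s hsu).1⟩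
      · rcases Finset.mem_insert.1 hq with rfl | hq
        · exact Finset.mem_product.2 ⟨hv.1, ((hN v hv.1).2 t htv).1⟩
        · exact hMW (Finset.mem_of_mem_erase hq)
    · intro q hq
      rcases Finset.mem_insert.1 hq with rfl | hq
      · exact ((hN u hu.1).2 s hsu).2.2
      · rcases Finset.mem_insert.1 hq with rfl | hq
        · exact ((hN v hv.1).2 t htv).2.2
        · exact hMR q (Finset.mem_of_mem_erase hq)
  have := hmax _ hin
  omega

end Pool.Agent.RE26
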