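import Pool.Agent.Lib_helper26.RE.Count
import Pool.Agent.Lib_helper26.RE.Match

/-!
# MP_df1a54_co: the lower bound
-/

open Finset

set_option linter.unusedSectionVars false

namespace Pool.Agent.RE26

variable {V : Type} [Fintype V] [DecidableEq V]

/-- `F` is a set of non-edges of `H`, and `H + F` has no completely joined pair with more than
`c + 1` vertices. -/
def Good (H : SimpleGraph V) (c : ℕ) (F : Finset (Sym2 V)) : Prop :=
  (∀ e ∈ F, ¬ e.IsDiag ∧ e ∉ H.edgeSet) ∧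
    ∀ A B : Finset V, A.Nonempty → B.Nonempty → Disjoint A B →
      (∀ a ∈ A, ∀ b ∈ B, H.Adj a b ∨ s(a, b) ∈ F) → A.card + B.card ≤ c + 1

theorem mem_nb_swap (H : SimpleGraph V) (A B : Finset V) :
    nb H B A = (nb H A B).image Prod.swap := by
  ext p
  rw [mem_nb, Finset.mem_image]
  constructor
  · rintro ⟨⟨h1, h2⟩, h3⟩
    exact ⟨p.swap, (mem_nb H A B _).2 ⟨⟨h2, h1⟩, fun h => h3 h.symm⟩, Prod.swap_swap p⟩
  · rintro ⟨q, hq, rfl⟩
    rw [mem_nb] at hq
    exact ⟨⟨hq.1.2, hq.1.1⟩, fun h => hq.2 h.symm⟩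

theorem IsMat.swap {D : Finset (V × V)} (h : IsMat D) : IsMat (D.image Prod.swap) := by
  intro p hp q hq
  obtain ⟨p', hp', rfl⟩ := Finset.mem_image.1 hp
  obtain ⟨q', hq', rfl⟩ := Finset.mem_image.1 hq
  exact (h p' hp' q' hq').symm

theorem Dd.swap {H : SimpleGraph V} {c : ℕ} {D : Finset (V × V)} (h : Dd H c D) :
    Dd H c (D.image Prod.swap) := by
  obtain ⟨A, B, hW⟩ := h
  refine ⟨B, A, hW.neB, hW.neA, hW.disj.symm, by have := hW.size; omega, ?_, hW.mat.swap⟩
  rw [mem_nb_swap, hW.eq]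

theorem image_swap_swap (D : Finset (V × V)) : (D.image Prod.swap).image Prod.swap = D := by
  rw [Finset.image_image]
  simp

theorem MinD.swap {H : SimpleGraph V} {c : ℕ} {D : Finset (V × V)} (h : MinD H c D) :
    MinD H c (D.image Prod.swap) := by
  refine ⟨h.1.swap, ?_⟩
  intro D' hD' hsub
  have h1 : D'.image Prod.swap ⊆ D := by
    have := Finset.image_subset_image (f := Prod.swap) hsub
    rwa [image_swap_swap] at this
  have h2 := h.2 _ hD'.swap h1
  rw [← h2, image_swap_swap]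

theorem XX_symm {H : SimpleGraph V} {c : ℕ} {u w : V} (h : u ∈ XX H c w) : w ∈ XX H c u := by
  obtain ⟨D, hD, huw⟩ := (mem_XX H c w u).1 h
  exact (mem_XX H c u w).2 ⟨_, hD.swap, Finset.mem_image.2 ⟨(u, w), huw, rfl⟩⟩

/-- avoiding `XX` is enough for matchings -/
theorem safe {H : SimpleGraph V} {c : ℕ} (hc : 1 ≤ c) (hK : Bic H c) (A B : Finset V)
    (hA : A.Nonempty) (hB : B.Nonempty) (hdisj : Disjoint A B) (hmat : IsMat (nb H A B))
    (hX : ∀ p ∈ nb H A B, p.1 ∉ XX H c p.2) : A.card + B.card ≤ c + 1 := by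
  classical
  by_contra hlt
  push Not at hlt
  have hD : Dd H c (nb H A B) := ⟨A, B, hA, hB, hdisj, by omega, rfl, hmat⟩
  set G : Finset (Finset (V × V)) := (nb H A B).powerset.filter (fun D => Dd H c D) with hG
  have hG0 : G.Nonempty := ⟨nb H A B, Finset.mem_filter.2 ⟨Finset.mem_powerset_self _, hD⟩⟩
  obtain ⟨D, hDG, hmin⟩ := Finset.exists_min_image G Finset.card hG0
  rw [hG, Finset.mem_filter, Finset.mem_powerset] at hDG
  have hMin : MinD H c D := by
    refine ⟨hDG.2, ?_⟩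
    intro D' hD' hsub
    have := hmin D' (Finset.mem_filter.2 ⟨Finset.mem_powerset.2 (hsub.trans hDG.1), hD'⟩)
    exact Finset.eq_of_subset_of_card_le hsub this
  obtain ⟨A', B', hW⟩ := hDG.2
  have h2 := hW.two_le hc hK
  obtain ⟨p, hp⟩ := Finset.card_pos.1 (show 0 < D.card by omega)
  exact hX p (hDG.1 hp) ((mem_XX H c p.2 p.1).2 ⟨D, hMin, hp⟩)

theorem XX_not_adj {H : SimpleGraph V} {c : ℕ} {u w : V} (h : u ∈ XX H c w) : u ≠ w := by
  obtain ⟨D, hD, huw⟩ := (mem_XX H c w u).1 h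
  obtain ⟨A, B, hW⟩ := hD.1
  rw [← hW.eq, mem_nb] at huw
  rintro rfl
  exact (Finset.disjoint_left.1 hW.disj huw.1.1) huw.1.2

/-- vertices that `v` may be matched with -/
noncomputable def al (H : SimpleGraph V) (c : ℕ) (W : Finset V) (v : V) : Finset V :=
  (W \ cn H {v}) \ insert v (XX H c v)

theorem mem_al (H : SimpleGraph V) (c : ℕ) (W : Finset V) (v u : V) :
    u ∈ al H c W v ↔ (u ∈ W ∧ ¬ H.Adj v u) ∧ u ≠ v ∧ u ∉ XX H c v := by
  unfold al
  rw [Finset.mem_sdiff, Finset.mem_sdiff, Finset.mem_insert, mem_cn]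
  simp only [Finset.mem_singleton, forall_eq, not_or]

theorem card_al {H : SimpleGraph V} {c : ℕ} (hc : 1 ≤ c) (hc2 : c ≠ 2) (hK : Bic H c)
    (W : Finset V) (v : V) : W.card ≤ (al H c W v).card + (4 * c - 3) := by
  unfold al
  have h1 := Finset.le_card_sdiff (cn H {v}) W
  have h2 := Finset.le_card_sdiff (insert v (XX H c v)) (W \ cn H {v})
  have h3 := Finset.card_insert_le v (XX H c v)
  have h4 := XX_card hc hc2 hK v
  have h5 := deg_le H c hc hK v
  omega

theorem isM_sym {M : Finset (V × V)} (hM : IsM M) {a b b' : V} (h : (a, b) ∈ M ∨ (b, a) ∈ M)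
    (h' : (a, b') ∈ M ∨ (b', a) ∈ M) : b = b' := by
  rcases h with h | h <;> rcases h' with h' | h'
  · have := hM.2 _ h _ h' (Or.inl rfl)
    exact (Prod.mk.inj this).2
  · have := hM.2 _ h _ h' (Or.inr (Or.inl rfl))
    obtain ⟨h1, h2⟩ := Prod.mk.inj this
    exact h2.trans h1
  · have := hM.2 _ h _ h' (Or.inr (Or.inr (Or.inl rfl)))
    obtain ⟨h1, h2⟩ := Prod.mk.inj this
    exact h1.trans h2
  · have := hM.2 _ h _ h' (Or.inr (Or.inr (Or.inr rfl)))
    exact (Prod.mk.inj this).1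

theorem mem_image_sym (F : Finset (V × V)) (a b : V) :
    s(a, b) ∈ F.image (fun p => s(p.1, p.2)) ↔ (a, b) ∈ F ∨ (b, a) ∈ F := by
  rw [Finset.mem_image]
  constructor
  · rintro ⟨⟨x, y⟩, hp, heq⟩
    rcases Sym2.eq_iff.1 heq with ⟨rfl, rfl⟩ | ⟨rfl, rfl⟩
    · exact Or.inl hp
    · exact Or.inr hp
  · rintro (h | h)
    · exact ⟨_, h, rfl⟩
    · exact ⟨_, h, Sym2.eq_swap⟩

theorem isM_card_image {M : Finset (V × V)} (hM : IsM M) :
    (M.image (fun p => s(p.1, p.2))).card = M.card := by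
  refine Finset.card_image_of_injOn ?_
  intro p hp q hq heq
  refine hM.2 p hp q hq ?_
  rcases Sym2.eq_iff.1 heq with ⟨h1, -⟩ | ⟨h1, -⟩
  · exact Or.inl h1
  · exact Or.inr (Or.inl h1)

/-- The lower bound with a matching. -/
theorem lower1 {H : SimpleGraph V} {c : ℕ} (hc : 1 ≤ c) (hc2 : c ≠ 2) (hK : Bic H c) :
    ∃ F : Finset (Sym2 V), Good H c F ∧
      min (Fintype.card V + 3 - 4 * c) (Fintype.card V / 2) ≤ F.card := by
  classical
  obtain ⟨M, hM, hMR, hMcard⟩ := exists_matching (V := V) univ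
    (fun a b => ¬ H.Adj a b ∧ b ∉ XX H c a) (Fintype.card V + 3 - 4 * c) (al H c univ) (by
      intro v _
      constructor
      · have := card_al hc hc2 hK univ v
        rw [Finset.card_univ] at this
        omega
      · intro u hu
        rw [mem_al] at hu
        exact ⟨hu.1.1, hu.2.1, hu.1.2, hu.2.2⟩)
  rw [Finset.card_univ] at hMcard
  refine ⟨M.image (fun p => s(p.1, p.2)), ⟨?_, ?_⟩, by rw [isM_card_image hM]; exact hMcard⟩
  · intro e he
    obtain ⟨p, hp, rfl⟩ := Finset.mem_image.1 he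
    refine ⟨fun h => hM.1 p hp (Sym2.mk_isDiag_iff.1 h), ?_⟩
    rw [SimpleGraph.mem_edgeSet]
    exact (hMR p hp).2.2.1
  · intro A B hA hB hdisj hAB
    have hE : ∀ p ∈ nb H A B, (p.1, p.2) ∈ M ∨ (p.2, p.1) ∈ M := by
      intro p hp
      rw [mem_nb] at hp
      rcases hAB p.1 hp.1.1 p.2 hp.1.2 with h | h
      · exact absurd h hp.2
      · exact (mem_image_sym M p.1 p.2).1 h
    refine safe hc hK A B hA hB hdisj ?_ ?_
    · intro p hp q hq
      have h1 := hE p hp
      have h2 := hE q hq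
      constructor
      · intro heq
        rw [← heq] at h2
        exact isM_sym hM h1 h2
      · intro heq
        rw [← heq] at h2
        exact isM_sym hM h1.symm h2.symm
    · intro p hp hX
      rcases hE p hp with h | h
      · exact (hMR _ h).2.2.2 (XX_symm hX)
      · exact (hMR _ h).2.2.2 hX

end Pool.Agent.RE26
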