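import Pool.Agent.Lib_helper26.RE.Defs

/-!
# MP_df1a54_co: minimal dangerous matchings

`H` is a graph in which every completely joined pair `X, Y` of nonempty sets has at most `c` vertices.
A set `D` of pairs is dangerous if it is the set of missing pairs of some pair of disjoint nonempty
sets `A, B` with at least `c + 2` vertices and is a matching.
-/

open Finset

set_option linter.unusedSectionVars false

namespace Pool.Agent.RE26

variable {V : Type} [Fintype V] [DecidableEq V]

open Classical in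
/-- common neighbours of `J` -/
noncomputable def cn (H : SimpleGraph V) (J : Finset V) : Finset V :=
  univ.filter (fun v => ∀ j ∈ J, H.Adj j v)

open Classical in
/-- pairs of `A × B` missing in `H` -/
noncomputable def nb (H : SimpleGraph V) (A B : Finset V) : Finset (V × V) :=
  (A ×ˢ B).filter (fun p => ¬ H.Adj p.1 p.2)

/-- `D` is a matching -/
def IsMat (D : Finset (V × V)) : Prop := ∀ p ∈ D, ∀ q ∈ D, (p.1 = q.1 ↔ p.2 = q.2)

/-- `(A, B)` is a witness for the dangerous set `D` -/
structure Wit (H : SimpleGraph V) (c : ℕ) (A B : Finset V) (D : Finset (V × V)) : Prop where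
  neA : A.Nonempty
  neB : B.Nonempty
  disj : Disjoint A B
  size : c + 2 ≤ A.card + B.card
  eq : nb H A B = D
  mat : IsMat D

/-- dangerous sets -/
def Dd (H : SimpleGraph V) (c : ℕ) (D : Finset (V × V)) : Prop := ∃ A B, Wit H c A B D

/-- minimal dangerous sets -/
def MinD (H : SimpleGraph V) (c : ℕ) (D : Finset (V × V)) : Prop :=
  Dd H c D ∧ ∀ D', Dd H c D' → D' ⊆ D → D' = D

theorem mem_cn (H : SimpleGraph V) (J : Finset V) (v : V) : v ∈ cn H J ↔ ∀ j ∈ J, H.Adj j v := by
  classical
  unfold cn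
  simp

theorem mem_nb (H : SimpleGraph V) (A B : Finset V) (p : V × V) :
    p ∈ nb H A B ↔ (p.1 ∈ A ∧ p.2 ∈ B) ∧ ¬ H.Adj p.1 p.2 := by
  classical
  unfold nb
  rw [Finset.mem_filter, Finset.mem_product]

theorem cn_union (H : SimpleGraph V) (J K : Finset V) : cn H (J ∪ K) = cn H J ∩ cn H K := by
  ext v
  rw [Finset.mem_inter, mem_cn, mem_cn, mem_cn]
  constructor
  · intro h
    exact ⟨fun j hj => h j (Finset.mem_union_left _ hj), fun j hj => h j (Finset.mem_union_right _ hj)⟩
  · rintro ⟨h1, h2⟩ j hj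
    rcases Finset.mem_union.1 hj with h | h
    · exact h1 j h
    · exact h2 j h

theorem cn_mono (H : SimpleGraph V) {J K : Finset V} (h : J ⊆ K) : cn H K ⊆ cn H J := by
  intro v hv
  rw [mem_cn] at hv ⊢
  exact fun j hj => hv j (h hj)

/-- supermodularity -/
theorem cn_super (H : SimpleGraph V) (J K : Finset V) :
    (cn H J).card + (cn H K).card ≤ (cn H (J ∪ K)).card + (cn H (J ∩ K)).card := by
  rw [← Finset.card_union_add_card_inter (cn H J) (cn H K), cn_union, add_comm]
  refine Nat.add_le_add_left (Finset.card_le_card ?_) _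
  exact Finset.union_subset (cn_mono H Finset.inter_subset_left) (cn_mono H Finset.inter_subset_right)

theorem bic_cn (H : SimpleGraph V) (c : ℕ) (hK : Bic H c) (X Y : Finset V) (hX : X.Nonempty)
    (hY : Y.Nonempty) (hXY : ∀ x ∈ X, ∀ y ∈ Y, H.Adj x y) : X.card + Y.card ≤ c := hK X Y hX hY hXY

theorem IsMat.mono {D E : Finset (V × V)} (h : IsMat D) (hE : E ⊆ D) : IsMat E :=
  fun p hp q hq => h p (hE hp) q (hE hq)

theorem IsMat.snd_inj {D : Finset (V × V)} (h : IsMat D) : Set.InjOn Prod.snd (D : Set (V × V)) := by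
  intro p hp q hq hpq
  exact Prod.ext ((h p hp q hq).2 hpq) hpq

theorem IsMat.fst_inj {D : Finset (V × V)} (h : IsMat D) : Set.InjOn Prod.fst (D : Set (V × V)) := by
  intro p hp q hq hpq
  exact Prod.ext hpq ((h p hp q hq).1 hpq)

/-- degrees are at most `c - 1` -/
theorem deg_le (H : SimpleGraph V) (c : ℕ) (hc : 1 ≤ c) (hK : Bic H c) (x : V) :
    (cn H {x}).card + 1 ≤ c := by
  by_cases h : (cn H {x}).Nonempty
  · have := hK {x} (cn H {x}) (Finset.singleton_nonempty _) h (by
      intro a ha y hy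
      rw [mem_cn] at hy
      exact hy a ha)
    rw [Finset.card_singleton] at this
    omega
  · rw [Finset.not_nonempty_iff_eq_empty] at h
    rw [h]
    simpa using hc

theorem Wit.two_le {H : SimpleGraph V} {c : ℕ} (hc : 1 ≤ c) (hK : Bic H c) {A B : Finset V}
    {D : Finset (V × V)} (h : Wit H c A B D) : 2 ≤ D.card := by
  by_contra hlt
  have hmem : ∀ p, p ∈ D ↔ (p.1 ∈ A ∧ p.2 ∈ B) ∧ ¬ H.Adj p.1 p.2 := by
    intro p
    rw [← h.eq, mem_nb]
  have hsz := h.size
  by_cases h0 : D = ∅
  · have := hK A B h.neA h.neB (by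
      intro x hx y hy
      by_contra hcon
      have : (x, y) ∈ D := (hmem _).2 ⟨⟨hx, hy⟩, hcon⟩
      rw [h0] at this
      simp at this)
    omega
  · have h1 : D.card = 1 := by
      have : 0 < D.card := Finset.card_pos.2 (Finset.nonempty_iff_ne_empty.2 h0)
      omega
    obtain ⟨⟨u, w⟩, hD⟩ := Finset.card_eq_one.1 h1
    have huw := (hmem (u, w)).1 (by rw [hD]; simp)
    have hA : ∀ x ∈ A, ∀ y ∈ B, (x ≠ u ∨ y ≠ w) → H.Adj x y := by
      intro x hx y hy hne
      by_contra hcon
      have : (x, y) ∈ D := (hmem _).2 ⟨⟨hx, hy⟩, hcon⟩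
      rw [hD, Finset.mem_singleton, Prod.mk.injEq] at this
      rcases hne with h' | h'
      · exact h' this.1
      · exact h' this.2
    have ca := Finset.card_erase_add_one huw.1.1
    have cb := Finset.card_erase_add_one huw.1.2
    simp only at ca cb
    by_cases hA' : (A.erase u).Nonempty
    · have := hK (A.erase u) B hA' h.neB (by
        intro x hx y hy
        exact hA x (Finset.mem_of_mem_erase hx) y hy (Or.inl (Finset.ne_of_mem_erase hx)))
      omega
    · rw [Finset.not_nonempty_iff_eq_empty] at hA'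
      rw [hA', Finset.card_empty] at ca
      by_cases hB' : (B.erase w).Nonempty
      · have := hK A (B.erase w) h.neA hB' (by
          intro x hx y hy
          exact hA x hx y (Finset.mem_of_mem_erase hy) (Or.inr (Finset.ne_of_mem_erase hy)))
        omega
      · rw [Finset.not_nonempty_iff_eq_empty] at hB'
        rw [hB', Finset.card_empty] at cb
        omega

/-- number of pairs of `D` starting in `J` -/
def tau (D : Finset (V × V)) (J : Finset V) : ℕ := (D.filter (fun p => p.1 ∈ J)).card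

/-- The data attached to a missing pair `(u, w)` of a minimal dangerous set. -/
structure Leg (H : SimpleGraph V) (c : ℕ) (w u : V) (P T : Finset V) : Prop where
  neP : P.Nonempty
  Pw : ∀ x ∈ P, H.Adj x w
  uw : ¬ H.Adj u w
  cnu : ∀ z ∈ cn H P, z ≠ w → H.Adj u z
  TP : T ⊆ P
  size : c + 1 ≤ P.card + (cn H P).card + T.card
  sub : ∀ J ⊆ P, J.Nonempty → J.card + (cn H J).card + (J ∩ T).card ≤ c + 1

/-- all consequences of minimality used in the counting -/
structure Str (H : SimpleGraph V) (c : ℕ) (w u : V) (A B : Finset V) (d : ℕ) (T : Finset V) :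
    Prop where
  uA : u ∈ A
  wB : w ∈ B
  leg : Leg H c w u (A.erase u) T
  cnA : cn H (A.erase u) = insert w (cn H A)
  wcn : w ∉ cn H A
  cardB : B.card = (cn H A).card + d
  cardAB : A.card + B.card = c + 2
  dA : d ≤ A.card
  dB : d ≤ B.card
  two : 2 ≤ d
  adj_of : ∀ b ∈ B, b ≠ w → (∀ x ∈ A, ∀ x' ∈ A, ¬ H.Adj x b → ¬ H.Adj x' b → x = x') ∧ H.Adj u b
  adj_A : ∀ a ∈ A, a ≠ u → (∀ y ∈ B, ∀ y' ∈ B, ¬ H.Adj a y → ¬ H.Adj a y' → y = y') ∧ H.Adj a w

theorem MinD.str {H : SimpleGraph V} {c : ℕ} (hc : 1 ≤ c) (hK : Bic H c) {D : Finset (V × V)}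
    (hD : MinD H c D) {A B : Finset V} (h : Wit H c A B D) {u w : V} (huw : (u, w) ∈ D) :
    ∃ T, Str H c w u A B D.card T := by
  have h2 : 2 ≤ D.card := h.two_le hc hK
  have hmem : ∀ p, p ∈ D ↔ (p.1 ∈ A ∧ p.2 ∈ B) ∧ ¬ H.Adj p.1 p.2 := by
    intro p
    rw [← h.eq, mem_nb]
  have huw' := (hmem (u, w)).1 huw
  obtain ⟨⟨huA, hwB⟩, hnuw⟩ := huw'
  simp only at huA hwB hnuw
  -- another pair
  obtain ⟨q, hqD, hq⟩ : ∃ q ∈ D, q ≠ (u, w) := by
    by_contra hcon
    push Not at hcon
    have : D ⊆ {(u, w)} := fun p hp => Finset.mem_singleton.2 (hcon p hp)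
    have := Finset.card_le_card this
    rw [Finset.card_singleton] at this
    omega
  have hqu : q.1 ≠ u := by
    intro heq
    exact hq (Prod.ext heq ((h.mat q hqD (u, w) huw).1 heq))
  have hqA : q.1 ∈ A.erase u := Finset.mem_erase.2 ⟨hqu, ((hmem q).1 hqD).1.1⟩
  have hneP : (A.erase u).Nonempty := ⟨_, hqA⟩
  have hPw : ∀ x ∈ A, x ≠ u → H.Adj x w := by
    intro x hx hxu
    by_contra hcon
    have hxD : (x, w) ∈ D := (hmem _).2 ⟨⟨hx, hwB⟩, hcon⟩
    exact hxu ((h.mat _ hxD _ huw).2 rfl)
  have huB : ∀ y ∈ B, y ≠ w → H.Adj u y := by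
    intro y hy hyw
    by_contra hcon
    have hyD : (u, y) ∈ D := (hmem _).2 ⟨⟨huA, hy⟩, hcon⟩
    exact hyw ((h.mat _ hyD _ huw).1 rfl)
  -- condition (*)
  have hstar : ∀ J ⊆ A.erase u, J.Nonempty → J.card + (cn H J).card + tau D J ≤ c + 1 := by
    intro J hJ hJne
    by_contra hlt
    push Not at hlt
    have hJA : J ⊆ A := hJ.trans (Finset.erase_subset _ _)
    set DJ := D.filter (fun p => p.1 ∈ J) with hDJ
    have hDJD : DJ ⊆ D := Finset.filter_subset _ _
    have hwJ : w ∈ cn H J := by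
      rw [mem_cn]
      intro j hj
      exact hPw j (hJA hj) (Finset.ne_of_mem_erase (hJ hj))
    have hdisj : Disjoint (cn H J) (DJ.image Prod.snd) := by
      rw [Finset.disjoint_left]
      intro x hx hx'
      obtain ⟨p, hp, rfl⟩ := Finset.mem_image.1 hx'
      rw [hDJ, Finset.mem_filter] at hp
      rw [mem_cn] at hx
      exact ((hmem p).1 hp.1).2 (hx _ hp.2)
    have hcardW : (DJ.image Prod.snd).card = DJ.card :=
      Finset.card_image_of_injOn ((h.mat.mono hDJD).snd_inj)
    have hW : Wit H c J (cn H J ∪ DJ.image Prod.snd) DJ := by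
      refine ⟨hJne, ⟨w, Finset.mem_union_left _ hwJ⟩, ?_, ?_, ?_, h.mat.mono hDJD⟩
      · rw [Finset.disjoint_left]
        intro x hx hx'
        rcases Finset.mem_union.1 hx' with h' | h'
        · rw [mem_cn] at h'
          exact (h' x hx).ne rfl
        · obtain ⟨p, hp, rfl⟩ := Finset.mem_image.1 h'
          have := ((hmem p).1 (hDJD hp)).1.2
          exact (Finset.disjoint_left.1 h.disj (hJA hx)) this
      · rw [Finset.card_union_of_disjoint hdisj, hcardW]
        unfold tau at hlt
        rw [← hDJ] at hlt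
        omega
      · ext p
        rw [mem_nb, hDJ, Finset.mem_filter, hmem]
        constructor
        · rintro ⟨⟨h1, h2'⟩, h3⟩
          rcases Finset.mem_union.1 h2' with h' | h'
          · rw [mem_cn] at h'
            exact absurd (h' _ h1) h3
          · obtain ⟨p', hp', hpp⟩ := Finset.mem_image.1 h'
            have := ((hmem p').1 (hDJD hp')).1.2
            rw [hpp] at this
            exact ⟨⟨⟨hJA h1, this⟩, h3⟩, h1⟩
        · rintro ⟨⟨⟨h1, h2'⟩, h3⟩, h4⟩
          refine ⟨⟨h4, Finset.mem_union_right _ ?_⟩, h3⟩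
          refine Finset.mem_image.2 ⟨p, ?_, rfl⟩
          rw [Finset.mem_filter, hmem]
          exact ⟨⟨⟨h1, h2'⟩, h3⟩, h4⟩
    have heq := hD.2 DJ ⟨_, _, hW⟩ hDJD
    have : (u, w) ∈ DJ := by rw [heq]; exact huw
    rw [hDJ, Finset.mem_filter] at this
    exact (Finset.ne_of_mem_erase (hJ this.2)) rfl
  -- sizes
  have hsz := h.size
  have hBsub : B ⊆ cn H A ∪ D.image Prod.snd := by
    intro b hb
    by_cases hall : ∀ a ∈ A, H.Adj a b
    · exact Finset.mem_union_left _ ((mem_cn H A b).2 hall)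
    · push Not at hall
      obtain ⟨a, ha, hab⟩ := hall
      exact Finset.mem_union_right _ (Finset.mem_image.2 ⟨(a, b), (hmem _).2 ⟨⟨ha, hb⟩, hab⟩, rfl⟩)
  have hBcard : B.card ≤ (cn H A).card + D.card := by
    refine (Finset.card_le_card hBsub).trans ((Finset.card_union_le _ _).trans ?_)
    exact Nat.add_le_add_left Finset.card_image_le _
  have hwcn : w ∉ cn H A := by
    rw [mem_cn]
    intro hcon
    exact hnuw (hcon u huA)
  have hins : insert w (cn H A) ⊆ cn H (A.erase u) := by
    intro z hz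
    rcases Finset.mem_insert.1 hz with rfl | hz
    · rw [mem_cn]
      intro j hj
      exact hPw j (Finset.mem_of_mem_erase hj) (Finset.ne_of_mem_erase hj)
    · exact cn_mono H (Finset.erase_subset _ _) hz
  have hinscard : (insert w (cn H A)).card = (cn H A).card + 1 := Finset.card_insert_of_notMem hwcn
  have hle := Finset.card_le_card hins
  have hPcard := Finset.card_erase_add_one huA
  have htauP : tau D (A.erase u) + 1 = D.card := by
    unfold tau
    have : D.filter (fun p => p.1 ∈ A.erase u) = D.erase (u, w) := by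
      ext p
      rw [Finset.mem_filter, Finset.mem_erase, Finset.mem_erase]
      constructor
      · rintro ⟨hp, h1, -⟩
        exact ⟨fun heq => h1 (by rw [heq]), hp⟩
      · rintro ⟨h1, hp⟩
        refine ⟨hp, fun heq => h1 (Prod.ext heq ((h.mat p hp (u, w) huw).1 heq)), ((hmem p).1 hp).1.1⟩
    rw [this]
    exact Finset.card_erase_add_one huw
  have hP := hstar (A.erase u) (Finset.Subset.refl _) hneP
  have hcneq : cn H (A.erase u) = insert w (cn H A) :=
    (Finset.eq_of_subset_of_card_le hins (by omega)).symm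
  have hcncard : (cn H (A.erase u)).card = (cn H A).card + 1 := by rw [hcneq, hinscard]
  have hfstcard : (D.image Prod.fst).card = D.card := Finset.card_image_of_injOn h.mat.fst_inj
  have hsndcard : (D.image Prod.snd).card = D.card := Finset.card_image_of_injOn h.mat.snd_inj
  have htauJ : ∀ J ⊆ A.erase u, (J ∩ (D.image Prod.fst).erase u).card = tau D J := by
    intro J hJ
    unfold tau
    have : J ∩ (D.image Prod.fst).erase u = (D.filter (fun p => p.1 ∈ J)).image Prod.fst := by
      ext x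
      rw [Finset.mem_inter, Finset.mem_erase, Finset.mem_image, Finset.mem_image]
      constructor
      · rintro ⟨hx, -, p, hp, rfl⟩
        exact ⟨p, Finset.mem_filter.2 ⟨hp, hx⟩, rfl⟩
      · rintro ⟨p, hp, rfl⟩
        rw [Finset.mem_filter] at hp
        exact ⟨hp.2, Finset.ne_of_mem_erase (hJ hp.2), p, hp.1, rfl⟩
    rw [this]
    exact Finset.card_image_of_injOn (fun p hp q hq => by
      exact h.mat.fst_inj (Finset.filter_subset _ _ hp) (Finset.filter_subset _ _ hq))
  refine ⟨(D.image Prod.fst).erase u, huA, hwB, ?_, hcneq, hwcn, ?_, ?_, ?_, ?_, h2, ?_, ?_⟩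
  · refine ⟨hneP, ?_, hnuw, ?_, ?_, ?_, ?_⟩
    · intro x hx
      exact hPw x (Finset.mem_of_mem_erase hx) (Finset.ne_of_mem_erase hx)
    · intro z hz hzw
      rw [hcneq, Finset.mem_insert] at hz
      rcases hz with hz | hz
      · exact absurd hz hzw
      · exact (mem_cn H A z).1 hz u huA
    · intro x hx
      rw [Finset.mem_erase, Finset.mem_image] at hx
      obtain ⟨hxu, p, hp, rfl⟩ := hx
      exact Finset.mem_erase.2 ⟨hxu, ((hmem p).1 hp).1.1⟩
    · have hu' : u ∈ D.image Prod.fst := Finset.mem_image.2 ⟨(u, w), huw, rfl⟩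
      have := Finset.card_erase_add_one hu'
      omega
    · intro J hJ hJne
      rw [htauJ J hJ]
      exact hstar J hJ hJne
  · omega
  · omega
  · rw [← hfstcard]
    refine Finset.card_le_card ?_
    intro x hx
    obtain ⟨p, hp, rfl⟩ := Finset.mem_image.1 hx
    exact ((hmem p).1 hp).1.1
  · rw [← hsndcard]
    refine Finset.card_le_card ?_
    intro x hx
    obtain ⟨p, hp, rfl⟩ := Finset.mem_image.1 hx
    exact ((hmem p).1 hp).1.2
  · intro b hb hbw
    refine ⟨?_, huB b hb hbw⟩
    intro x hx x' hx' h1 h1'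
    exact (h.mat (x, b) ((hmem _).2 ⟨⟨hx, hb⟩, h1⟩) (x', b) ((hmem _).2 ⟨⟨hx', hb⟩, h1'⟩)).2 rfl
  · intro a ha hau
    refine ⟨?_, hPw a ha hau⟩
    intro y hy y' hy' h1 h1'
    exact (h.mat (a, y) ((hmem _).2 ⟨⟨ha, hy⟩, h1⟩) (a, y') ((hmem _).2 ⟨⟨ha, hy'⟩, h1'⟩)).1 rfl

end Pool.Agent.RE26
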