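import Pool.Agent.Lib_helper26.RE.Defs

/-!
# MP_df1a54_co: a ring of cliques

The ring of `T + 2` blobs: blob `i` has the ports `(j, false)` (left) and `(j, true)` (right) for
`j : Fin m`, and, if `i ∈ Hb`, one more vertex.  A blob is complete, except that `(j, false)` and
`(j, true)` are not adjacent if `i ∈ Hb`.  The port `(j, true)` of blob `i` is joined to the port
`(j, false)` of blob `i + 1`.
-/

open Finset

set_option linter.unusedSectionVars false

namespace Pool.Agent.RE26

/-! ### separations -/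

section Sep

variable {V : Type} [Fintype V] [DecidableEq V]

theorem sep_of_kconn (G : SimpleGraph V) (k : ℕ) (h : KConn G k) (X Y : Finset V)
    (hX : X.Nonempty) (hY : Y.Nonempty) (hXY : Disjoint X Y)
    (hn : ∀ x ∈ X, ∀ y ∈ Y, ¬ G.Adj x y) : k ≤ (X ∪ Y)ᶜ.card := by
  have h1 := bic_of_kconn G k h X Y hX hY (fun x hx y hy => by
    rw [SimpleGraph.compl_adj]
    exact ⟨fun he => Finset.disjoint_left.1 hXY hx (he ▸ hy), hn x hx y hy⟩)
  have h2 := h.1
  rw [Finset.card_compl, Finset.card_union_of_disjoint hXY]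
  omega

theorem kconn_of_sep (G : SimpleGraph V) (k : ℕ) (hk : k < Fintype.card V)
    (h : ∀ X Y : Finset V, X.Nonempty → Y.Nonempty → Disjoint X Y →
      (∀ x ∈ X, ∀ y ∈ Y, ¬ G.Adj x y) → k ≤ (X ∪ Y)ᶜ.card) : KConn G k := by
  refine kconn_of_bic G k hk ?_
  intro X Y hX hY hXY
  have hd : Disjoint X Y := by
    rw [Finset.disjoint_left]
    intro a ha hb
    exact (hXY a ha a hb).ne rfl
  have h1 := h X Y hX hY hd (fun x hx y hy => by
    have := hXY x hx y hy
    rw [SimpleGraph.compl_adj] at this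
    exact this.2)
  rw [Finset.card_compl, Finset.card_union_of_disjoint hd] at h1
  have h2 : (X ∪ Y).card ≤ Fintype.card V := Finset.card_le_univ _
  rw [Finset.card_union_of_disjoint hd] at h2
  omega

theorem kconn_equiv {W : Type} [Fintype W] [DecidableEq W] (e : V ≃ W) (G : SimpleGraph V)
    (G' : SimpleGraph W) (hG : ∀ a b, G.Adj a b ↔ G'.Adj (e a) (e b)) (k : ℕ) (h : KConn G k) :
    KConn G' k := by
  refine kconn_of_sep G' k (by rw [← Fintype.card_congr e]; exact h.1) ?_
  intro X Y hX hY hXY hn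
  have h1 := sep_of_kconn G k h (X.map e.symm.toEmbedding) (Y.map e.symm.toEmbedding)
    hX.map hY.map (by
      rw [Finset.disjoint_left]
      intro a ha hb
      obtain ⟨x, hx, rfl⟩ := Finset.mem_map.1 ha
      obtain ⟨y, hy, hxy⟩ := Finset.mem_map.1 hb
      have : y = x := e.symm.injective hxy
      subst this
      exact Finset.disjoint_left.1 hXY hx hy) (by
      intro a ha b hb
      obtain ⟨x, hx, rfl⟩ := Finset.mem_map.1 ha
      obtain ⟨y, hy, rfl⟩ := Finset.mem_map.1 hb
      rw [hG]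
      simpa using hn x hx y hy)
  rw [← Finset.map_union, Finset.card_compl, Finset.card_map, Fintype.card_congr e] at h1
  rw [Finset.card_compl]
  exact h1

end Sep

/-! ### the ring -/

/-- the vertices of the ring -/
abbrev RV (m T : ℕ) (Hb : Finset (Fin (T + 2))) : Type :=
  {v : Fin (T + 2) × Option (Fin m × Bool) // v.2 = none → v.1 ∈ Hb}

variable {m T : ℕ} {Hb : Finset (Fin (T + 2))}

/-- port `p` of blob `i` -/
def pt (i : Fin (T + 2)) (p : Fin m × Bool) : RV m T Hb := ⟨(i, some p), by simp⟩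

/-- the additional vertex of blob `i` -/
def hubv (i : Fin (T + 2)) (h : i ∈ Hb) : RV m T Hb := ⟨(i, none), fun _ => h⟩

/-- `u` and `v` are different vertices of one blob, and not partners in a blob of `Hb` -/
def Inner (u v : RV m T Hb) : Prop :=
  u.1.1 = v.1.1 ∧ u ≠ v ∧
    ¬ (u.1.1 ∈ Hb ∧ ∃ j b, u.1.2 = some (j, b) ∧ v.1.2 = some (j, !b))

/-- `u` is a right port, and `v` the corresponding left port of the next blob -/
def Link (u v : RV m T Hb) : Prop :=
  ∃ j, u.1.2 = some (j, true) ∧ v.1.2 = some (j, false) ∧ v.1.1 = u.1.1 + 1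

theorem Inner.symm {u v : RV m T Hb} (h : Inner u v) : Inner v u := by
  refine ⟨h.1.symm, h.2.1.symm, ?_⟩
  rintro ⟨h1, j, b, h2, h3⟩
  exact h.2.2 ⟨h.1.symm ▸ h1, j, !b, h3, by rw [Bool.not_not]; exact h2⟩

/-- the ring of cliques -/
def ringG (m T : ℕ) (Hb : Finset (Fin (T + 2))) : SimpleGraph (RV m T Hb) where
  Adj u v := Inner u v ∨ Link u v ∨ Link v u
  symm := ⟨fun u v h => by
    rcases h with h | h | h
    · exact Or.inl h.symm
    · exact Or.inr (Or.inr h)
    · exact Or.inr (Or.inl h)⟩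
  loopless := ⟨fun u h => by
    rcases h with h | h | h
    · exact h.2.1 rfl
    · obtain ⟨j, h1, h2, -⟩ := h
      rw [h1] at h2
      simp at h2
    · obtain ⟨j, h1, h2, -⟩ := h
      rw [h1] at h2
      simp at h2⟩

theorem ext_pt {v : RV m T Hb} {p : Fin m × Bool} (h : v.1.2 = some p) : v = pt v.1.1 p := by
  apply Subtype.ext
  apply Prod.ext
  · rfl
  · exact h

theorem pt_inj {i i' : Fin (T + 2)} {p p' : Fin m × Bool}
    (h : (pt i p : RV m T Hb) = pt i' p') : i = i' ∧ p = p' := by
  have h1 := congrArg (fun v : RV m T Hb => v.1) h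
  have h2 : (i, some p) = (i', some p') := h1
  simpa using h2

theorem link_pt (i : Fin (T + 2)) (j : Fin m) :
    Link (pt i (j, true) : RV m T Hb) (pt (i + 1) (j, false)) := ⟨j, rfl, rfl, rfl⟩

theorem link_eq {u v : RV m T Hb} (h : Link u v) :
    ∃ j, u = pt u.1.1 (j, true) ∧ v = pt (u.1.1 + 1) (j, false) := by
  obtain ⟨j, h1, h2, h3⟩ := h
  exact ⟨j, ext_pt h1, by rw [← h3]; exact ext_pt h2⟩

/-- the blob `i` -/
def blob (m : ℕ) (Hb : Finset (Fin (T + 2))) (i : Fin (T + 2)) : Finset (RV m T Hb) :=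
  univ.filter fun v => v.1.1 = i

theorem mem_blob {i : Fin (T + 2)} {v : RV m T Hb} : v ∈ blob m Hb i ↔ v.1.1 = i := by
  simp [blob]

/-- the ports of a blob -/
def ports (m : ℕ) (Hb : Finset (Fin (T + 2))) (i : Fin (T + 2)) : Finset (RV m T Hb) :=
  univ.map ⟨fun p : Fin m × Bool => (pt i p : RV m T Hb), fun _ _ h => (pt_inj h).2⟩

theorem card_ports (i : Fin (T + 2)) : (ports m Hb i).card = 2 * m := by
  rw [ports, Finset.card_map, Finset.card_univ, Fintype.card_prod, Fintype.card_fin,
    Fintype.card_bool]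
  omega

theorem mem_ports {i : Fin (T + 2)} {v : RV m T Hb} :
    v ∈ ports m Hb i ↔ ∃ p, v = pt i p := by
  rw [ports, Finset.mem_map]
  constructor
  · rintro ⟨p, -, rfl⟩
    exact ⟨p, rfl⟩
  · rintro ⟨p, rfl⟩
    exact ⟨p, Finset.mem_univ _, rfl⟩

theorem card_blob (i : Fin (T + 2)) :
    (blob m Hb i).card = 2 * m + if i ∈ Hb then 1 else 0 := by
  classical
  by_cases hi : i ∈ Hb
  · have : blob m Hb i = insert (hubv i hi) (ports m Hb i) := by
      ext v
      rw [mem_blob, Finset.mem_insert, mem_ports]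
      constructor
      · intro h
        rcases ho : v.1.2 with _ | p
        · left
          apply Subtype.ext
          exact Prod.ext h ho
        · right
          refine ⟨p, ?_⟩
          rw [← h]
          exact ext_pt ho
      · rintro (rfl | ⟨p, rfl⟩) <;> rfl
    rw [this, Finset.card_insert_of_notMem, card_ports, if_pos hi]
    rw [mem_ports]
    rintro ⟨p, hp⟩
    have h1 := congrArg (fun v : RV m T Hb => v.1.2) hp
    have h2 : (none : Option (Fin m × Bool)) = some p := h1
    simp at h2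
  · have : blob m Hb i = ports m Hb i := by
      ext v
      rw [mem_blob, mem_ports]
      constructor
      · intro h
        rcases ho : v.1.2 with _ | p
        · exact absurd (h ▸ v.2 ho) hi
        · refine ⟨p, ?_⟩
          rw [← h]
          exact ext_pt ho
      · rintro ⟨p, rfl⟩
        rfl
    rw [this, card_ports, if_neg hi, add_zero]

theorem card_RV : Fintype.card (RV m T Hb) = 2 * m * (T + 2) + Hb.card := by
  classical
  rw [← Finset.card_univ, Finset.card_eq_sum_card_fiberwise (f := fun v : RV m T Hb => v.1.1)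
    (t := univ) (fun _ _ => Finset.mem_coe.2 (Finset.mem_univ _))]
  have : ∀ i ∈ (univ : Finset (Fin (T + 2))),
      (univ.filter fun v : RV m T Hb => v.1.1 = i).card = 2 * m + if i ∈ Hb then 1 else 0 :=
    fun i _ => card_blob i
  rw [Finset.sum_congr rfl this, Finset.sum_add_distrib, Finset.sum_const, Finset.card_univ,
    Fintype.card_fin, Finset.sum_boole, smul_eq_mul]
  simp
  ring

open Fin.NatCast Fin.CommRing in
/-- on a cycle a predicate which holds somewhere and fails somewhere changes somewhere -/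
theorem cyc_change (P : Fin (T + 2) → Prop) (a b : Fin (T + 2)) (ha : P a) (hb : ¬ P b) :
    ∃ p, P p ∧ ¬ P (p + 1) := by
  by_contra hcon
  push Not at hcon
  have key : ∀ n : ℕ, P (a + (n : Fin (T + 2))) := by
    intro n
    induction n with
    | zero => simpa using ha
    | succ n ih =>
      have := hcon _ ih
      rw [Nat.cast_succ, ← add_assoc]
      exact this
  apply hb
  have := key (b - a).val
  rw [Fin.cast_val_eq_self] at this
  rwa [add_sub_cancel] at this

/-! ### connectivity -/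

/-- a separation which is mixed in a blob -/
theorem mixed {X Y : Finset (RV m T Hb)} (hXY : Disjoint X Y)
    (hn : ∀ x ∈ X, ∀ y ∈ Y, ¬ (ringG m T Hb).Adj x y) {x y : RV m T Hb} (hx : x ∈ X) (hy : y ∈ Y)
    (hb : x.1.1 = y.1.1) : x.1.1 ∈ Hb ∧ (∃ j b, x = pt x.1.1 (j, b) ∧ y = pt x.1.1 (j, !b)) ∧
      ∀ z : RV m T Hb, z.1.1 = x.1.1 → z ≠ x → z ≠ y → z ∉ X ∧ z ∉ Y := by
  have hne : x ≠ y := fun h => Finset.disjoint_left.1 hXY hx (h ▸ hy)
  have h1 := hn x hx y hy
  have h2 : x.1.1 ∈ Hb ∧ ∃ j b, x.1.2 = some (j, b) ∧ y.1.2 = some (j, !b) := by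
    by_contra hcon
    exact h1 (Or.inl ⟨hb, hne, hcon⟩)
  obtain ⟨hH, j, b, hxj, hyj⟩ := h2
  have ex : x = pt x.1.1 (j, b) := ext_pt hxj
  have ey : y = pt x.1.1 (j, !b) := by rw [hb]; exact ext_pt hyj
  refine ⟨hH, ⟨j, b, ex, ey⟩, ?_⟩
  intro z hz hzx hzy
  constructor
  · intro hzX
    apply hn z hzX y hy
    refine Or.inl ⟨hz.trans hb, hzy, ?_⟩
    rintro ⟨-, j', b', h3, h4⟩
    rw [hyj] at h4
    have h5 : j = j' ∧ (!b) = (!b') := by simpa using h4
    obtain ⟨rfl, h6⟩ := h5
    have h7 : b = b' := by simpa using h6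
    subst h7
    apply hzx
    rw [ex, ← hz]
    exact ext_pt h3
  · intro hzY
    apply hn x hx z hzY
    refine Or.inl ⟨hz.symm, hzx.symm, ?_⟩
    rintro ⟨-, j', b', h3, h4⟩
    rw [hxj] at h3
    have h5 : j = j' ∧ b = b' := by simpa using h3
    obtain ⟨rfl, rfl⟩ := h5
    apply hzy
    rw [ey, ← hz]
    exact ext_pt h4

/-- if a blob is mixed, the separator has at least `2 m` vertices -/
theorem mixed_card {X Y : Finset (RV m T Hb)} (hXY : Disjoint X Y)
    (hn : ∀ x ∈ X, ∀ y ∈ Y, ¬ (ringG m T Hb).Adj x y) {i : Fin (T + 2)} {j : Fin m}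
    (hx : pt i (j, true) ∈ X) (hy : pt i (j, false) ∈ Y) : 2 * m ≤ (X ∪ Y)ᶜ.card := by
  by_contra hlt
  push Not at hlt
  have hm : 1 ≤ m := by
    have := j.2
    omega
  obtain ⟨hH, -, h3⟩ := mixed hXY hn hx hy rfl
  have hsub : (blob m Hb i \ {pt i (j, true), pt i (j, false)}) ⊆ (X ∪ Y)ᶜ := by
    intro z hz
    rw [Finset.mem_sdiff, mem_blob, Finset.mem_insert, Finset.mem_singleton, not_or] at hz
    obtain ⟨h4, h5⟩ := h3 z hz.1 hz.2.1 hz.2.2
    rw [Finset.mem_compl, Finset.mem_union]
    exact fun h => h.elim h4 h5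
  have hcard : 2 * m - 1 ≤ (blob m Hb i \ {pt i (j, true), pt i (j, false)}).card := by
    have h4 := Finset.le_card_sdiff ({pt i (j, true), pt i (j, false)} : Finset (RV m T Hb))
      (blob m Hb i)
    have h5 : ({pt i (j, true), pt i (j, false)} : Finset (RV m T Hb)).card ≤ 2 :=
      Finset.card_le_two
    have hH' : i ∈ Hb := hH
    have h6 := card_blob (m := m) (Hb := Hb) i
    rw [if_pos hH'] at h6
    omega
  have heq : blob m Hb i \ {pt i (j, true), pt i (j, false)} = (X ∪ Y)ᶜ :=
    Finset.eq_of_subset_of_card_le hsub (by omega)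
  have hout : ∀ z : RV m T Hb, z.1.1 ≠ i → z ∈ X ∨ z ∈ Y := by
    intro z hz
    by_contra hcon
    have h4 : z ∈ (X ∪ Y)ᶜ := by
      rw [Finset.mem_compl, Finset.mem_union]
      exact hcon
    rw [← heq, Finset.mem_sdiff, mem_blob] at h4
    exact hz h4.1
  have claim : ∀ p, pt p (j, true) ∈ X → p + 1 ≠ i ∧ pt (p + 1) (j, true) ∈ X := by
    intro p hp
    have h4 : (pt (p + 1) (j, false) : RV m T Hb) ∉ Y := by
      intro h5
      exact hn _ hp _ h5 (Or.inr (Or.inl (link_pt p j)))
    have h5 : p + 1 ≠ i := by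
      rintro rfl
      exact h4 hy
    refine ⟨h5, ?_⟩
    have h6 : (pt (p + 1) (j, false) : RV m T Hb) ∈ X := (hout _ h5).resolve_right h4
    refine (hout _ h5).resolve_right ?_
    intro h7
    -- blob `p + 1` is mixed, which gives a vertex of the separator outside of blob `i`
    obtain ⟨h8, -, h9⟩ := mixed hXY hn h6 h7 rfl
    have h10 := h9 (hubv (p + 1) h8) rfl (by
      intro h
      have h11 := congrArg (fun v : RV m T Hb => v.1.2) h
      have h12 : (none : Option (Fin m × Bool)) = some (j, false) := h11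
      simp at h12) (by
      intro h
      have h11 := congrArg (fun v : RV m T Hb => v.1.2) h
      have h12 : (none : Option (Fin m × Bool)) = some (j, true) := h11
      simp at h12)
    exact (hout (hubv (p + 1) h8) h5).elim h10.1 h10.2
  have hall : pt (i - 1) (j, true) ∈ X := by
    by_contra hcon
    obtain ⟨p, hp1, hp2⟩ := cyc_change (fun p => (pt p (j, true) : RV m T Hb) ∈ X) i (i - 1) hx hcon
    exact hp2 (claim p hp1).2
  exact (claim _ hall).1 (sub_add_cancel i 1)

/-- the position of a port -/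
def posn (v : RV m T Hb) : Option (Fin (T + 2) × Fin m) :=
  match v.1.2 with
  | none => none
  | some (j, true) => some (v.1.1, j)
  | some (j, false) => some (v.1.1 - 1, j)

/-- an endpoint of the link `(p, j)` which is in `S`, if there is one -/
def pick (S : Finset (RV m T Hb)) (p : Fin (T + 2)) (j : Fin m) : RV m T Hb :=
  if pt p (j, true) ∈ S then pt p (j, true) else pt (p + 1) (j, false)

theorem posn_pick (S : Finset (RV m T Hb)) (p : Fin (T + 2)) (j : Fin m) :
    posn (pick S p j) = some (p, j) := by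
  unfold pick
  split_ifs
  · rfl
  · show some (p + 1 - 1, j) = some (p, j)
    rw [add_sub_cancel_right]

theorem ring_conn (hm : 1 ≤ m) : KConn (ringG m T Hb) (2 * m) := by
  refine kconn_of_sep _ _ ?_ ?_
  · rw [card_RV]
    have h1 : 2 * m * (T + 2) = 2 * m * T + 4 * m := by ring
    rw [h1]
    omega
  intro X Y hX hY hXY hn
  by_cases hmix : ∃ x ∈ X, ∃ y ∈ Y, x.1.1 = y.1.1
  · obtain ⟨x, hx, y, hy, hb⟩ := hmix
    obtain ⟨-, ⟨j, b, ex, ey⟩, -⟩ := mixed hXY hn hx hy hb
    rw [ex] at hx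
    rw [ey] at hy
    cases b with
    | true => exact mixed_card hXY hn hx hy
    | false =>
      rw [Finset.union_comm]
      exact mixed_card hXY.symm (fun y hy x hx h => hn x hx y hy h.symm) hy hx
  push Not at hmix
  by_contra hlt
  push Not at hlt
  have hmeet : ∀ i : Fin (T + 2), ∃ z : RV m T Hb, z.1.1 = i ∧ (z ∈ X ∨ z ∈ Y) := by
    intro i
    by_contra hcon
    push Not at hcon
    have hsub : blob m Hb i ⊆ (X ∪ Y)ᶜ := by
      intro z hz
      rw [mem_blob] at hz
      have := hcon z hz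
      rw [Finset.mem_compl, Finset.mem_union]
      exact fun h => h.elim this.1 this.2
    have h1 := Finset.card_le_card hsub
    rw [card_blob] at h1
    omega
  obtain ⟨x0, hx0⟩ := hX
  obtain ⟨y0, hy0⟩ := hY
  set P : Fin (T + 2) → Prop := fun p => ∃ x ∈ X, x.1.1 = p with hP
  have hP1 : P x0.1.1 := ⟨x0, hx0, rfl⟩
  have hP2 : ¬ P y0.1.1 := by
    rintro ⟨x, hx, hxy⟩
    exact hmix x hx y0 hy0 hxy
  have hPX : ∀ p, P p → ∀ z : RV m T Hb, z.1.1 = p → z ∉ Y := by
    rintro p ⟨x, hx, hxp⟩ z hz hzY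
    exact hmix x hx z hzY (hxp.trans hz.symm)
  have hPY : ∀ p, ¬ P p → ∀ z : RV m T Hb, z.1.1 = p → z ∉ X := by
    intro p hp z hz hzX
    exact hp ⟨z, hzX, hz⟩
  obtain ⟨p, hp1, hp2⟩ := cyc_change P _ _ hP1 hP2
  obtain ⟨q, hq1, hq2⟩ := cyc_change (fun p => ¬ P p) _ _ hP2 (by simpa using hP1)
  have hq2' : P (q + 1) := by
    by_contra hcon
    exact hq2 hcon
  have hpq : p ≠ q := by
    rintro rfl
    exact hq1 hp1
  have hadj : ∀ (r : Fin (T + 2)) (j : Fin m),
      (ringG m T Hb).Adj (pt r (j, true)) (pt (r + 1) (j, false)) :=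
    fun r j => Or.inr (Or.inl (link_pt r j))
  have hpickp : ∀ j, pick (X ∪ Y)ᶜ p j ∈ (X ∪ Y)ᶜ := by
    intro j
    unfold pick
    split_ifs with h
    · exact h
    · rw [Finset.mem_compl, Finset.mem_union, not_not] at h
      have h1 : (pt p (j, true) : RV m T Hb) ∈ X := h.resolve_right (hPX p hp1 _ rfl)
      rw [Finset.mem_compl, Finset.mem_union]
      rintro (h2 | h2)
      · exact hPY _ hp2 _ rfl h2
      · exact hn _ h1 _ h2 (hadj p j)
  have hpickq : ∀ j, pick (X ∪ Y)ᶜ q j ∈ (X ∪ Y)ᶜ := by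
    intro j
    unfold pick
    split_ifs with h
    · exact h
    · rw [Finset.mem_compl, Finset.mem_union, not_not] at h
      have h1 : (pt q (j, true) : RV m T Hb) ∈ Y := h.resolve_left (hPY q hq1 _ rfl)
      rw [Finset.mem_compl, Finset.mem_union]
      rintro (h2 | h2)
      · exact hn _ h2 _ h1 (hadj q j).symm
      · exact hPX _ hq2' _ rfl h2
  have h1 : (univ : Finset (Fin m × Bool)).card ≤ (X ∪ Y)ᶜ.card := by
    refine Finset.card_le_card_of_injOn
      (fun x => pick (X ∪ Y)ᶜ (if x.2 then q else p) x.1) ?_ ?_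
    · rintro ⟨j, b⟩ -
      cases b with
      | true => exact hpickq j
      | false => exact hpickp j
    · rintro ⟨j, b⟩ - ⟨j', b'⟩ - h
      have h2 := congrArg posn h
      simp only [posn_pick, Option.some.injEq, Prod.mk.injEq] at h2
      obtain ⟨h3, rfl⟩ := h2
      have : b = b' := by
        cases b <;> cases b'
        · rfl
        · exact absurd h3 hpq
        · exact absurd h3.symm hpq
        · rfl
      rw [this]
  rw [Finset.card_univ, Fintype.card_prod, Fintype.card_fin, Fintype.card_bool] at h1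
  omega

end Pool.Agent.RE26
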