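import Pool.Agent.Lib_helper26.RE.Ring
import Pool.Agent.Lib_helper26.RE.Conn

/-!
# MP_df1a54_co: few edges of the ring of cliques can be deleted
-/

open Finset

set_option linter.unusedSectionVars false

namespace Pool.Agent.RE26

variable {m T : ℕ} {Hb : Finset (Fin (T + 2))}

theorem nbr_card (v : RV m T Hb) [DecidablePred fun w => (ringG m T Hb).Adj v w] :
    (univ.filter fun w => (ringG m T Hb).Adj v w).card ≤ 2 * m := by
  classical
  have key : ∃ ψ : Fin m × Bool → RV m T Hb, ∀ w, (ringG m T Hb).Adj v w → ∃ p, ψ p = w := by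
    rcases hv : v.1.2 with _ | ⟨j, b⟩
    · refine ⟨fun p => pt v.1.1 p, ?_⟩
      intro w hw
      rcases hw with h | h | h
      · rcases hw2 : w.1.2 with _ | p
        · exact absurd (Subtype.ext (Prod.ext h.1 (hv.trans hw2.symm))) h.2.1
        · exact ⟨p, by rw [h.1]; exact (ext_pt hw2).symm⟩
      · obtain ⟨j, h1, -⟩ := h
        rw [hv] at h1
        simp at h1
      · obtain ⟨j, -, h1, -⟩ := h
        rw [hv] at h1
        simp at h1
    · refine ⟨fun p => if p = (j, b) then
        (if b = true then pt (v.1.1 + 1) (j, false) else pt (v.1.1 - 1) (j, true))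
        else if h : p = (j, !b) ∧ v.1.1 ∈ Hb then hubv v.1.1 h.2 else pt v.1.1 p, ?_⟩
      intro w hw
      rcases hw with h | h | h
      · rcases hw2 : w.1.2 with _ | p
        · have hH : v.1.1 ∈ Hb := h.1 ▸ w.2 hw2
          refine ⟨(j, !b), ?_⟩
          have h1 : (j, !b) ≠ (j, b) := by
            intro h2
            simp at h2
          simp only [h1, if_false, hH, and_self, dif_pos]
          exact Subtype.ext (Prod.ext h.1 hw2.symm)
        · refine ⟨p, ?_⟩
          have h1 : p ≠ (j, b) := by
            rintro rfl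
            exact h.2.1 (Subtype.ext (Prod.ext h.1 (hv.trans hw2.symm)))
          have h2 : ¬ (p = (j, !b) ∧ v.1.1 ∈ Hb) := by
            rintro ⟨rfl, hH⟩
            exact h.2.2 ⟨hH, j, b, hv, hw2⟩
          simp only [h1, if_false, h2, dif_neg, not_false_eq_true]
          rw [h.1]
          exact (ext_pt hw2).symm
      · obtain ⟨j', h1, h2, h3⟩ := h
        rw [hv] at h1
        have h4 : j = j' ∧ b = true := by simpa using h1
        obtain ⟨rfl, rfl⟩ := h4
        refine ⟨(j, true), ?_⟩
        simp only [if_true]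
        rw [← h3]
        exact (ext_pt h2).symm
      · obtain ⟨j', h2, h1, h3⟩ := h
        rw [hv] at h1
        have h4 : j = j' ∧ b = false := by simpa using h1
        obtain ⟨rfl, rfl⟩ := h4
        refine ⟨(j, false), ?_⟩
        simp only [if_true]
        rw [if_neg (by simp), h3, add_sub_cancel_right]
        exact (ext_pt h2).symm
  obtain ⟨ψ, hψ⟩ := key
  calc (univ.filter fun w => (ringG m T Hb).Adj v w).card
      ≤ (univ.image ψ).card := Finset.card_le_card (by
        intro w hw
        rw [Finset.mem_filter] at hw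
        obtain ⟨p, hp⟩ := hψ w hw.2
        exact Finset.mem_image.2 ⟨p, Finset.mem_univ _, hp⟩)
    _ ≤ (univ : Finset (Fin m × Bool)).card := Finset.card_image_le
    _ = 2 * m := by
        rw [Finset.card_univ, Fintype.card_prod, Fintype.card_fin, Fintype.card_bool]
        omega

section Del

variable {F : Finset (Sym2 (RV m T Hb))}

theorem F_deg (hm : 1 ≤ m) (hF : (F : Set (Sym2 (RV m T Hb))) ⊆ (ringG m T Hb).edgeSet)
    (hK : KConn ((ringG m T Hb).deleteEdges (F : Set (Sym2 (RV m T Hb)))) (2 * m - 1))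
    {v w w' : RV m T Hb} (h1 : s(v, w) ∈ F) (h2 : s(v, w') ∈ F) : w = w' := by
  classical
  by_contra hne
  set N : Finset (RV m T Hb) := univ.filter fun w => (ringG m T Hb).Adj v w with hN
  set N' : Finset (RV m T Hb) := N \ {w, w'} with hN'
  have hNc : N.card ≤ 2 * m := nbr_card v
  have hw : w ∈ N := by
    rw [hN, Finset.mem_filter]
    exact ⟨Finset.mem_univ _, hF h1⟩
  have hw' : w' ∈ N := by
    rw [hN, Finset.mem_filter]
    exact ⟨Finset.mem_univ _, hF h2⟩
  have hN'c : N'.card + 2 ≤ 2 * m := by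
    have h3 : ({w, w'} : Finset (RV m T Hb)) ⊆ N := by
      intro z hz
      rcases Finset.mem_insert.1 hz with rfl | hz
      · exact hw
      · rw [Finset.mem_singleton.1 hz]
        exact hw'
    have h4 := Finset.card_sdiff_add_card_eq_card h3
    rw [Finset.card_pair hne, ← hN'] at h4
    omega
  have hcard := card_RV (m := m) (T := T) (Hb := Hb)
  have h5 : 2 * m * (T + 2) = 2 * m * T + 4 * m := by ring
  have h6 := sep_of_kconn _ _ hK {v} (insert v N')ᶜ (Finset.singleton_nonempty v) (by
    rw [← Finset.card_pos, Finset.card_compl]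
    have := Finset.card_insert_le v N'
    omega) (by
    rw [Finset.disjoint_left]
    intro a ha hb
    rw [Finset.mem_singleton] at ha
    subst ha
    exact (Finset.mem_compl.1 hb) (Finset.mem_insert_self _ _)) (by
    intro x hx y hy hxy
    rw [Finset.mem_singleton] at hx
    subst hx
    rw [SimpleGraph.deleteEdges_adj] at hxy
    rw [Finset.mem_compl, Finset.mem_insert, not_or] at hy
    apply hy.2
    rw [hN', Finset.mem_sdiff, hN, Finset.mem_filter]
    refine ⟨⟨Finset.mem_univ _, hxy.1⟩, ?_⟩
    rw [Finset.mem_insert, Finset.mem_singleton]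
    rintro (rfl | rfl)
    · exact hxy.2 (Finset.mem_coe.2 h1)
    · exact hxy.2 (Finset.mem_coe.2 h2))
  have h7 : ({v} ∪ (insert v N')ᶜ)ᶜ ⊆ N' := by
    intro z hz
    rw [Finset.mem_compl, Finset.mem_union, not_or, Finset.mem_singleton, Finset.mem_compl,
      not_not, Finset.mem_insert] at hz
    exact hz.2.resolve_left hz.1
  have h8 := Finset.card_le_card h7
  omega

/-- the link `x` at the positions `p`, `q` -/
def lk (p q : Fin (T + 2)) (x : Fin m × Bool) : Sym2 (RV m T Hb) :=
  s(pt (if x.2 = true then q else p) (x.1, true),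
    pt ((if x.2 = true then q else p) + 1) (x.1, false))

theorem two_links_lt (hK : KConn ((ringG m T Hb).deleteEdges (F : Set (Sym2 (RV m T Hb))))
    (2 * m - 1)) {p q : Fin (T + 2)} (hpq : p < q) {x y : Fin m × Bool} (hxy : x ≠ y)
    (hx : lk p q x ∈ F) (hy : lk p q y ∈ F) : False := by
  classical
  set S : Finset (RV m T Hb) := (univ.filter fun z : Fin m × Bool => lk p q z ∉ F).image
    (fun z => pt (if z.2 = true then q else p) (z.1, true)) with hS
  set X : Finset (RV m T Hb) := univ.filter fun v => (p < v.1.1 ∧ v.1.1 ≤ q) ∧ v ∉ S with hX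
  set Y : Finset (RV m T Hb) := univ.filter fun v => ¬ (p < v.1.1 ∧ v.1.1 ≤ q) ∧ v ∉ S with hY
  have hSf : ∀ (i : Fin (T + 2)) (j : Fin m), (pt i (j, false) : RV m T Hb) ∉ S := by
    intro i j h
    rw [hS, Finset.mem_image] at h
    obtain ⟨z, -, hz⟩ := h
    have := (pt_inj hz).2
    simp at this
  have hSp : ∀ j : Fin m, lk p q (j, false) ∉ F → (pt p (j, true) : RV m T Hb) ∈ S := by
    intro j h
    rw [hS, Finset.mem_image]
    exact ⟨(j, false), by simpa using h, by simp⟩
  have hSq : ∀ j : Fin m, lk p q (j, true) ∉ F → (pt q (j, true) : RV m T Hb) ∈ S := by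
    intro j h
    rw [hS, Finset.mem_image]
    exact ⟨(j, true), by simpa using h, by simp⟩
  have hcross : ∀ u ∈ X, ∀ v ∈ Y, (Link u v ∨ Link v u) → s(u, v) ∈ F := by
    intro u hu v hv h
    rw [hX, Finset.mem_filter] at hu
    rw [hY, Finset.mem_filter] at hv
    obtain ⟨-, ⟨hu1, hu2⟩, hu3⟩ := hu
    obtain ⟨-, hv1, hv2⟩ := hv
    rcases h with h | h
    · obtain ⟨j, eu, ev⟩ := link_eq h
      have h4 : v.1.1 = u.1.1 + 1 := by rw [ev]; rfl
      rw [h4, Fin.lt_def, Fin.le_def, Fin.val_add_one] at hv1
      have h5 : u.1.1 = q := by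
        apply Fin.ext
        rw [Fin.lt_def] at hu1
        rw [Fin.le_def] at hu2
        have h6 := q.2
        split_ifs at hv1 with h7
        · have h8 := congrArg Fin.val h7
          rw [Fin.val_last] at h8
          omega
        · omega
      rw [h5] at eu ev
      by_contra hcon
      apply hu3
      rw [eu]
      refine hSq j ?_
      intro h9
      apply hcon
      rw [eu, ev]
      exact h9
    · obtain ⟨j, ev, eu⟩ := link_eq h
      have h4 : u.1.1 = v.1.1 + 1 := by rw [eu]; rfl
      rw [h4, Fin.lt_def, Fin.val_add_one] at hu1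
      rw [h4, Fin.le_def, Fin.val_add_one] at hu2
      have h5 : v.1.1 = p := by
        apply Fin.ext
        rw [Fin.lt_def, Fin.le_def] at hv1
        split_ifs at hu1 hu2 with h7
        · omega
        · omega
      rw [h5] at eu ev
      by_contra hcon
      apply hv2
      rw [ev]
      refine hSp j ?_
      intro h9
      apply hcon
      rw [eu, ev, Sym2.eq_swap]
      exact h9
  have h1 := sep_of_kconn _ _ hK X Y ⟨pt q (x.1, false), by
      rw [hX, Finset.mem_filter]
      exact ⟨Finset.mem_univ _, ⟨hpq, le_refl q⟩, hSf _ _⟩⟩ ⟨pt p (x.1, false), by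
      rw [hY, Finset.mem_filter]
      exact ⟨Finset.mem_univ _, fun h => lt_irrefl p h.1, hSf _ _⟩⟩ (by
      rw [Finset.disjoint_left]
      intro a ha hb
      rw [hX, Finset.mem_filter] at ha
      rw [hY, Finset.mem_filter] at hb
      exact hb.2.1 ha.2.1) (by
      intro u hu v hv huv
      rw [SimpleGraph.deleteEdges_adj] at huv
      rcases huv.1 with h | h
      · rw [hX, Finset.mem_filter] at hu
        rw [hY, Finset.mem_filter] at hv
        apply hv.2.1
        rw [← h.1]
        exact hu.2.1
      · exact huv.2 (Finset.mem_coe.2 (hcross u hu v hv h)))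
  have h2 : (X ∪ Y)ᶜ ⊆ S := by
    intro z hz
    rw [Finset.mem_compl, Finset.mem_union, not_or, hX, hY, Finset.mem_filter,
      Finset.mem_filter] at hz
    by_contra hzS
    by_cases h3 : p < z.1.1 ∧ z.1.1 ≤ q
    · exact hz.1 ⟨Finset.mem_univ _, h3, hzS⟩
    · exact hz.2 ⟨Finset.mem_univ _, h3, hzS⟩
  have h3 : S.card ≤ (univ \ {x, y} : Finset (Fin m × Bool)).card := by
    refine Finset.card_image_le.trans (Finset.card_le_card ?_)
    intro z hz
    rw [Finset.mem_filter] at hz
    rw [Finset.mem_sdiff, Finset.mem_insert, Finset.mem_singleton]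
    refine ⟨Finset.mem_univ _, ?_⟩
    rintro (rfl | rfl)
    · exact hz.2 hx
    · exact hz.2 hy
  rw [Finset.card_univ_sdiff, Finset.card_pair hxy, Fintype.card_prod, Fintype.card_fin,
    Fintype.card_bool] at h3
  have h4 := Finset.card_le_card h2
  have h5 : 0 < m := by
    have := x.1.2
    omega
  have h6 : 2 ≤ m * 2 := by omega
  omega

theorem lk_swap (p q : Fin (T + 2)) (x : Fin m × Bool) :
    (lk q p (x.1, !x.2) : Sym2 (RV m T Hb)) = lk p q x := by
  obtain ⟨j, b⟩ := x
  cases b <;> simp [lk]

theorem two_links (hK : KConn ((ringG m T Hb).deleteEdges (F : Set (Sym2 (RV m T Hb))))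
    (2 * m - 1)) {p q : Fin (T + 2)} (hpq : p ≠ q) {x y : Fin m × Bool} (hxy : x ≠ y)
    (hx : lk p q x ∈ F) (hy : lk p q y ∈ F) : False := by
  rcases lt_or_gt_of_ne hpq with h | h
  · exact two_links_lt hK h hxy hx hy
  · rw [← lk_swap] at hx hy
    refine two_links_lt hK h ?_ hx hy
    intro h1
    apply hxy
    have h2 := congrArg Prod.fst h1
    have h3 := congrArg Prod.snd h1
    simp only [Bool.not_inj_iff] at h2 h3
    exact Prod.ext h2 h3

/-- the edges of `F` inside of a blob -/
noncomputable def Fin' (F : Finset (Sym2 (RV m T Hb))) (i : Fin (T + 2)) :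
    Finset (Sym2 (RV m T Hb)) := by
  classical
  exact F.filter fun e => ∃ u w, e = s(u, w) ∧ Inner u w ∧ u.1.1 = i

theorem card_Fin' (hm : 1 ≤ m) (hF : (F : Set (Sym2 (RV m T Hb))) ⊆ (ringG m T Hb).edgeSet)
    (hK : KConn ((ringG m T Hb).deleteEdges (F : Set (Sym2 (RV m T Hb)))) (2 * m - 1))
    (i : Fin (T + 2)) : (Fin' F i).card ≤ m := by
  classical
  have h1 := Finset.card_mul_le_card_mul (s := Fin' F i) (t := blob m Hb i)
    (fun (e : Sym2 (RV m T Hb)) (v : RV m T Hb) => v ∈ e) (m := 2) (n := 1) (by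
      intro e he
      rw [Fin', Finset.mem_filter] at he
      obtain ⟨-, u, w, rfl, h2, h3⟩ := he
      calc 2 = ({u, w} : Finset (RV m T Hb)).card := (Finset.card_pair h2.2.1).symm
        _ ≤ _ := Finset.card_le_card (by
          intro z hz
          rw [Finset.mem_bipartiteAbove, mem_blob]
          rcases Finset.mem_insert.1 hz with rfl | hz
          · exact ⟨h3, Sym2.mem_mk_left _ _⟩
          · rw [Finset.mem_singleton.1 hz]
            exact ⟨h2.1.symm.trans h3, Sym2.mem_mk_right _ _⟩)) (by
      intro v _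
      rw [Finset.card_le_one]
      intro e he e' he'
      rw [Finset.mem_bipartiteBelow, Fin', Finset.mem_filter] at he he'
      obtain ⟨⟨he1, -⟩, he2⟩ := he
      obtain ⟨⟨he1', -⟩, he2'⟩ := he'
      obtain ⟨w, rfl⟩ := he2
      obtain ⟨w', rfl⟩ := he2'
      rw [F_deg hm hF hK he1 he1'])
  rw [card_blob] at h1
  split_ifs at h1 <;> omega

/-- at most `m t + 1` edges of the ring of `t` cliques can be deleted -/
theorem ring_bound (hm : 1 ≤ m) (hF : (F : Set (Sym2 (RV m T Hb))) ⊆ (ringG m T Hb).edgeSet)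
    (hK : KConn ((ringG m T Hb).deleteEdges (F : Set (Sym2 (RV m T Hb)))) (2 * m - 1)) :
    F.card ≤ m * (T + 2) + 1 := by
  classical
  set L : Finset (Sym2 (RV m T Hb)) := F.filter fun e => ∃ (p : Fin (T + 2)) (j : Fin m),
    e = s(pt p (j, true), pt (p + 1) (j, false)) with hL
  have hLc : L.card ≤ 1 := by
    rw [Finset.card_le_one]
    intro e he e' he'
    rw [hL, Finset.mem_filter] at he he'
    obtain ⟨he1, p, j, rfl⟩ := he
    obtain ⟨he1', q, l, rfl⟩ := he'
    by_cases hpq : p = q
    · subst hpq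
      by_cases hjl : j = l
      · rw [hjl]
      · exfalso
        have hpp : p ≠ p + 1 := by
          intro h
          have h1 : (1 : Fin (T + 2)) = 0 := by
            have h2 : p + 0 = p + 1 := by rw [add_zero]; exact h
            exact (add_left_cancel h2).symm
          exact one_ne_zero h1
        refine two_links hK hpp (x := (j, false)) (y := (l, false)) ?_ ?_ ?_
        · intro h
          exact hjl (by simpa using h)
        · simpa [lk] using he1
        · simpa [lk] using he1'
    · exfalso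
      refine two_links hK hpq (x := (j, false)) (y := (l, true)) ?_ ?_ ?_
      · intro h
        simp at h
      · simpa [lk] using he1
      · simpa [lk] using he1'
  have hsub : F ⊆ L ∪ univ.biUnion (Fin' F) := by
    intro e he
    rw [Finset.mem_union]
    have h1 := hF (Finset.mem_coe.2 he)
    induction e using Sym2.ind with
    | _ u w =>
      rw [SimpleGraph.mem_edgeSet] at h1
      rcases h1 with h | h | h
      · right
        rw [Finset.mem_biUnion]
        refine ⟨u.1.1, Finset.mem_univ _, ?_⟩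
        rw [Fin', Finset.mem_filter]
        exact ⟨he, u, w, rfl, h, rfl⟩
      · left
        rw [hL, Finset.mem_filter]
        obtain ⟨j, h1, h2⟩ := link_eq h
        refine ⟨he, u.1.1, j, ?_⟩
        rw [← h1, ← h2]
      · left
        rw [hL, Finset.mem_filter]
        obtain ⟨j, h1, h2⟩ := link_eq h
        refine ⟨he, w.1.1, j, ?_⟩
        rw [← h1, ← h2, Sym2.eq_swap]
  have h1 := Finset.card_le_card hsub
  have h2 := Finset.card_union_le L (univ.biUnion (Fin' F))
  have h3 : (univ.biUnion (Fin' F)).card ≤ (T + 2) * m := by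
    refine Finset.card_biUnion_le.trans ?_
    calc ∑ i : Fin (T + 2), (Fin' F i).card ≤ ∑ _i : Fin (T + 2), m :=
          Finset.sum_le_sum fun i _ => card_Fin' hm hF hK i
      _ = (T + 2) * m := by rw [Finset.sum_const, Finset.card_univ, Fintype.card_fin, smul_eq_mul]
  rw [mul_comm m (T + 2)]
  omega

end Del

/-- the upper bound for `f(n, 2 m)` with `n = 2 m t + b`, `b ≤ t` -/
theorem fnk_le (m t b : ℕ) (hm : 1 ≤ m) (ht : 2 ≤ t) (hb : b ≤ t) :
    fnk (2 * m * t + b) (2 * m) ≤ m * t + 1 := by
  classical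
  obtain ⟨T, rfl⟩ : ∃ T, t = T + 2 := ⟨t - 2, by omega⟩
  obtain ⟨Hb, -, hHb⟩ := Finset.exists_subset_card_eq (s := (univ : Finset (Fin (T + 2))))
    (n := b) (by rw [Finset.card_univ, Fintype.card_fin]; exact hb)
  have hcard : Fintype.card (RV m T Hb) = 2 * m * (T + 2) + b := by rw [card_RV, hHb]
  obtain ⟨e⟩ : Nonempty (RV m T Hb ≃ Fin (2 * m * (T + 2) + b)) :=
    ⟨Fintype.equivFinOfCardEq hcard⟩
  set G : SimpleGraph (Fin (2 * m * (T + 2) + b)) := (ringG m T Hb).comap e.symm with hG
  have hGadj : ∀ a c, (ringG m T Hb).Adj a c ↔ G.Adj (e a) (e c) := by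
    intro a c
    rw [hG, SimpleGraph.comap_adj, Equiv.symm_apply_apply, Equiv.symm_apply_apply]
  have hGK : KConn G (2 * m) := kconn_equiv e _ _ hGadj _ (ring_conn hm)
  have hrem : rem G (2 * m) ≤ m * (T + 2) + 1 := by
    refine csSup_le' ?_
    rintro r ⟨F, hF, rfl, hconn⟩
    set F₂ : Finset (Sym2 (RV m T Hb)) := F.map e.symm.toEmbedding.sym2Map with hF₂
    have hmem : ∀ a c, s(a, c) ∈ F₂ ↔ s(e a, e c) ∈ F := by
      intro a c
      have h1 : s(a, c) = e.symm.toEmbedding.sym2Map s(e a, e c) := by
        rw [Function.Embedding.sym2Map_apply, Sym2.map_mk]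
        simp
      rw [hF₂, h1, Finset.mem_map']
    rw [← Finset.card_map e.symm.toEmbedding.sym2Map, ← hF₂]
    refine ring_bound hm ?_ ?_
    · intro x hx
      induction x using Sym2.ind with
      | _ a c =>
        rw [Finset.mem_coe, hmem] at hx
        have h1 := hF (Finset.mem_coe.2 hx)
        rw [SimpleGraph.mem_edgeSet] at h1 ⊢
        rwa [hGadj]
    · refine kconn_equiv e.symm _ _ ?_ _ hconn
      intro a c
      rw [SimpleGraph.deleteEdges_adj, SimpleGraph.deleteEdges_adj, hGadj, Finset.mem_coe,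
        Finset.mem_coe, hmem, Equiv.apply_symm_apply, Equiv.apply_symm_apply]
  have hmem : rem G (2 * m) ∈ {r | ∃ G : SimpleGraph (Fin (2 * m * (T + 2) + b)),
      KConn G (2 * m) ∧ rem G (2 * m) = r} := ⟨G, hGK, rfl⟩
  exact (Nat.sInf_le hmem).trans hrem

end Pool.Agent.RE26
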