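import Pool.Agent.Lib_helper26.RE.Arc

/-!
# MP_df1a54_co: almost regular graphs without large completely joined pairs
-/

open Finset

set_option linter.unusedSectionVars false

namespace Pool.Agent.RE26

variable {s : ℕ} [NeZero s]

/-- `i` (left) is joined to `l` (right) if `l - i ∈ {0, ..., c - 2}`, except for `l = i ∈ T` -/
def RL (c : ℕ) (T : Finset (ZMod s)) (i l : ZMod s) : Prop :=
  (∃ j : ℕ, j < c - 1 ∧ l = i + (j : ZMod s)) ∧ ¬ (l = i ∧ i ∈ T)

/-- the bipartite relation -/
def RR (c : ℕ) (T : Finset (ZMod s)) (p q : ZMod s × Bool) : Prop :=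
  (p.2 = false ∧ q.2 = true ∧ RL c T p.1 q.1) ∨ (q.2 = false ∧ p.2 = true ∧ RL c T q.1 p.1)

theorem RR_symm (c : ℕ) (T : Finset (ZMod s)) {p q : ZMod s × Bool} (h : RR c T p q) :
    RR c T q p := Or.symm h

theorem RR_ne (c : ℕ) (T : Finset (ZMod s)) {p q : ZMod s × Bool} (h : RR c T p q) :
    p.2 ≠ q.2 := by
  rcases h with ⟨h1, h2, -⟩ | ⟨h1, h2, -⟩ <;> rw [h1, h2] <;> decide

theorem card_fst {X : Finset (ZMod s × Bool)} {b : Bool} (h : ∀ x ∈ X, x.2 = b) :
    (X.image Prod.fst).card = X.card := by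
  refine Finset.card_image_of_injOn ?_
  intro x hx y hy hxy
  exact Prod.ext hxy ((h x hx).trans (h y hy).symm)

/-- one-sided version -/
theorem core_one (c : ℕ) (hc : 1 ≤ c) (hs : c ≤ s) (T : Finset (ZMod s))
    (X Y : Finset (ZMod s × Bool)) (hX : X.Nonempty) (hY : Y.Nonempty)
    (hXf : ∀ x ∈ X, x.2 = false) (hYt : ∀ y ∈ Y, y.2 = true)
    (h : ∀ x ∈ X, ∀ y ∈ Y, RR c T x y) :
    X.card + Y.card ≤ c ∧ (2 ≤ c → ((∀ y ∈ Y, y.1 ∈ T) ∨ (∀ x ∈ X, x.1 ∈ T)) →
      X.card + Y.card + 1 ≤ c) := by
  have hRL : ∀ x ∈ X, ∀ y ∈ Y, RL c T x.1 y.1 := by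
    intro x hx y hy
    rcases h x hx y hy with ⟨-, -, h3⟩ | ⟨h1, -, -⟩
    · exact h3
    · rw [hYt y hy] at h1
      exact absurd h1 (by decide)
  constructor
  · have := arc (X.image Prod.fst) (Y.image Prod.fst) (hX.image _) (hY.image _) 0 (c - 1)
      (by omega) (by
        intro i hi l hl
        obtain ⟨x, hx, rfl⟩ := Finset.mem_image.1 hi
        obtain ⟨y, hy, rfl⟩ := Finset.mem_image.1 hl
        obtain ⟨⟨j, hj, hjl⟩, -⟩ := hRL x hx y hy
        exact ⟨j, hj, by rw [Nat.cast_zero, add_zero]; exact hjl⟩)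
    rw [card_fst hXf, card_fst hYt] at this
    omega
  · intro hc2 hT
    have := arc (X.image Prod.fst) (Y.image Prod.fst) (hX.image _) (hY.image _) 1 (c - 2)
      (by omega) (by
        intro i hi l hl
        obtain ⟨x, hx, rfl⟩ := Finset.mem_image.1 hi
        obtain ⟨y, hy, rfl⟩ := Finset.mem_image.1 hl
        obtain ⟨⟨j, hj, hjl⟩, hne⟩ := hRL x hx y hy
        have hj0 : j ≠ 0 := by
          rintro rfl
          rw [Nat.cast_zero, add_zero] at hjl
          refine hne ⟨hjl, ?_⟩
          rcases hT with hT | hT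
          · rw [← hjl]; exact hT y hy
          · exact hT x hx
        refine ⟨j - 1, by omega, ?_⟩
        rw [hjl]
        have : (j : ZMod s) = ((1 : ℕ) : ZMod s) + ((j - 1 : ℕ) : ZMod s) := by
          rw [← Nat.cast_add]
          congr 1
          omega
        rw [this, add_assoc])
    rw [card_fst hXf, card_fst hYt] at this
    omega

theorem core (c : ℕ) (hc : 1 ≤ c) (hs : c ≤ s) (T : Finset (ZMod s))
    (X Y : Finset (ZMod s × Bool)) (hX : X.Nonempty) (hY : Y.Nonempty)
    (h : ∀ x ∈ X, ∀ y ∈ Y, RR c T x y) :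
    X.card + Y.card ≤ c ∧ (2 ≤ c → (∀ y ∈ Y, y.1 ∈ T) → X.card + Y.card + 1 ≤ c) := by
  obtain ⟨x0, hx0⟩ := hX
  obtain ⟨y0, hy0⟩ := hY
  have hXs : ∀ x ∈ X, x.2 ≠ y0.2 := fun x hx => RR_ne c T (h x hx y0 hy0)
  have hYs : ∀ y ∈ Y, x0.2 ≠ y.2 := fun y hy => RR_ne c T (h x0 hx0 y hy)
  by_cases hb : y0.2 = true
  · have hXf : ∀ x ∈ X, x.2 = false := by
      intro x hx
      have := hXs x hx
      rw [hb] at this
      simpa using this
    have hYt : ∀ y ∈ Y, y.2 = true := by
      intro y hy
      have := hYs y hy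
      rw [hXf x0 hx0] at this
      cases hy2 : y.2
      · exact absurd hy2.symm this
      · rfl
    obtain ⟨h1, h2⟩ := core_one c hc hs T X Y ⟨x0, hx0⟩ ⟨y0, hy0⟩ hXf hYt h
    exact ⟨h1, fun hc2 hT => h2 hc2 (Or.inl hT)⟩
  · have hb' : y0.2 = false := by simpa using hb
    have hXt : ∀ x ∈ X, x.2 = true := by
      intro x hx
      have := hXs x hx
      rw [hb'] at this
      simpa using this
    have hYf : ∀ y ∈ Y, y.2 = false := by
      intro y hy
      have := hYs y hy
      rw [hXt x0 hx0] at this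
      cases hy2 : y.2
      · rfl
      · exact absurd hy2.symm this
    obtain ⟨h1, h2⟩ := core_one c hc hs T Y X ⟨y0, hy0⟩ ⟨x0, hx0⟩ hYf hXt
      (fun y hy x hx => RR_symm c T (h x hx y hy))
    exact ⟨by omega, fun hc2 hT => by have := h2 hc2 (Or.inr hT); omega⟩

/-- the graph for even order -/
def HE (s c : ℕ) [NeZero s] : SimpleGraph (ZMod s × Bool) where
  Adj p q := RR c ∅ p q
  symm := ⟨fun _ _ h => RR_symm c ∅ h⟩
  loopless := ⟨fun _ h => RR_ne c ∅ h rfl⟩

/-- the graph for odd order -/
def HO (s c : ℕ) [NeZero s] (T : Finset (ZMod s)) : SimpleGraph (Option (ZMod s × Bool)) where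
  Adj p q := (∃ a b, p = some a ∧ q = some b ∧ RR c T a b) ∨ (p = none ∧ ∃ a, q = some a ∧ a.1 ∈ T) ∨
    (q = none ∧ ∃ a, p = some a ∧ a.1 ∈ T)
  symm := ⟨by
    rintro p q (⟨a, b, h1, h2, h3⟩ | ⟨h1, h2⟩ | ⟨h1, h2⟩)
    · exact Or.inl ⟨b, a, h2, h1, RR_symm c T h3⟩
    · exact Or.inr (Or.inr ⟨h1, h2⟩)
    · exact Or.inr (Or.inl ⟨h1, h2⟩)⟩
  loopless := ⟨by
    rintro p (⟨a, b, h1, h2, h3⟩ | ⟨h1, a, h2, -⟩ | ⟨h1, a, h2, -⟩)
    · rw [h1] at h2
      rw [Option.some.inj h2] at h3
      exact RR_ne c T h3 rfl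
    · rw [h1] at h2; cases h2
    · rw [h1] at h2; cases h2⟩

theorem HO_some (c : ℕ) (T : Finset (ZMod s)) (a b : ZMod s × Bool) :
    (HO s c T).Adj (some a) (some b) ↔ RR c T a b := by
  constructor
  · rintro (⟨a', b', h1, h2, h3⟩ | ⟨h1, -⟩ | ⟨h1, -⟩)
    · rw [Option.some.inj h1, Option.some.inj h2]; exact h3
    · cases h1
    · cases h1
  · intro h
    exact Or.inl ⟨a, b, rfl, rfl, h⟩

theorem HO_none (c : ℕ) (T : Finset (ZMod s)) (q : Option (ZMod s × Bool)) :
    (HO s c T).Adj none q ↔ ∃ a, q = some a ∧ a.1 ∈ T := by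
  constructor
  · rintro (⟨a', b', h1, h2, h3⟩ | ⟨-, h2⟩ | ⟨h1, a, h2, -⟩)
    · cases h1
    · exact h2
    · cases h2
  · intro h
    exact Or.inr (Or.inl ⟨rfl, h⟩)

theorem HE_bic (c : ℕ) (hc : 1 ≤ c) (hs : c ≤ s) : Bic (HE s c) c :=
  fun X Y hX hY h => (core c hc hs ∅ X Y hX hY h).1

/-- `some`-part of a finset -/
def unS (X : Finset (Option (ZMod s × Bool))) : Finset (ZMod s × Bool) := Finset.eraseNone X

theorem HO_bic_none (c : ℕ) (hc : 2 ≤ c) (hs : c ≤ s) (T : Finset (ZMod s)) (hT : 2 * T.card + 1 ≤ c)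
    (X Y : Finset (Option (ZMod s × Bool))) (hY : Y.Nonempty)
    (h : ∀ x ∈ X, ∀ y ∈ Y, (HO s c T).Adj x y) (hn : none ∈ X) : X.card + Y.card ≤ c := by
  classical
  have hYT : ∀ y ∈ Y, ∃ a, y = some a ∧ a.1 ∈ T := fun y hy => (HO_none c T y).1 (h none hn y hy)
  by_cases hX1 : X = {none}
  · -- `Y` is contained in `some (T × Bool)`
    have hsub : Y ⊆ (T ×ˢ (Finset.univ : Finset Bool)).image some := by
      intro y hy
      obtain ⟨a, rfl, ha⟩ := hYT y hy
      exact Finset.mem_image.2 ⟨a, Finset.mem_product.2 ⟨ha, Finset.mem_univ _⟩, rfl⟩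
    have h1 := (Finset.card_le_card hsub).trans Finset.card_image_le
    rw [Finset.card_product, Finset.card_univ, Fintype.card_bool] at h1
    rw [hX1, Finset.card_singleton]
    omega
  · have hX' : (X.erase none).Nonempty := by
      by_contra hcon
      rw [Finset.not_nonempty_iff_eq_empty] at hcon
      apply hX1
      ext z
      rw [Finset.mem_singleton]
      constructor
      · intro hz
        by_contra hne
        have : z ∈ X.erase none := Finset.mem_erase.2 ⟨hne, hz⟩
        rw [hcon] at this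
        simp at this
      · rintro rfl; exact hn
    set X' := Finset.eraseNone X with hXd
    set Y' := Finset.eraseNone Y with hYd
    have hX'm : ∀ a, a ∈ X' ↔ some a ∈ X := fun a => Finset.mem_eraseNone
    have hY'm : ∀ a, a ∈ Y' ↔ some a ∈ Y := fun a => Finset.mem_eraseNone
    have hcX : X'.card + 1 = X.card := by
      have h1 : X.erase none = X'.image some := by
        ext z
        rw [Finset.mem_erase, Finset.mem_image]
        constructor
        · rintro ⟨hz, hzX⟩
          cases z with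
          | none => exact absurd rfl hz
          | some a => exact ⟨a, (hX'm a).2 hzX, rfl⟩
        · rintro ⟨a, ha, rfl⟩
          exact ⟨by simp, (hX'm a).1 ha⟩
      rw [← Finset.card_erase_add_one hn, h1,
        Finset.card_image_of_injective _ (Option.some_injective _)]
    have hcY : Y'.card = Y.card := by
      have h1 : Y = Y'.image some := by
        ext z
        rw [Finset.mem_image]
        constructor
        · intro hz
          obtain ⟨a, rfl, -⟩ := hYT z hz
          exact ⟨a, (hY'm a).2 hz, rfl⟩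
        · rintro ⟨a, ha, rfl⟩
          exact (hY'm a).1 ha
      conv_rhs => rw [h1]
      rw [Finset.card_image_of_injective _ (Option.some_injective _)]
    have hX'ne : X'.Nonempty := by
      obtain ⟨z, hz⟩ := hX'
      obtain ⟨hz1, hz2⟩ := Finset.mem_erase.1 hz
      cases z with
      | none => exact absurd rfl hz1
      | some a => exact ⟨a, (hX'm a).2 hz2⟩
    have hY'ne : Y'.Nonempty := by
      rw [← Finset.card_pos, hcY, Finset.card_pos]; exact hY
    have := (core c (by omega) hs T X' Y' hX'ne hY'ne (fun x hx y hy =>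
      (HO_some c T x y).1 (h _ ((hX'm x).1 hx) _ ((hY'm y).1 hy)))).2 hc (fun y hy => by
        obtain ⟨a, ha, haT⟩ := hYT _ ((hY'm y).1 hy)
        rw [Option.some.inj ha]; exact haT)
    omega

theorem HO_bic (c : ℕ) (hc : 1 ≤ c) (hs : c ≤ s) (T : Finset (ZMod s)) (hT : 2 * T.card + 1 ≤ c) :
    Bic (HO s c T) c := by
  classical
  intro X Y hX hY h
  by_cases hT0 : T = ∅
  · -- no edges at `none`
    subst hT0
    have hnX : none ∉ X := by
      intro hn
      obtain ⟨y, hy⟩ := hY
      obtain ⟨a, -, ha⟩ := (HO_none c ∅ y).1 (h none hn y hy)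
      simp at ha
    have hnY : none ∉ Y := by
      intro hn
      obtain ⟨x, hx⟩ := hX
      obtain ⟨a, -, ha⟩ := (HO_none c ∅ x).1 (h x hx none hn).symm
      simp at ha
    set X' := Finset.eraseNone X with hXd
    set Y' := Finset.eraseNone Y with hYd
    have hX'm : ∀ a, a ∈ X' ↔ some a ∈ X := fun a => Finset.mem_eraseNone
    have hY'm : ∀ a, a ∈ Y' ↔ some a ∈ Y := fun a => Finset.mem_eraseNone
    have him : ∀ Z : Finset (Option (ZMod s × Bool)), none ∉ Z →
        (Finset.eraseNone Z).card = Z.card := by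
      intro Z hZ
      have h1 : Z = (Finset.eraseNone Z).image some := by
        ext z
        rw [Finset.mem_image]
        constructor
        · intro hz
          cases z with
          | none => exact absurd hz hZ
          | some a => exact ⟨a, Finset.mem_eraseNone.2 hz, rfl⟩
        · rintro ⟨a, ha, rfl⟩
          exact Finset.mem_eraseNone.1 ha
      conv_rhs => rw [h1]
      rw [Finset.card_image_of_injective _ (Option.some_injective _)]
    have hcX := him X hnX
    have hcY := him Y hnY
    rw [← hXd] at hcX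
    rw [← hYd] at hcY
    have := (core c hc hs ∅ X' Y' (by rw [← Finset.card_pos, hcX, Finset.card_pos]; exact hX)
      (by rw [← Finset.card_pos, hcY, Finset.card_pos]; exact hY) (fun x hx y hy =>
      (HO_some c ∅ x y).1 (h _ ((hX'm x).1 hx) _ ((hY'm y).1 hy)))).1
    omega
  · have hTpos : 0 < T.card := Finset.card_pos.2 (Finset.nonempty_iff_ne_empty.2 hT0)
    by_cases hnX : none ∈ X
    · exact HO_bic_none c (by omega) hs T hT X Y hY h hnX
    by_cases hnY : none ∈ Y
    · have := HO_bic_none c (by omega) hs T hT Y X hX (fun y hy x hx => (h x hx y hy).symm) hnY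
      omega
    have him : ∀ Z : Finset (Option (ZMod s × Bool)), none ∉ Z →
        (Finset.eraseNone Z).card = Z.card := by
      intro Z hZ
      have h1 : Z = (Finset.eraseNone Z).image some := by
        ext z
        rw [Finset.mem_image]
        constructor
        · intro hz
          cases z with
          | none => exact absurd hz hZ
          | some a => exact ⟨a, Finset.mem_eraseNone.2 hz, rfl⟩
        · rintro ⟨a, ha, rfl⟩
          exact Finset.mem_eraseNone.1 ha
      conv_rhs => rw [h1]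
      rw [Finset.card_image_of_injective _ (Option.some_injective _)]
    have hcX := him X hnX
    have hcY := him Y hnY
    have := (core c hc hs T (Finset.eraseNone X) (Finset.eraseNone Y)
      (by rw [← Finset.card_pos, hcX, Finset.card_pos]; exact hX)
      (by rw [← Finset.card_pos, hcY, Finset.card_pos]; exact hY) (fun x hx y hy =>
      (HO_some c T x y).1 (h _ (Finset.mem_eraseNone.1 hx) _ (Finset.mem_eraseNone.1 hy)))).1
    omega

/-! ### degrees -/

theorem cast_inj_of_lt {a b : ℕ} (ha : a < s) (hb : b < s) (h : (a : ZMod s) = (b : ZMod s)) :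
    a = b := Nat.ModEq.eq_of_lt_of_lt ((ZMod.natCast_eq_natCast_iff _ _ _).1 h) ha hb

/-- the neighbours `j` steps away, `a ≤ j < a + m` -/
theorem card_steps (p : ZMod s × Bool) (a m : ℕ) (h : a + m ≤ s) :
    ((Finset.range m).image (fun j : ℕ => ((if p.2 = false then p.1 + ((a + j : ℕ) : ZMod s)
      else p.1 - ((a + j : ℕ) : ZMod s)), !p.2))).card = m := by
  rw [Finset.card_image_of_injOn, Finset.card_range]
  intro i hi j hj hij
  simp only [Finset.coe_range, Set.mem_Iio] at hi hj
  have h1 := (Prod.mk.inj hij).1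
  have h2 : ((a + i : ℕ) : ZMod s) = ((a + j : ℕ) : ZMod s) := by
    split_ifs at h1
    · exact add_left_cancel h1
    · exact sub_right_injective h1
  have := cast_inj_of_lt (by omega) (by omega) h2
  omega

theorem steps_RR (c : ℕ) (T : Finset (ZMod s)) (hs : c ≤ s) (p : ZMod s × Bool) (j : ℕ)
    (hj : j < c - 1) (hT : j = 0 → p.1 ∉ T) :
    RR c T p ((if p.2 = false then p.1 + (j : ZMod s) else p.1 - (j : ZMod s)), !p.2) := by
  have hne : j ≠ 0 → (j : ZMod s) ≠ 0 := by
    intro hj0 h
    have := cast_inj_of_lt (s := s) (a := j) (b := 0) (by omega) (by omega) (by simpa using h)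
    exact hj0 this
  by_cases hp : p.2 = false
  · refine Or.inl ⟨hp, by simp [hp], ⟨j, hj, by simp [hp]⟩, ?_⟩
    simp only [hp, if_true]
    rintro ⟨h1, h2⟩
    by_cases hj0 : j = 0
    · exact hT hj0 h2
    · exact hne hj0 (by simpa using h1)
  · have hp' : p.2 = true := by simpa using hp
    refine Or.inr ⟨by simp [hp'], hp', ⟨j, hj, by simp [hp']⟩, ?_⟩
    simp only [hp']
    rintro ⟨h1, h2⟩
    by_cases hj0 : j = 0
    · subst hj0
      apply hT rfl
      simpa using h2
    · apply hne hj0
      have h1' : p.1 = p.1 - (j : ZMod s) := by simpa using h1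
      exact (sub_eq_self.1 h1'.symm)

theorem HE_deg (c : ℕ) (hs : c ≤ s) (p : ZMod s × Bool) : c - 1 ≤ (cn (HE s c) {p}).card := by
  classical
  have h := card_steps p 0 (c - 1) (by omega)
  rw [← h]
  refine Finset.card_le_card ?_
  intro z hz
  obtain ⟨j, hj, rfl⟩ := Finset.mem_image.1 hz
  rw [mem_cn]
  intro q hq
  rw [Finset.mem_singleton.1 hq]
  have := steps_RR c ∅ hs p j (Finset.mem_range.1 hj) (by simp)
  change RR c ∅ p _
  simpa using this

theorem HO_deg_some (c : ℕ) (hs : c ≤ s) (T : Finset (ZMod s)) (p : ZMod s × Bool) :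
    c - 1 ≤ (cn (HO s c T) {some p}).card := by
  classical
  by_cases hpT : p.1 ∈ T
  · have hs0 : s ≠ 0 := NeZero.ne s
    have h := card_steps p 1 (c - 2) (by omega)
    have hsub : insert none (((Finset.range (c - 2)).image (fun j : ℕ =>
        ((if p.2 = false then p.1 + ((1 + j : ℕ) : ZMod s)
          else p.1 - ((1 + j : ℕ) : ZMod s)), !p.2))).image some) ⊆ cn (HO s c T) {some p} := by
      intro z hz
      rw [mem_cn]
      intro q hq
      rw [Finset.mem_singleton.1 hq]
      rcases Finset.mem_insert.1 hz with rfl | hz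
      · exact ((HO_none c T (some p)).2 ⟨p, rfl, hpT⟩).symm
      · obtain ⟨w, hw, rfl⟩ := Finset.mem_image.1 hz
        obtain ⟨j, hj, rfl⟩ := Finset.mem_image.1 hw
        rw [HO_some]
        have hj' := Finset.mem_range.1 hj
        exact steps_RR c T hs p (1 + j) (by omega) (by omega)
    have h2 := Finset.card_le_card hsub
    rw [Finset.card_insert_of_notMem (by simp),
      Finset.card_image_of_injective _ (Option.some_injective _), h] at h2
    omega
  · have h := card_steps p 0 (c - 1) (by omega)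
    have hsub : (((Finset.range (c - 1)).image (fun j : ℕ =>
        ((if p.2 = false then p.1 + ((0 + j : ℕ) : ZMod s)
          else p.1 - ((0 + j : ℕ) : ZMod s)), !p.2))).image some) ⊆ cn (HO s c T) {some p} := by
      intro z hz
      rw [mem_cn]
      intro q hq
      rw [Finset.mem_singleton.1 hq]
      obtain ⟨w, hw, rfl⟩ := Finset.mem_image.1 hz
      obtain ⟨j, hj, rfl⟩ := Finset.mem_image.1 hw
      rw [HO_some]
      have := steps_RR c T hs p j (Finset.mem_range.1 hj) (fun _ => hpT)
      simpa using this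
    have h2 := Finset.card_le_card hsub
    rw [Finset.card_image_of_injective _ (Option.some_injective _), h] at h2
    exact h2

theorem HO_deg_none (c : ℕ) (T : Finset (ZMod s)) :
    2 * T.card ≤ (cn (HO s c T) {none}).card := by
  classical
  have hsub : (T ×ˢ (Finset.univ : Finset Bool)).image some ⊆ cn (HO s c T) {none} := by
    intro z hz
    obtain ⟨a, ha, rfl⟩ := Finset.mem_image.1 hz
    rw [mem_cn]
    intro q hq
    rw [Finset.mem_singleton.1 hq, HO_none]
    exact ⟨a, rfl, (Finset.mem_product.1 ha).1⟩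
  have h1 := Finset.card_le_card hsub
  rw [Finset.card_image_of_injective _ (Option.some_injective _), Finset.card_product,
    Finset.card_univ, Fintype.card_bool] at h1
  omega

end Pool.Agent.RE26
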